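import Pool.Agent.W603.PV.Hgt

/-! Finite extensions of function fields: heights of elements of the base field and a lower bound
for the canonical degree. -/

set_option autoImplicit false

open FF Pool.Agent.W603.LV
open scoped IntermediateField

namespace Pool.Agent.W603.PV

universe u v w

variable {k : Type u} [Field k] {K : Type v} [Field K] [Algebra k K]

theorem hgt_algebraic [CharZero k] [IsFF k K] {f : K} (hf : IsAlgebraic k f) : hgt k f = 0 := by
  rw [hgt_finset (k := k) f ∅]
  · rfl
  · intro P hP
    exact absurd hf (P.transcendental_of_ord_ne hP)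

theorem hgt_eq_finrank [IsAlgClosed k] [CharZero k] [IsFF k K] {f : K} (hf : Transcendental k f) :
    hgt k f = Module.finrank k⟮f⟯ K := by
  classical
  obtain ⟨S, hS, hS2⟩ := poles (k := k) hf
  obtain ⟨T, hT⟩ := exists_supp (k := k) (Finset.univ : Finset (Fin 1)) ![f]
  have h1 : ∀ P : Place k K, P.ord f ≠ 0 → P ∈ T := fun P => hT 0 (Finset.mem_univ _) P
  rw [hgt_finset f T h1, ← hS2]
  have hST : S ⊆ T := fun P hP => h1 P ((hS P).1 hP).ne
  rw [← Finset.sum_subset hST (f := fun P => max (-P.ord f) 0)]
  · push_cast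
    refine Finset.sum_congr rfl fun P hP => ?_
    rw [deg_one, Nat.cast_one, mul_one]
    have := (hS P).1 hP
    omega
  · intro P _ hP
    have : ¬ P.ord f < 0 := fun h => hP ((hS P).2 h)
    omega

variable {F : Type v} [Field F] [Algebra k F] {L : Type w} [Field L] [Algebra k L] [Algebra F L]
  [IsScalarTower k F L]

theorem adjoin_algebraMap (c : F) : (k⟮c⟯).map (IsScalarTower.toAlgHom k F L) =
    k⟮algebraMap F L c⟯ := by
  rw [IntermediateField.adjoin_map, Set.image_singleton]
  rfl

theorem finrank_adjoin (c : F) :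
    Module.finrank k⟮algebraMap F L c⟯ L = Module.finrank k⟮c⟯ F * Module.finrank F L := by
  have h1 : Module.finrank k⟮c⟯ F * Module.finrank F L = Module.finrank k⟮c⟯ L :=
    Module.finrank_mul_finrank _ _ _
  rw [h1, ← adjoin_algebraMap]
  symm
  refine Algebra.finrank_eq_of_equiv_equiv
    (IntermediateField.equivMap (k⟮c⟯) (IsScalarTower.toAlgHom k F L)).toRingEquiv (RingEquiv.refl L)
    ?_
  ext x
  rfl

theorem finite_adjoin (c : F) [FiniteDimensional F L] [FiniteDimensional k⟮c⟯ F] :
    FiniteDimensional k⟮algebraMap F L c⟯ L := by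
  have h1 : FiniteDimensional k⟮c⟯ L := FiniteDimensional.trans _ F _
  rw [← adjoin_algebraMap]
  refine Module.Finite.of_equiv_equiv
    (IntermediateField.equivMap (k⟮c⟯) (IsScalarTower.toAlgHom k F L)).toRingEquiv (RingEquiv.refl L)
    ?_
  ext x
  rfl

theorem isFF_of_finite [CharZero k] [IsFF k F] [FiniteDimensional F L] : IsFF k L := by
  obtain ⟨t, ht⟩ := IsFF.exists_transcendental (k := k) (K := F)
  have h1 : FiniteDimensional k⟮t⟯ F := IsFF.finite ht
  exact IsFF.of_finite (f := algebraMap F L t)
    ((transcendental_algebraMap_iff (algebraMap F L).injective).2 ht) (finite_adjoin t)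

theorem hgt_algebraMap [IsAlgClosed k] [CharZero k] [IsFF k F] [IsFF k L] (c : F) :
    hgt k (algebraMap F L c) = Module.finrank F L * hgt k c := by
  by_cases hc : IsAlgebraic k c
  · rw [hgt_algebraic hc, hgt_algebraic (hc.algebraMap), mul_zero]
  · have hc' : Transcendental k (algebraMap F L c) :=
      (transcendental_algebraMap_iff (algebraMap F L).injective).2 hc
    rw [hgt_eq_finrank hc, hgt_eq_finrank hc', finrank_adjoin]
    push_cast; ring

/-- A lower bound for the canonical degree. -/
theorem canDeg_ge [IsAlgClosed k] [CharZero k] [IsFF k K] {t : K} (ht : Transcendental k t) :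
    - 2 * hgt k t ≤ canDeg k K := by
  classical
  obtain ⟨D0, hD0⟩ := exists_der (k := k) (K := K)
  have h0 := der_ne_zero hD0 ht
  obtain ⟨D, hDd⟩ : ∃ D : Derivation k K K, D = (D0 t)⁻¹ • D0 := ⟨_, rfl⟩
  have hDt : D t = 1 := by
    rw [hDd, Derivation.coe_smul, Pi.smul_apply, smul_eq_mul, inv_mul_cancel₀ h0]
  have hD : D ≠ 0 := by
    rintro h
    rw [h] at hDt
    simp at hDt
  obtain ⟨T0, hT0⟩ := exists_supp (k := k) (Finset.univ : Finset (Fin 1)) ![t]
  set T : Finset (Place k K) := T0 ∪ (vo_finite hD).toFinset with hT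
  have h1 : ∀ P : Place k K, P.ord t ≠ 0 → P ∈ T := fun P hP =>
    Finset.mem_union_left _ (hT0 0 (Finset.mem_univ _) P hP)
  have h2 : ∀ P : Place k K, vo P D ≠ 0 → P ∈ T := fun P hP => by simp [hT, hP]
  have h3 := canDeg_finset hD T h2
  have h4 : canDeg k K = - ∑ P ∈ T, vo P D := by rw [h3, neg_neg]
  rw [h4, hgt_finset t T h1, neg_mul, neg_le_neg_iff, Finset.mul_sum]
  refine Finset.sum_le_sum fun P _ => ?_
  by_cases hP : P.ord t < 0
  · have h5 := (ord_der P hD hP.ne).2
    rw [hDt, P.ord_one] at h5
    rw [max_eq_left (by omega)]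
    omega
  · push Not at hP
    obtain ⟨c, hc⟩ := exists_const P (Or.inr hP : Ge P 0 t)
    have h6 : t - algebraMap k K c ≠ 0 := by
      intro h
      rw [sub_eq_zero] at h
      exact ht (h ▸ isAlgebraic_algebraMap c)
    have h7 := hc.resolve_left h6
    have h8 := (ord_der P hD (f := t - algebraMap k K c) (by omega)).2
    rw [map_sub, hDt, Derivation.map_algebraMap, sub_zero, P.ord_one] at h8
    have h9 := le_max_right (-P.ord t) 0
    omega

end Pool.Agent.W603.PV
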