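import Pool.Agent.W603.PV.Few
import Pool.Agent.W603.LV.Defs

/-! Vojta's height inequality over function fields for varieties given by forms with few monomials
that are high powers. -/

set_option autoImplicit false

open FF MvPolynomial Pool.Agent.W603.LV

namespace Pool.Agent.W603.PV

universe u v w z

variable {k : Type u} [Field k] {F : Type v} [Field F] {n : ℕ}

/-- The places where the point `f` of projective space meets one of the coordinate hyperplanes
`x_j = 0`, `j ∈ U`. -/
def boundary {L : Type w} [Field L] [Algebra k L] (U : Finset (Fin (n + 1))) (f : Fin (n + 1) → L) :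
    Set (Place k L) := {P | ∃ j ∈ U, pord P f < P.ord (f j)}

theorem boundary_finite [CharZero k] {L : Type w} [Field L] [Algebra k L] [IsFF k L]
    (U : Finset (Fin (n + 1))) {f : Fin (n + 1) → L} (hf : ∃ j, f j ≠ 0) :
    (boundary (k := k) U f).Finite := by
  classical
  obtain ⟨T, hT⟩ := exists_supp (k := k) Finset.univ f
  refine (Finset.finite_toSet T).subset ?_
  rintro P ⟨j, _, hP⟩
  by_contra hcon
  have h1 : ∀ j, P.ord (f j) = 0 := by
    intro j
    by_contra h
    exact hcon (hT j (Finset.mem_univ _) P h)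
  obtain ⟨l, _, hl⟩ := exists_pord P hf
  rw [← hl, h1 j, h1 l] at hP
  exact lt_irrefl _ hP

theorem meets_subset [CharZero k] {L : Type w} [Field L] [Algebra k L] [IsFF k L] [Algebra F L]
    (U : Finset (Fin (n + 1))) {f : Fin (n + 1) → L} (hf : ∀ j, f j ≠ 0) :
    meets (k := k) (∏ j ∈ U, X j : MvPolynomial (Fin (n + 1)) F) U.card f ⊆
      boundary (k := k) U f := by
  intro P hP
  by_contra hcon
  unfold boundary at hcon
  rw [Set.mem_ofPred_eq] at hcon
  push Not at hcon
  have h1 : (U.card : ℤ) * pord P f < P.ord (aeval f (∏ j ∈ U, X j : MvPolynomial _ F)) := hP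
  have h2 : P.ord (aeval f (∏ j ∈ U, X j : MvPolynomial _ F)) = ∑ j ∈ U, P.ord (f j) := by
    rw [map_prod]
    simp only [aeval_X]
    have h3 : ∀ s : Finset (Fin (n + 1)), P.ord (∏ l ∈ s, f l) = ∑ l ∈ s, P.ord (f l) := by
      intro s
      classical
      induction s using Finset.induction_on with
      | empty => simpa using P.ord_one
      | insert a s ha ih =>
        rw [Finset.prod_insert ha, Finset.sum_insert ha, P.ord_mul (hf a)
          (Finset.prod_ne_zero_iff.2 fun l _ => hf l), ih]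
    exact h3 U
  have h3 : ∑ j ∈ U, P.ord (f j) ≤ U.card * pord P f := by
    rw [← nsmul_eq_mul, ← Finset.sum_const]
    exact Finset.sum_le_sum fun j hj => hcon j hj
  rw [h2] at h1
  exact absurd h1 (not_lt.2 h3)

variable {ι : Type z} {p : Ideal (MvPolynomial (Fin (n + 1)) F)}

theorem few_homog [IsAlgClosed k] [CharZero k] [Finite ι] (U : Finset (Fin (n + 1)))
    (Fs : ι → MvPolynomial (Fin (n + 1)) F) {e : ι → ℕ} (hF : ∀ i, (Fs i).IsHomogeneous (e i))
    (hC : ∀ i, HighPowers U (Fs i).support)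
    (hmin : p ∈ (Ideal.span (Set.range Fs)).minimalPrimes) (hX : ∀ j, X j ∉ p)
    (hst : ∀ b : Fin (n + 1) → ℤ, Stable p b → ∀ j l, b j = b l) :
    ∃ (d : ℕ) (G : MvPolynomial (Fin (n + 1)) F), G.IsHomogeneous d ∧ G ∉ p ∧
      (∀ j, X j ∣ G) ∧ ∃ (B : ℕ) (C : Finset F), ∀ (L : Type w) [Field L]
      [Algebra k L] [IsFF k L] [Algebra F L] (f : Fin (n + 1) → L),
      (∀ H ∈ p, aeval f H = 0) → aeval f G ≠ 0 →
        pht k f ≤ B * max (canDeg k L + (boundary (k := k) U f).ncard +
            ∑ c ∈ C, hgt k (algebraMap F L c)) 0 +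
          B * ∑ c ∈ C, hgt k (algebraMap F L c) := by
  have hpp : p.IsPrime := hmin.1.1
  have hp : ∀ i, Fs i ∈ p := fun i => hmin.1.2 (Ideal.subset_span ⟨i, rfl⟩)
  choose N hN0 hN hdiv using hC
  have hQp : (∏ j ∈ U, X j : MvPolynomial (Fin (n + 1)) F) ∉ p := by
    intro h
    obtain ⟨j, _, hj⟩ := (Ideal.IsPrime.prod_mem_iff (hp := hpp)).1 h
    exact hX j hj
  have hQ : (∏ j ∈ U, X j : MvPolynomial (Fin (n + 1)) F).IsHomogeneous U.card := by
    have := IsHomogeneous.prod U (fun j => (X j : MvPolynomial (Fin (n + 1)) F)) (fun _ => 1)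
      fun j _ => isHomogeneous_X _ _
    simpa using this
  obtain ⟨d, G, hGd, hG, -, B, C, h⟩ := proj_homog.{u, v, w, z} (k := k) (isHomog_of_min Fs hF hmin)
    hQ hQp (fewSystem U Fs hF N hN0 hN hdiv p hp)
    (few_rigid U Fs hF N hN0 hN hdiv hmin hp hX hst) ⟨0, hX 0⟩
  refine ⟨d + (n + 1), G * ∏ j, X j, ?_, ?_,
    fun j => (Finset.dvd_prod_of_mem _ (Finset.mem_univ j)).mul_left _, B, C, ?_⟩
  · refine hGd.mul ?_
    have := IsHomogeneous.prod Finset.univ (fun j => (X j : MvPolynomial (Fin (n + 1)) F))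
      (fun _ => 1) fun j _ => isHomogeneous_X _ _
    simpa using this
  · intro h
    rcases Ideal.IsPrime.mem_or_mem hpp h with h | h
    · exact hG h
    · obtain ⟨j, _, hj⟩ := (Ideal.IsPrime.prod_mem_iff (hp := hpp)).1 h
      exact hX j hj
  · intro L _ _ _ _ f hf hfG
    rw [map_mul, map_prod] at hfG
    simp only [aeval_X] at hfG
    have hf0 : ∀ j, f j ≠ 0 := fun j =>
      Finset.prod_ne_zero_iff.1 (right_ne_zero_of_mul hfG) j (Finset.mem_univ j)
    refine (h L f hf (left_ne_zero_of_mul hfG)).trans ?_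
    have h1 : ((meets (k := k) (∏ j ∈ U, X j : MvPolynomial (Fin (n + 1)) F) U.card f).ncard : ℤ) ≤
        (boundary (k := k) U f).ncard := by
      exact_mod_cast Set.ncard_le_ncard (meets_subset U hf0) (boundary_finite U ⟨0, hf0 0⟩)
    have h2 := max_le_max_right 0 (add_le_add_left (add_le_add_right h1 (canDeg k L))
      (∑ c ∈ C, hgt k (algebraMap F L c)))
    have h3 := mul_le_mul_of_nonneg_left h2 (by positivity : (0 : ℤ) ≤ B)
    linarith

variable [Algebra k F]

/-- Vojta's height inequality over function fields. -/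
theorem few_vojta [IsAlgClosed k] [CharZero k] [IsFF k F] [Finite ι] (U : Finset (Fin (n + 1)))
    (Fs : ι → MvPolynomial (Fin (n + 1)) F) {e : ι → ℕ} (hF : ∀ i, (Fs i).IsHomogeneous (e i))
    (hC : ∀ i, HighPowers U (Fs i).support)
    (hmin : p ∈ (Ideal.span (Set.range Fs)).minimalPrimes) (hX : ∀ j, X j ∉ p)
    (hst : ∀ b : Fin (n + 1) → ℤ, Stable p b → ∀ j l, b j = b l) :
    ∃ (d : ℕ) (G : MvPolynomial (Fin (n + 1)) F), G.IsHomogeneous d ∧ G ∉ p ∧
      (∀ j, X j ∣ G) ∧ ∃ (B C : ℕ), ∀ (L : Type w) [Field L] [Algebra k L] [Algebra F L] [IsScalarTower k F L]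
      [FiniteDimensional F L] (f : Fin (n + 1) → L),
      (∀ H ∈ p, aeval f H = 0) → aeval f G ≠ 0 →
        pht k f ≤ B * (canDeg k L + (boundary (k := k) U f).ncard) + C * Module.finrank F L := by
  have hpp : p.IsPrime := hmin.1.1
  have hp : ∀ i, Fs i ∈ p := fun i => hmin.1.2 (Ideal.subset_span ⟨i, rfl⟩)
  choose N hN0 hN hdiv using hC
  have hQp : (∏ j ∈ U, X j : MvPolynomial (Fin (n + 1)) F) ∉ p := by
    intro h
    obtain ⟨j, _, hj⟩ := (Ideal.IsPrime.prod_mem_iff (hp := hpp)).1 h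
    exact hX j hj
  have hQ : (∏ j ∈ U, X j : MvPolynomial (Fin (n + 1)) F).IsHomogeneous U.card := by
    have := IsHomogeneous.prod U (fun j => (X j : MvPolynomial (Fin (n + 1)) F)) (fun _ => 1)
      fun j _ => isHomogeneous_X _ _
    simpa using this
  obtain ⟨d, G, hGd, hG, -, B, C, h⟩ := vojta.{u, v, w, z} (k := k) (isHomog_of_min Fs hF hmin)
    hQ hQp (fewSystem U Fs hF N hN0 hN hdiv p hp)
    (few_rigid U Fs hF N hN0 hN hdiv hmin hp hX hst) ⟨0, hX 0⟩
  refine ⟨d + (n + 1), G * ∏ j, X j, ?_, ?_,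
    fun j => (Finset.dvd_prod_of_mem _ (Finset.mem_univ j)).mul_left _, B, C, ?_⟩
  · refine hGd.mul ?_
    have := IsHomogeneous.prod Finset.univ (fun j => (X j : MvPolynomial (Fin (n + 1)) F))
      (fun _ => 1) fun j _ => isHomogeneous_X _ _
    simpa using this
  · intro h
    rcases Ideal.IsPrime.mem_or_mem hpp h with h | h
    · exact hG h
    · obtain ⟨j, _, hj⟩ := (Ideal.IsPrime.prod_mem_iff (hp := hpp)).1 h
      exact hX j hj
  · intro L _ _ _ _ _ f hf hfG
    have hL : IsFF k L := isFF_of_finite (F := F)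
    rw [map_mul, map_prod] at hfG
    simp only [aeval_X] at hfG
    have hf0 : ∀ j, f j ≠ 0 := fun j =>
      Finset.prod_ne_zero_iff.1 (right_ne_zero_of_mul hfG) j (Finset.mem_univ j)
    refine (h L f hf (left_ne_zero_of_mul hfG)).trans ?_
    have h1 : ((meets (k := k) (∏ j ∈ U, X j : MvPolynomial (Fin (n + 1)) F) U.card f).ncard : ℤ) ≤
        (boundary (k := k) U f).ncard := by
      exact_mod_cast Set.ncard_le_ncard (meets_subset U hf0) (boundary_finite U ⟨0, hf0 0⟩)
    have h3 := mul_le_mul_of_nonneg_left h1 (by positivity : (0 : ℤ) ≤ B)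
    linarith

end Pool.Agent.W603.PV
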