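import Pool.Agent.W603.PV.Lines

/-! Height bounds for varieties given by sums of few powers of linear forms. -/

set_option autoImplicit false

open FF MvPolynomial Pool.Agent.W603.LV

namespace Pool.Agent.W603.PV

universe u v w z

variable {F : Type v} [Field F] {n : ℕ}

/-- `H` is the sum of `s` terms `c ℓ ^ N` with `c ≠ 0` in `F` and `ℓ` a linear form over `F`. -/
def IsPowSum (H : MvPolynomial (Fin (n + 1)) F) (s N : ℕ) : Prop :=
  ∃ (c : Fin s → F) (l : Fin s → Fin (n + 1) → F), (∀ a, c a ≠ 0) ∧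
    H = ∑ a, C (c a) * lin (l a) ^ N

section systems

variable {I : Type z} {s N : I → ℕ} (c : (i : I) → Fin (s i) → F)
  (l : (i : I) → Fin (s i) → Fin (n + 1) → F) (hc : ∀ i a, c i a ≠ 0) (hN0 : ∀ i, 0 < N i)
  (hN : ∀ i, (s i - 1) ^ 2 ≤ N i) (p : Ideal (MvPolynomial (Fin (n + 1)) F))
  (hp : ∀ i, ∑ a, C (c i a) * lin (l i a) ^ N i ∈ p)

theorem C_mul_inv {c : F} (hc : c ≠ 0) :
    (C c * C c⁻¹ : MvPolynomial (Fin (n + 1)) F) = 1 := by
  rw [← C_mul, mul_inv_cancel₀ hc, C_1]

/-- the system of the powers, without boundary -/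
noncomputable def warSys : EqSys p (1 : MvPolynomial (Fin (n + 1)) F) 0 s where
  N := N
  ψ i a := C (c i a)
  φ i a := lin (l i a)
  d := N
  dψ _ _ := 0
  dφ _ _ := 1
  pos := hN0
  large := hN
  homψ i a := isHomogeneous_C _ _
  homφ i a := lin_homogeneous _
  deg i a := by simp
  unit i a := ⟨C (c i a)⁻¹, 0, 0, isHomogeneous_C _ _, by simp, by
    rw [C_mul_inv (hc i a), pow_zero, sub_self]; exact zero_mem _⟩
  rel := hp

variable {r q : ℕ} (c' : Fin r → F) (l' : Fin r → Fin (n + 1) → F) (hc' : ∀ a, c' a ≠ 0)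
  (hq0 : 0 < q) (hq : r ^ 2 ≤ q)

/-- the number of terms -/
def warS (s : I → ℕ) (r : ℕ) : Option I → ℕ
  | none => r + 1
  | some i => s i

/-- the system of the powers, with boundary -/
noncomputable def warSysQ (hQ : (∑ a, C (c' a) * lin (l' a) ^ q).IsHomogeneous q) :
    EqSys p (∑ a, C (c' a) * lin (l' a) ^ q) q (warS s r) where
  N := fun i => match i with
    | none => q
    | some i => N i
  ψ := fun i => match i with
    | none => fun a : Fin (r + 1) => Fin.snoc (α := fun _ => MvPolynomial (Fin (n + 1)) F)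
        (fun a => C (c' a)) (- ∑ a, C (c' a) * lin (l' a) ^ q) a
    | some i => fun a : Fin (s i) => C (c i a)
  φ := fun i => match i with
    | none => fun a : Fin (r + 1) => Fin.snoc (α := fun _ => MvPolynomial (Fin (n + 1)) F)
        (fun a => lin (l' a)) 1 a
    | some i => fun a : Fin (s i) => lin (l i a)
  d := fun i => match i with
    | none => q
    | some i => N i
  dψ := fun i => match i with
    | none => fun a : Fin (r + 1) => Fin.snoc (α := fun _ => ℕ) (fun _ => 0) q a
    | some i => fun a : Fin (s i) => 0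
  dφ := fun i => match i with
    | none => fun a : Fin (r + 1) => Fin.snoc (α := fun _ => ℕ) (fun _ => 1) 0 a
    | some i => fun a : Fin (s i) => 1
  pos i := by
    cases i with
    | none => exact hq0
    | some i => exact hN0 i
  large i := by
    cases i with
    | none => simpa [warS] using hq
    | some i => exact hN i
  homψ i := by
    cases i with
    | none =>
      intro a
      change Fin (r + 1) at a
      refine Fin.lastCases ?_ (fun a => ?_) a
      · simp only [Fin.snoc_last]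
        exact hQ.neg
      · simp only [Fin.snoc_castSucc]
        exact isHomogeneous_C _ _
    | some i => intro a; exact isHomogeneous_C _ _
  homφ i := by
    cases i with
    | none =>
      intro a
      change Fin (r + 1) at a
      refine Fin.lastCases ?_ (fun a => ?_) a
      · simp only [Fin.snoc_last]
        exact isHomogeneous_one _ _
      · simp only [Fin.snoc_castSucc]
        exact lin_homogeneous _
    | some i => intro a; exact lin_homogeneous _
  deg i := by
    cases i with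
    | none =>
      intro a
      change Fin (r + 1) at a
      refine Fin.lastCases ?_ (fun a => ?_) a
      · simp only [Fin.snoc_last]; simp
      · simp only [Fin.snoc_castSucc]; simp
    | some i => intro a; simp
  unit i := by
    cases i with
    | none =>
      intro a
      change Fin (r + 1) at a
      refine Fin.lastCases ?_ (fun a => ?_) a
      · simp only [Fin.snoc_last]
        refine ⟨-1, 0, 1, (isHomogeneous_one _ _).neg, by simp, ?_⟩
        have : (-∑ a, C (c' a) * lin (l' a) ^ q) * -1 - (∑ a, C (c' a) * lin (l' a) ^ q) ^ 1 =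
          (0 : MvPolynomial (Fin (n + 1)) F) := by ring
        rw [this]
        exact zero_mem _
      · simp only [Fin.snoc_castSucc]
        exact ⟨C (c' a)⁻¹, 0, 0, isHomogeneous_C _ _, by simp, by
          rw [C_mul_inv (hc' a), pow_zero, sub_self]; exact zero_mem _⟩
    | some i =>
      intro a
      exact ⟨C (c i a)⁻¹, 0, 0, isHomogeneous_C _ _, by simp, by
        rw [C_mul_inv (hc i a), pow_zero, sub_self]; exact zero_mem _⟩
  rel i := by
    cases i with
    | none =>
      have h1 : ∑ a : Fin (r + 1), Fin.snoc (α := fun _ => MvPolynomial (Fin (n + 1)) F)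
          (fun a => C (c' a)) (- ∑ a, C (c' a) * lin (l' a) ^ q) a *
          Fin.snoc (α := fun _ => MvPolynomial (Fin (n + 1)) F) (fun a => lin (l' a)) 1 a ^ q =
          0 := by
        rw [Fin.sum_univ_castSucc]
        simp only [Fin.snoc_last, Fin.snoc_castSucc, one_pow, mul_one]
        ring
      change (∑ a : Fin (r + 1), Fin.snoc (α := fun _ => MvPolynomial (Fin (n + 1)) F)
          (fun a => C (c' a)) (- ∑ a, C (c' a) * lin (l' a) ^ q) a *
          Fin.snoc (α := fun _ => MvPolynomial (Fin (n + 1)) F) (fun a => lin (l' a)) 1 a ^ q) ∈ p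
      rw [h1]
      exact zero_mem _
    | some i => exact hp i

end systems

section rigid

variable {p : Ideal (MvPolynomial (Fin (n + 1)) F)} [p.IsPrime] [CharZero F]

open Classical in
/-- An equation along the flow. -/
theorem along_eq (D : Derivation F (FractionRing (MvPolynomial (Fin (n + 1)) F ⧸ p))
    (FractionRing (MvPolynomial (Fin (n + 1)) F ⧸ p))) {s N : ℕ} (hN : 0 < N) (c : Fin s → F)
    (l : Fin s → Fin (n + 1) → F) (R : Fin s → Fin s → Prop) (hR : Equivalence R)
    (hsum : ∀ a, ∑ b ∈ Finset.univ.filter (R a), aeval (xi p) (C (c b) * lin (l b) ^ N) = 0)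
    (hD : ∀ a b, R a b → D (aeval (xi p) (C (c a) * lin (l a) ^ N) /
      aeval (xi p) (C (c b) * lin (l b) ^ N)) = 0) :
    along p (fun j => D (xi p j)) (∑ a, C (c a) * lin (l a) ^ N) = 0 := by
  rw [map_sum, Finset.sum_congr rfl fun a _ => along_pow D (c a) (l a) hN]
  exact flow_sum D _ R hR hsum hD N

theorem warSys_rigid {I : Type z} {s N : I → ℕ} (c : (i : I) → Fin (s i) → F)
    (l : (i : I) → Fin (s i) → Fin (n + 1) → F) (hc : ∀ i a, c i a ≠ 0) (hN0 : ∀ i, 0 < N i)
    (hN : ∀ i, (s i - 1) ^ 2 ≤ N i) (hp : ∀ i, ∑ a, C (c i a) * lin (l i a) ^ N i ∈ p)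
    (hmin : p ∈ (Ideal.span (Set.range fun i => ∑ a, C (c i a) * lin (l i a) ^ N i)).minimalPrimes)
    (hline : ¬ HasLine p 1 0) : (warSys c l hc hN0 hN p hp).Rigid := by
  classical
  by_contra hE
  obtain ⟨D, R, hR, hsum, hD, hjl⟩ := exists_flow _ hE
  apply hline
  refine ⟨fun j => D (xi p j), hjl, ?_, 0, ?_⟩
  · refine along_ker _ hmin _ fun i => ?_
    refine along_eq D (hN0 i) (c i) (l i) (R i) (hR i) ?_ ?_
    · intro a
      rw [← hsum i a]
      refine Finset.sum_congr (Finset.ext fun x => Iff.trans Finset.mem_filter Finset.mem_filter.symm) fun b _ => ?_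
      rw [aeval_xi]; rfl
    · intro a b hab
      have := hD i a b hab
      rw [aeval_xi, aeval_xi]; exact this
  · simp

theorem warSysQ_rigid {I : Type z} {s N : I → ℕ} (c : (i : I) → Fin (s i) → F)
    (l : (i : I) → Fin (s i) → Fin (n + 1) → F) (hc : ∀ i a, c i a ≠ 0) (hN0 : ∀ i, 0 < N i)
    (hN : ∀ i, (s i - 1) ^ 2 ≤ N i) (hp : ∀ i, ∑ a, C (c i a) * lin (l i a) ^ N i ∈ p)
    (hmin : p ∈ (Ideal.span (Set.range fun i => ∑ a, C (c i a) * lin (l i a) ^ N i)).minimalPrimes)
    {r q : ℕ} (c' : Fin r → F) (l' : Fin r → Fin (n + 1) → F) (hc' : ∀ a, c' a ≠ 0)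
    (hq0 : 0 < q) (hq : r ^ 2 ≤ q) (hQ : (∑ a, C (c' a) * lin (l' a) ^ q).IsHomogeneous q)
    (hQp : ∑ a, C (c' a) * lin (l' a) ^ q ∉ p)
    (hline : ¬ HasLine p (∑ a, C (c' a) * lin (l' a) ^ q) q) :
    (warSysQ c l hc hN0 hN p hp c' l' hc' hq0 hq hQ).Rigid := by
  classical
  by_contra hE
  obtain ⟨D, R, hR, hsum, hD, hjl⟩ := exists_flow _ hE
  apply hline
  refine ⟨fun j => D (xi p j), hjl, ?_, ?_⟩
  · refine along_ker _ hmin _ fun i => ?_
    refine along_eq D (hN0 i) (c i) (l i) (R (some i)) (hR (some i)) ?_ ?_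
    · intro a
      rw [← hsum (some i) a]
      refine Finset.sum_congr (Finset.ext fun x => Iff.trans Finset.mem_filter Finset.mem_filter.symm) fun b _ => ?_
      rw [aeval_xi]; rfl
    · intro a b hab
      have := hD (some i) a b hab
      rw [aeval_xi, aeval_xi]; exact this
  · set Q : MvPolynomial (Fin (n + 1)) F := ∑ a, C (c' a) * lin (l' a) ^ q with hQd
    let τ : Fin (r + 1) → FractionRing (MvPolynomial (Fin (n + 1)) F ⧸ p) :=
      Fin.snoc (α := fun _ => FractionRing (MvPolynomial (Fin (n + 1)) F ⧸ p))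
        (fun a => aeval (xi p) (C (c' a) * lin (l' a) ^ q)) (- aeval (xi p) Q)
    have hterm : ∀ a : Fin (r + 1), algebraMap _
        (FractionRing (MvPolynomial (Fin (n + 1)) F ⧸ p))
          ((warSysQ c l hc hN0 hN p hp c' l' hc' hq0 hq hQ).term none a) = τ a := by
      intro a
      change algebraMap _ (FractionRing (MvPolynomial (Fin (n + 1)) F ⧸ p))
        (Ideal.Quotient.mk p (Fin.snoc (α := fun _ => MvPolynomial (Fin (n + 1)) F)
          (fun a => C (c' a)) (- ∑ a, C (c' a) * lin (l' a) ^ q) a *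
          Fin.snoc (α := fun _ => MvPolynomial (Fin (n + 1)) F) (fun a => lin (l' a)) 1 a ^ q)) =
          Fin.snoc (α := fun _ => FractionRing (MvPolynomial (Fin (n + 1)) F ⧸ p))
          (fun a => aeval (xi p) (C (c' a) * lin (l' a) ^ q)) (- aeval (xi p) Q) a
      rw [← aeval_xi]
      refine Fin.lastCases ?_ (fun a => ?_) a
      · simp only [Fin.snoc_last, one_pow, mul_one, map_neg, hQd]
      · simp only [Fin.snoc_castSucc]
    have h1 := flow_sum D τ (R none) (hR none) (by
      intro a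
      rw [← hsum none a]
      refine Finset.sum_congr (Finset.ext fun x => Iff.trans Finset.mem_filter Finset.mem_filter.symm) fun b _ => ?_
      exact (hterm b).symm) (by
      intro a b hab
      rw [← hterm a, ← hterm b]
      exact hD none a b hab) q
    rw [Fin.sum_univ_castSucc] at h1
    simp only [τ, Fin.snoc_last, Fin.snoc_castSucc] at h1
    rw [Finset.sum_congr rfl fun a _ => (along_pow D (c' a) (l' a) hq0).symm, ← map_sum, ← hQd,
      map_neg, neg_mul, ← sub_eq_add_neg, sub_eq_zero] at h1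
    exact ⟨_, h1⟩

end rigid

/-- The boundary: it is empty, or given by a form which is the sum of few powers. -/
def SmallBoundary (Q : MvPolynomial (Fin (n + 1)) F) (q : ℕ) : Prop :=
  (q = 0 ∧ Q = 1) ∨ ∃ r : ℕ, 0 < q ∧ r ^ 2 ≤ q ∧ IsPowSum Q r q

theorem IsPowSum.isHomogeneous {H : MvPolynomial (Fin (n + 1)) F} {s N : ℕ}
    (h : IsPowSum H s N) : H.IsHomogeneous N := by
  obtain ⟨c, l, -, rfl⟩ := h
  refine IsHomogeneous.sum _ _ _ fun a _ => ?_
  have := (isHomogeneous_C (Fin (n + 1)) (c a)).mul ((lin_homogeneous (l a)).pow N)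
  simpa using this

variable {p : Ideal (MvPolynomial (Fin (n + 1)) F)} {Q : MvPolynomial (Fin (n + 1)) F} {q : ℕ}

theorem SmallBoundary.isHomogeneous (hQ : SmallBoundary Q q) : Q.IsHomogeneous q := by
  rcases hQ with ⟨rfl, rfl⟩ | ⟨r, -, -, h⟩
  · exact isHomogeneous_one _ _
  · exact h.isHomogeneous

/-- Sums of few powers give a rigid system unless there is a line. -/
theorem exists_war [p.IsPrime] [CharZero F] {I : Type z} (Fs : I → MvPolynomial (Fin (n + 1)) F)
    (hF : ∀ i, ∃ s N : ℕ, 0 < N ∧ (s - 1) ^ 2 ≤ N ∧ IsPowSum (Fs i) s N)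
    (hmin : p ∈ (Ideal.span (Set.range Fs)).minimalPrimes) (hQ : SmallBoundary Q q)
    (hQp : Q ∉ p) (hline : ¬ HasLine p Q q) :
    ∃ (J : Type z) (_ : Finite I → Finite J) (s : J → ℕ) (E : EqSys p Q q s), E.Rigid := by
  choose s N hN0 hN c l hc hFs using hF
  have hFs' : Fs = fun i => ∑ a, C (c i a) * lin (l i a) ^ N i := funext hFs
  have hp : ∀ i, ∑ a, C (c i a) * lin (l i a) ^ N i ∈ p := by
    intro i
    rw [← hFs i]
    exact hmin.1.2 (Ideal.subset_span ⟨i, rfl⟩)
  rw [hFs'] at hmin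
  rcases hQ with ⟨rfl, rfl⟩ | ⟨r, hq0, hq, hQ⟩
  · exact ⟨I, fun h => h, s, _, warSys_rigid c l hc hN0 hN hp hmin hline⟩
  · have hhom := hQ.isHomogeneous
    obtain ⟨c', l', hc', rfl⟩ := hQ
    exact ⟨Option I, fun h => inferInstance, _, _,
      warSysQ_rigid c l hc hN0 hN hp hmin c' l' hc' hq0 hq hhom hQp hline⟩

variable {k : Type u} [Field k]

theorem isHomog_war {I : Type z} {Fs : I → MvPolynomial (Fin (n + 1)) F}
    (hF : ∀ i, ∃ s N : ℕ, 0 < N ∧ (s - 1) ^ 2 ≤ N ∧ IsPowSum (Fs i) s N)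
    (hmin : p ∈ (Ideal.span (Set.range Fs)).minimalPrimes) : IsHomog p := by
  choose s N hN0 hN hps using hF
  exact isHomog_of_min Fs (fun i => (hps i).isHomogeneous) hmin

theorem war_homog [IsAlgClosed k] [CharZero k] [CharZero F] {I : Type z} [Finite I]
    (Fs : I → MvPolynomial (Fin (n + 1)) F)
    (hF : ∀ i, ∃ s N : ℕ, 0 < N ∧ (s - 1) ^ 2 ≤ N ∧ IsPowSum (Fs i) s N)
    [p.IsPrime] (hmin : p ∈ (Ideal.span (Set.range Fs)).minimalPrimes) (hx : ∃ j, X j ∉ p)
    (hQ : SmallBoundary Q q) (hQp : Q ∉ p) (hline : ¬ HasLine p Q q) :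
    ∃ (d : ℕ) (G : MvPolynomial (Fin (n + 1)) F), G.IsHomogeneous d ∧ G ∉ p ∧ Q ∣ G ∧
      ∃ (B : ℕ) (C : Finset F), ∀ (L : Type w) [Field L]
      [Algebra k L] [IsFF k L] [Algebra F L] (f : Fin (n + 1) → L),
      (∀ H ∈ p, aeval f H = 0) → aeval f G ≠ 0 →
        pht k f ≤ B * max (canDeg k L + (meets (k := k) Q q f).ncard +
            ∑ c ∈ C, hgt k (algebraMap F L c)) 0 +
          B * ∑ c ∈ C, hgt k (algebraMap F L c) := by
  obtain ⟨J, hJ, s, E, hE⟩ := exists_war Fs hF hmin hQ hQp hline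
  have := hJ inferInstance
  exact proj_homog.{u, v, w, z} (isHomog_war hF hmin) hQ.isHomogeneous hQp E hE hx

theorem war_vojta [Algebra k F] [IsAlgClosed k] [CharZero k] [IsFF k F] {I : Type z} [Finite I]
    (Fs : I → MvPolynomial (Fin (n + 1)) F)
    (hF : ∀ i, ∃ s N : ℕ, 0 < N ∧ (s - 1) ^ 2 ≤ N ∧ IsPowSum (Fs i) s N)
    [p.IsPrime] (hmin : p ∈ (Ideal.span (Set.range Fs)).minimalPrimes) (hx : ∃ j, X j ∉ p)
    (hQ : SmallBoundary Q q) (hQp : Q ∉ p) (hline : ¬ HasLine p Q q) :
    ∃ (d : ℕ) (G : MvPolynomial (Fin (n + 1)) F), G.IsHomogeneous d ∧ G ∉ p ∧ Q ∣ G ∧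
      ∃ (B C : ℕ), ∀ (L : Type w) [Field L] [Algebra k L] [Algebra F L] [IsScalarTower k F L]
      [FiniteDimensional F L] (f : Fin (n + 1) → L),
      (∀ H ∈ p, aeval f H = 0) → aeval f G ≠ 0 →
        pht k f ≤ B * (canDeg k L + (meets (k := k) Q q f).ncard) + C * Module.finrank F L := by
  have : CharZero F := charZero_of_injective_algebraMap (algebraMap k F).injective
  obtain ⟨J, hJ, s, E, hE⟩ := exists_war Fs hF hmin hQ hQp hline
  have := hJ inferInstance
  exact vojta.{u, v, w, z} (isHomog_war hF hmin) hQ.isHomogeneous hQp E hE hx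

end Pool.Agent.W603.PV
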