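import Pool.Agent.W603.PV.Disc
import Pool.Agent.W603.PV.War
import Pool.Agent.W603.PV.FewMain

/-! Height inequalities with the truncated counting function away from `S` and the discriminant. -/

set_option autoImplicit false

open FF MvPolynomial Pool.Agent.W603.LV

namespace Pool.Agent.W603.PV

universe u v w z

variable {k : Type u} [Field k] {F : Type v} [Field F] [Algebra k F] {n : ℕ}

/-- The place `P` of the extension `L` of `F` lies over the place `v` of `F`. -/
def Over {L : Type w} [Field L] [Algebra k L] [Algebra F L] (P : Place k L) (v : Place k F) :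
    Prop := ∀ x : F, 0 < v.ord x → 0 < P.ord (algebraMap F L x)

/-- The places of `L` not over `S` where the point `f` meets the divisor given by the form `Q` of
degree `q`; the truncated counting function is their number. -/
def trunc {L : Type w} [Field L] [Algebra k L] [Algebra F L] (S : Finset (Place k F))
    (Q : MvPolynomial (Fin (n + 1)) F) (q : ℕ) (f : Fin (n + 1) → L) : Set (Place k L) :=
  {P | (∀ v ∈ S, ¬ Over P v) ∧ q * pord P f < P.ord (aeval f Q)}

theorem over_card [IsAlgClosed k] [CharZero k] [IsFF k F] (S : Finset (Place k F)) :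
    ∃ C : ℕ, ∀ (L : Type w) [Field L] [Algebra k L] [Algebra F L] [IsScalarTower k F L]
      [FiniteDimensional F L], {P : Place k L | ∃ v ∈ S, Over P v}.Finite ∧
      (({P : Place k L | ∃ v ∈ S, Over P v}.ncard : ℕ) : ℤ) ≤ C * Module.finrank F L := by
  classical
  refine ⟨(∑ v ∈ S, hgt k (unif v)).toNat, ?_⟩
  intro L _ _ _ _ _
  have hL : IsFF k L := isFF_of_finite (F := F)
  have hover : ∀ (P : Place k L) (v : Place k F), Over P v → under F P = v := by
    intro P v h
    -- the positive elements
    have h1 : ∀ x : F, 0 < v.ord x → 0 < (under F P).ord x := by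
      intro x hx
      have h2 := h x hx
      rw [ord_under] at h2
      have h3 := (ram_spec (F := F) P).1
      exact pos_of_mul_pos_right h2 (by positivity)
    have hπ := ord_unif v
    set π := unif v with hπd
    have hπ0 : π ≠ 0 := by
      intro h
      rw [h, v.ord_zero] at hπ
      exact zero_ne_one hπ
    have h2 := h1 π (by omega)
    -- no negative order on units
    have h3 : ∀ x : F, x ≠ 0 → v.ord x = 0 → 0 ≤ (under F P).ord x := by
      intro x hx0 hx
      by_contra hcon
      push Not at hcon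
      have h4 := h1 (x ^ ((under F P).ord π).toNat * π) (by
        rw [v.ord_mul (pow_ne_zero _ hx0) hπ0, v.ord_pow, hx, hπ]; simp)
      rw [(under F P).ord_mul (pow_ne_zero _ hx0) hπ0, (under F P).ord_pow,
        Int.toNat_of_nonneg h2.le] at h4
      nlinarith
    have h4 : ∀ x : F, x ≠ 0 → v.ord x = 0 → (under F P).ord x = 0 := by
      intro x hx0 hx
      have h5 := h3 x hx0 hx
      have h6 := h3 x⁻¹ (inv_ne_zero hx0) (by rw [v.ord_inv, hx, neg_zero])
      rw [(under F P).ord_inv] at h6
      omega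
    have h5 : ∀ x : F, x ≠ 0 → (under F P).ord x = v.ord x * (under F P).ord π := by
      intro x hx0
      have h6 := h4 (x * π ^ (-v.ord x)) (mul_ne_zero hx0 (zpow_ne_zero _ hπ0)) (by
        rw [v.ord_mul hx0 (zpow_ne_zero _ hπ0), v.ord_zpow, hπ]; ring)
      rw [(under F P).ord_mul hx0 (zpow_ne_zero _ hπ0), (under F P).ord_zpow] at h6
      linarith
    have h6 : (under F P).ord π = 1 := by
      obtain ⟨y, hy0, hy⟩ := (under F P).surj
      rw [h5 y hy0] at hy
      have h7 := Int.isUnit_iff.1 (IsUnit.of_mul_eq_one (v.ord y) (by rw [mul_comm]; exact hy) :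
        IsUnit ((under F P).ord π))
      omega
    ext x
    by_cases hx0 : x = 0
    · rw [hx0, (under F P).ord_zero, v.ord_zero]
    · rw [h5 x hx0, h6, mul_one]
  have hsub : {P : Place k L | ∃ v ∈ S, Over P v} ⊆ {P : Place k L | under F P ∈ S} := by
    rintro P ⟨v, hv, h⟩
    rw [Set.mem_ofPred_eq, hover P v h]
    exact hv
  have hfin : {P : Place k L | under F P ∈ S}.Finite := finite_over_set (Finset.finite_toSet S)
  refine ⟨hfin.subset hsub, ?_⟩
  rw [Int.toNat_of_nonneg (Finset.sum_nonneg fun _ _ => hgt_nonneg _)]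
  have h1 := card_over_le (L := L) S
  have h2 : {P : Place k L | ∃ v ∈ S, Over P v}.ncard ≤ {P : Place k L | under F P ∈ S}.ncard :=
    Set.ncard_le_ncard hsub hfin
  have h3 : (({P : Place k L | ∃ v ∈ S, Over P v}.ncard : ℕ) : ℤ) ≤
      ({P : Place k L | under F P ∈ S}.ncard : ℕ) := by exact_mod_cast h2
  linarith

theorem disc_self [IsAlgClosed k] [CharZero k] [IsFF k F] : disc k F F = 0 := by
  unfold disc
  have h : ∀ P : Place k F, (ram F P : ℤ) - 1 = 0 := by
    intro P
    have h1 := (ram_spec (F := F) P).1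
    obtain ⟨y, hy0, hy⟩ := P.surj
    have h2 := ram_le (F := F) P (x := y) (by
      change 0 < P.ord y
      omega)
    have h3 : P.ord (algebraMap F F y) = 1 := hy
    omega
  simp [h]

/-- From the canonical degree and all places to the discriminant and the places away from `S`. -/
theorem to_trunc [IsAlgClosed k] [CharZero k] [IsFF k F] {p : Ideal (MvPolynomial (Fin (n + 1)) F)}
    {Q G : MvPolynomial (Fin (n + 1)) F} {q : ℕ} {B C : ℕ} (hx : ∃ j, X j ∣ G)
    (h : ∀ (L : Type v) [Field L] [Algebra k L] [Algebra F L] [IsScalarTower k F L]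
      [FiniteDimensional F L] (f : Fin (n + 1) → L),
      (∀ H ∈ p, aeval f H = 0) → aeval f G ≠ 0 →
        pht k f ≤ B * (canDeg k L + (meets (k := k) Q q f).ncard) + C * Module.finrank F L)
    (S : Finset (Place k F)) : ∃ C : ℕ,
      (∀ (L : Type v) [Field L] [Algebra k L] [Algebra F L] [IsScalarTower k F L]
      [FiniteDimensional F L] (f : Fin (n + 1) → L),
      (∀ H ∈ p, aeval f H = 0) → aeval f G ≠ 0 →
        pht k f ≤ B * (disc k F L + (trunc S Q q f).ncard) + C * Module.finrank F L) ∧
      ∀ f : Fin (n + 1) → F, (∀ H ∈ p, aeval f H = 0) → aeval f G ≠ 0 →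
        pht k f ≤ B * (trunc S Q q f).ncard + C := by
  obtain ⟨C1, hC1⟩ := canDeg_le_disc.{u, v, v} (k := k) (F := F)
  obtain ⟨C2, hC2⟩ := over_card.{u, v, v} (k := k) S
  have main : ∀ (L : Type v) [Field L] [Algebra k L] [Algebra F L] [IsScalarTower k F L]
      [FiniteDimensional F L] (f : Fin (n + 1) → L),
      (∀ H ∈ p, aeval f H = 0) → aeval f G ≠ 0 →
        pht k f ≤ B * (disc k F L + (trunc S Q q f).ncard) +
          ((C + B * (C1 + C2) : ℕ) : ℤ) * Module.finrank F L := by
    intro L _ _ _ _ _ f hf hfG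
    have hL : IsFF k L := isFF_of_finite (F := F)
    have h1 := h L f hf hfG
    have h2 := hC1 L
    obtain ⟨hfin, h3⟩ := hC2 L
    obtain ⟨j, G', rfl⟩ := hx
    rw [map_mul, aeval_X] at hfG
    have hfj : f j ≠ 0 := left_ne_zero_of_mul hfG
    have hmf : (meets (k := k) Q q f).Finite := meets_finite Q q ⟨j, hfj⟩
    have h4 : meets (k := k) Q q f ⊆ trunc S Q q f ∪ {P : Place k L | ∃ v ∈ S, Over P v} := by
      intro P hP
      by_cases hPS : ∃ v ∈ S, Over P v
      · exact Or.inr hPS
      · push Not at hPS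
        exact Or.inl ⟨hPS, hP⟩
    have htf : (trunc S Q q f).Finite := hmf.subset fun P hP => hP.2
    have h5 : (meets (k := k) Q q f).ncard ≤ (trunc S Q q f).ncard +
        {P : Place k L | ∃ v ∈ S, Over P v}.ncard :=
      (Set.ncard_le_ncard h4 (htf.union hfin)).trans (Set.ncard_union_le _ _)
    have h6 : ((meets (k := k) Q q f).ncard : ℤ) ≤ (trunc S Q q f).ncard +
        {P : Place k L | ∃ v ∈ S, Over P v}.ncard := by exact_mod_cast h5
    have h7 : canDeg k L + (meets (k := k) Q q f).ncard ≤
        (disc k F L + (trunc S Q q f).ncard) + (C1 + C2) * Module.finrank F L := by linarith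
    have h8 := mul_le_mul_of_nonneg_left h7 (by positivity : (0 : ℤ) ≤ B)
    push_cast
    linarith
  refine ⟨C + B * (C1 + C2), main, fun f hf hfG => ?_⟩
  have h1 := main F f hf hfG
  rw [disc_self, zero_add, Module.finrank_self, Nat.cast_one, mul_one] at h1
  exact h1

/-- The final form: with an arbitrary exceptional form. -/
theorem to_trunc' [IsAlgClosed k] [CharZero k] [IsFF k F] {p : Ideal (MvPolynomial (Fin (n + 1)) F)}
    [p.IsPrime] {Q : MvPolynomial (Fin (n + 1)) F} {q : ℕ} (hx : ∃ j, X j ∉ p)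
    (h : ∃ (d : ℕ) (G : MvPolynomial (Fin (n + 1)) F), G.IsHomogeneous d ∧ G ∉ p ∧ Q ∣ G ∧
      ∃ (B C : ℕ), ∀ (L : Type v) [Field L] [Algebra k L] [Algebra F L] [IsScalarTower k F L]
      [FiniteDimensional F L] (f : Fin (n + 1) → L),
      (∀ H ∈ p, aeval f H = 0) → aeval f G ≠ 0 →
        pht k f ≤ B * (canDeg k L + (meets (k := k) Q q f).ncard) + C * Module.finrank F L) :
    ∃ (d : ℕ) (G : MvPolynomial (Fin (n + 1)) F), G.IsHomogeneous d ∧ G ∉ p ∧ Q ∣ G ∧
      ∃ B : ℕ, ∀ S : Finset (Place k F), ∃ C : ℕ,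
      (∀ (L : Type v) [Field L] [Algebra k L] [Algebra F L] [IsScalarTower k F L]
      [FiniteDimensional F L] (f : Fin (n + 1) → L),
      (∀ H ∈ p, aeval f H = 0) → aeval f G ≠ 0 →
        pht k f ≤ B * (disc k F L + (trunc S Q q f).ncard) + C * Module.finrank F L) ∧
      ∀ f : Fin (n + 1) → F, (∀ H ∈ p, aeval f H = 0) → aeval f G ≠ 0 →
        pht k f ≤ B * (trunc S Q q f).ncard + C := by
  obtain ⟨l, hl⟩ := hx
  obtain ⟨d, G, hGd, hG, hQG, B, C, h⟩ := h
  refine ⟨d + 1, G * X l, hGd.mul (isHomogeneous_X _ _), ?_, hQG.mul_right _, B,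
    fun S => to_trunc ⟨l, Dvd.intro_left _ rfl⟩ (B := B) (C := C) ?_ S⟩
  · intro h
    rcases Ideal.IsPrime.mem_or_mem inferInstance h with h | h
    · exact hG h
    · exact hl h
  · intro L _ _ _ _ _ f hf hfG
    rw [map_mul] at hfG
    exact h L f hf (left_ne_zero_of_mul hfG)

end Pool.Agent.W603.PV
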