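import Pool.Agent.W603.PV.Proj
import Pool.Agent.W603.PV.Ext

/-! Vojta's height inequality over function fields for varieties with a rigid system of generalised
unit equations. -/

set_option autoImplicit false

open FF MvPolynomial Pool.Agent.W603.LV

namespace Pool.Agent.W603.PV

universe u v w z

variable {k : Type u} [Field k] {F : Type v} [Field F] {n : ℕ}

/-- The ideal `p` is homogeneous. -/
def IsHomog (p : Ideal (MvPolynomial (Fin (n + 1)) F)) : Prop :=
  ∀ H ∈ p, ∀ d, homogeneousComponent d H ∈ p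

section scaling

variable {L : Type w} [Field L] [Algebra k L] [Algebra F L]

omit [Algebra k L] in
theorem aeval_scale {H : MvPolynomial (Fin (n + 1)) F} {d : ℕ} (hH : H.IsHomogeneous d)
    (f : Fin (n + 1) → L) (c : L) : aeval (fun j => c * f j) H = c ^ d * aeval f H := by
  rw [aeval_def, aeval_def, eval₂_eq', eval₂_eq', Finset.mul_sum]
  refine Finset.sum_congr rfl fun α hα => ?_
  have h2 : ∑ a, α a = d := by
    have := hH (mem_support_iff.1 hα)
    rw [← this, Finsupp.weight_apply, Finsupp.sum_fintype _ _ (by simp)]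
    simp
  have h3 : ∏ a, (c * f a) ^ α a = c ^ d * ∏ a, f a ^ α a := by
    rw [← h2, ← Finset.prod_pow_eq_pow_sum, ← Finset.prod_mul_distrib]
    exact Finset.prod_congr rfl fun a _ => mul_pow _ _ _
  rw [h3]; ring

omit [Algebra k L] in
theorem aeval_scale_sum (H : MvPolynomial (Fin (n + 1)) F) (f : Fin (n + 1) → L) (c : L) :
    aeval (fun j => c * f j) H =
      ∑ d ∈ Finset.range (H.totalDegree + 1), c ^ d * aeval f (homogeneousComponent d H) := by
  conv_lhs => rw [← sum_homogeneousComponent H]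
  rw [map_sum]
  exact Finset.sum_congr rfl fun d _ => aeval_scale (homogeneousComponent_isHomogeneous d H) f c

omit [Algebra k L] in
theorem exists_scale [Infinite L] (G : MvPolynomial (Fin (n + 1)) F) (f : Fin (n + 1) → L) (d : ℕ)
    (h : aeval f (homogeneousComponent d G) ≠ 0) :
    ∃ c : L, c ≠ 0 ∧ aeval (fun j => c * f j) G ≠ 0 := by
  by_contra hcon
  push Not at hcon
  set g : Polynomial L := Polynomial.X * ∑ e ∈ Finset.range (G.totalDegree + 1),
    Polynomial.C (aeval f (homogeneousComponent e G)) * Polynomial.X ^ e with hg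
  have h0 : g = 0 := by
    apply Polynomial.funext
    intro c
    rw [hg, Polynomial.eval_mul, Polynomial.eval_X, Polynomial.eval_zero]
    by_cases hc : c = 0
    · rw [hc, zero_mul]
    · have h1 := hcon c hc
      rw [aeval_scale_sum] at h1
      rw [Polynomial.eval_finset_sum]
      have h2 : ∑ e ∈ Finset.range (G.totalDegree + 1), Polynomial.eval c
          (Polynomial.C (aeval f (homogeneousComponent e G)) * Polynomial.X ^ e) = 0 := by
        rw [← h1]
        refine Finset.sum_congr rfl fun e _ => ?_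
        rw [Polynomial.eval_mul, Polynomial.eval_C, Polynomial.eval_pow, Polynomial.eval_X, mul_comm]
      rw [h2, mul_zero]
  have h1 := (mul_eq_zero.1 h0).resolve_left Polynomial.X_ne_zero
  have h2 := congrArg (fun g => Polynomial.coeff g d) h1
  simp only [Polynomial.finset_sum_coeff, Polynomial.coeff_C_mul, Polynomial.coeff_X_pow,
    Polynomial.coeff_zero, mul_ite, mul_one, mul_zero, Finset.sum_ite_eq, Finset.mem_range] at h2
  split_ifs at h2 with h3
  · exact h h2
  · apply h
    rw [homogeneousComponent_eq_zero _ _ (by omega), map_zero]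

theorem pord_scale (P : Place k L) {f : Fin (n + 1) → L} (hf : ∃ j, f j ≠ 0) {c : L} (hc : c ≠ 0) :
    pord P (fun j => c * f j) = P.ord c + pord P f := by
  apply le_antisymm
  · obtain ⟨j, hj, h⟩ := exists_pord P hf
    rw [← h, ← P.ord_mul hc hj]
    exact pord_le P (f := fun j => c * f j) (mul_ne_zero hc hj)
  · obtain ⟨j0, hj0⟩ := hf
    obtain ⟨j, hj, h⟩ := exists_pord P (f := fun j => c * f j) ⟨j0, mul_ne_zero hc hj0⟩
    rw [← h, P.ord_mul hc (right_ne_zero_of_mul hj)]
    have := pord_le P (right_ne_zero_of_mul hj)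
    omega

theorem pord_finite [CharZero k] [IsFF k L] {f : Fin (n + 1) → L} (hf : ∃ j, f j ≠ 0) :
    (Function.support fun P : Place k L => pord P f).Finite := by
  classical
  obtain ⟨T, hT⟩ := exists_supp (k := k) Finset.univ f
  refine (Finset.finite_toSet T).subset ?_
  intro P hP
  by_contra hcon
  apply hP
  obtain ⟨j, _, hj⟩ := exists_pord P hf
  simp only
  rw [← hj]
  by_contra h
  exact hcon (hT j (Finset.mem_univ _) P h)

theorem pht_scale [IsAlgClosed k] [CharZero k] [IsFF k L] {f : Fin (n + 1) → L}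
    (hf : ∃ j, f j ≠ 0) {c : L} (hc : c ≠ 0) : pht k (fun j => c * f j) = pht k f := by
  unfold pht
  have h1 : (fun P : Place k L => pord P (fun j => c * f j)) = fun P => P.ord c + pord P f := by
    funext P; exact pord_scale P hf hc
  rw [h1, finsum_add_distrib (finite_support c) (pord_finite hf), sum_ord, zero_add]

theorem meets_scale {Q : MvPolynomial (Fin (n + 1)) F} {q : ℕ} (hQ : Q.IsHomogeneous q)
    {f : Fin (n + 1) → L} (hf : ∃ j, f j ≠ 0) (hfQ : aeval f Q ≠ 0) {c : L} (hc : c ≠ 0) :
    meets (k := k) Q q (fun j => c * f j) = meets (k := k) Q q f := by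
  ext P
  unfold meets
  simp only [Set.mem_ofPred_eq]
  rw [pord_scale P hf hc, aeval_scale hQ, P.ord_mul (pow_ne_zero _ hc) hfQ, P.ord_pow]
  constructor <;> intro h <;> nlinarith

end scaling

variable {p : Ideal (MvPolynomial (Fin (n + 1)) F)} {Q : MvPolynomial (Fin (n + 1)) F}
  {q : ℕ} {I : Type z} {s : I → ℕ}

omit [Field k] in
theorem exists_component (_hp : IsHomog p) {G : MvPolynomial (Fin (n + 1)) F} (hG : G ∉ p) :
    ∃ d, homogeneousComponent d G ∉ p := by
  by_contra hcon
  push Not at hcon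
  apply hG
  rw [← sum_homogeneousComponent G]
  exact Ideal.sum_mem _ fun d _ => hcon d

/-- The height bound, with a homogeneous exceptional form. -/
theorem proj_homog [IsAlgClosed k] [CharZero k] [Finite I] [p.IsPrime] (hp : IsHomog p)
    (hQ : Q.IsHomogeneous q) (hQp : Q ∉ p) (E : EqSys p Q q s) (hE : E.Rigid)
    (hx : ∃ j, X j ∉ p) :
    ∃ (d : ℕ) (G : MvPolynomial (Fin (n + 1)) F), G.IsHomogeneous d ∧ G ∉ p ∧ Q ∣ G ∧
      ∃ (B : ℕ) (C : Finset F), ∀ (L : Type w) [Field L]
      [Algebra k L] [IsFF k L] [Algebra F L] (f : Fin (n + 1) → L),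
      (∀ H ∈ p, aeval f H = 0) → aeval f G ≠ 0 →
        pht k f ≤ B * max (canDeg k L + (meets (k := k) Q q f).ncard +
            ∑ c ∈ C, hgt k (algebraMap F L c)) 0 +
          B * ∑ c ∈ C, hgt k (algebraMap F L c) := by
  obtain ⟨G0, hG0, B, C, h⟩ := proj_core.{u, v, w, z} (k := k) hQp E hE hx
  obtain ⟨l, hl⟩ := hx
  obtain ⟨d, hd⟩ := exists_component hp hG0
  refine ⟨d + q + 1, homogeneousComponent d G0 * Q * X l, ?_, ?_,
    (Dvd.intro_left _ rfl).mul_right _, B, C, ?_⟩
  · exact ((homogeneousComponent_isHomogeneous d G0).mul hQ).mul (isHomogeneous_X _ _)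
  · intro h
    rcases Ideal.IsPrime.mem_or_mem inferInstance h with h | h
    · rcases Ideal.IsPrime.mem_or_mem inferInstance h with h | h
      · exact hd h
      · exact hQp h
    · exact hl h
  · intro L _ _ _ _ f hf hfG
    rw [map_mul, map_mul, aeval_X] at hfG
    have hfl : f l ≠ 0 := right_ne_zero_of_mul hfG
    have hfQ : aeval f Q ≠ 0 := right_ne_zero_of_mul (left_ne_zero_of_mul hfG)
    have hfG0 := left_ne_zero_of_mul (left_ne_zero_of_mul hfG)
    have hinf : Infinite L := by
      have : CharZero L := charZero_of_injective_algebraMap (algebraMap k L).injective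
      infer_instance
    obtain ⟨c, hc, hcG⟩ := exists_scale G0 f d hfG0
    have h1 := h L (fun j => c * f j) (by
      intro H hH
      rw [aeval_scale_sum]
      refine Finset.sum_eq_zero fun e _ => ?_
      rw [hf _ (hp H hH e), mul_zero]) hcG
    rwa [pht_scale ⟨l, hfl⟩ hc, meets_scale hQ ⟨l, hfl⟩ hfQ hc] at h1

variable [Algebra k F]

/-- Vojta's height inequality over function fields. -/
theorem vojta [IsAlgClosed k] [CharZero k] [IsFF k F] [Finite I] [p.IsPrime] (hp : IsHomog p)
    (hQ : Q.IsHomogeneous q) (hQp : Q ∉ p) (E : EqSys p Q q s) (hE : E.Rigid)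
    (hx : ∃ j, X j ∉ p) :
    ∃ (d : ℕ) (G : MvPolynomial (Fin (n + 1)) F), G.IsHomogeneous d ∧ G ∉ p ∧ Q ∣ G ∧
      ∃ (B C : ℕ), ∀ (L : Type w) [Field L] [Algebra k L] [Algebra F L] [IsScalarTower k F L]
      [FiniteDimensional F L] (f : Fin (n + 1) → L),
      (∀ H ∈ p, aeval f H = 0) → aeval f G ≠ 0 →
        pht k f ≤ B * (canDeg k L + (meets (k := k) Q q f).ncard) + C * Module.finrank F L := by
  obtain ⟨d, G, hGd, hG, hQG, B, C, h⟩ := proj_homog.{u, v, w, z} (k := k) hp hQ hQp E hE hx
  obtain ⟨t, ht⟩ := IsFF.exists_transcendental (k := k) (K := F)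
  refine ⟨d, G, hGd, hG, hQG, B, (2 * B * ∑ c ∈ C, hgt k c + 2 * B * hgt k t).toNat, ?_⟩
  intro L _ _ _ _ _ f hf hfG
  have : IsFF k L := isFF_of_finite (F := F)
  have h1 := h L f hf hfG
  have h2 : ∑ c ∈ C, hgt k (algebraMap F L c) = Module.finrank F L * ∑ c ∈ C, hgt k c := by
    rw [Finset.mul_sum]
    exact Finset.sum_congr rfl fun c _ => hgt_algebraMap c
  have h3 := canDeg_ge (k := k) (K := L) (t := algebraMap F L t)
    ((transcendental_algebraMap_iff (algebraMap F L).injective).2 ht)
  rw [hgt_algebraMap t] at h3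
  set H := ∑ c ∈ C, hgt k c with hH
  have hH0 : 0 ≤ H := Finset.sum_nonneg fun _ _ => hgt_nonneg _
  have ht0 : 0 ≤ hgt k t := hgt_nonneg _
  rw [h2] at h1
  have hB : (0 : ℤ) ≤ B := by positivity
  have h4 : ((2 * B * H + 2 * B * hgt k t).toNat : ℤ) = 2 * B * H + 2 * B * hgt k t :=
    Int.toNat_of_nonneg (by positivity)
  rw [h4]
  have hm : (0 : ℤ) ≤ Module.finrank F L := by positivity
  have hmH : (0 : ℤ) ≤ Module.finrank F L * H := mul_nonneg hm hH0
  have hnc : (0 : ℤ) ≤ ((meets (k := k) Q q f).ncard : ℤ) := by positivity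
  have h5 : max (canDeg k L + (meets (k := k) Q q f).ncard + Module.finrank F L * H) 0 ≤
      canDeg k L + (meets (k := k) Q q f).ncard + Module.finrank F L * H +
        2 * (Module.finrank F L * hgt k t) := by
    apply max_le
    · have : 0 ≤ 2 * (Module.finrank F L * hgt k t) := by positivity
      linarith
    · linarith
  have h6 := mul_le_mul_of_nonneg_left h5 hB
  nlinarith

end Pool.Agent.W603.PV
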