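import Pool.Agent.W603.LV.Root
import Pool.Agent.W603.LV.Spec

/-! Heights of points of projective space over function fields. -/

set_option autoImplicit false

open FF MvPolynomial Pool.Agent.W603.LV

namespace Pool.Agent.W603.PV

universe u v w

variable {k : Type u} [Field k] {L : Type w} [Field L] [Algebra k L] {n : ℕ}

/-- The minimum of the orders of the nonzero coordinates. -/
noncomputable def pord (P : Place k L) (f : Fin (n + 1) → L) : ℤ :=
  ⨅ j : {j // f j ≠ 0}, P.ord (f j)

variable (k) in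
/-- The height of the point `(f 0 : … : f n)` of projective space: minus the sum over the places of
the minimum of the orders of the coordinates. -/
noncomputable def pht (f : Fin (n + 1) → L) : ℤ := - ∑ᶠ P : Place k L, pord P f

theorem pord_le (P : Place k L) {f : Fin (n + 1) → L} {j : Fin (n + 1)} (hj : f j ≠ 0) :
    pord P f ≤ P.ord (f j) := by
  unfold pord
  exact ciInf_le (Finite.bddBelow_range _) (⟨j, hj⟩ : {j // f j ≠ 0})

theorem exists_pord (P : Place k L) {f : Fin (n + 1) → L} (hf : ∃ j, f j ≠ 0) :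
    ∃ j, f j ≠ 0 ∧ P.ord (f j) = pord P f := by
  obtain ⟨j0, hj0⟩ := hf
  have : Nonempty {j // f j ≠ 0} := ⟨⟨j0, hj0⟩⟩
  obtain ⟨j, hj⟩ := exists_eq_ciInf_of_finite (f := fun j : {j // f j ≠ 0} => P.ord (f j))
  exact ⟨j, j.2, hj⟩

theorem ge_pord (P : Place k L) (f : Fin (n + 1) → L) (j : Fin (n + 1)) : Ge P (pord P f) (f j) := by
  by_cases h : f j = 0
  · exact Or.inl h
  · exact Or.inr (pord_le P h)

/-- order of the value of a form -/
theorem ge_form {F : Type v} [Field F] [Algebra F L] (P : Place k L) (f : Fin (n + 1) → L)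
    {H : MvPolynomial (Fin (n + 1)) F} {d : ℕ} (hH : H.IsHomogeneous d)
    (hc : ∀ α ∈ H.support, Ge P 0 (algebraMap F L (H.coeff α))) :
    Ge P (d * pord P f) (aeval f H) := by
  rw [aeval_def, eval₂_eq']
  refine Ge.sum _ _ fun α hα => ?_
  have h1 := (hc α hα).mul (Ge.prod Finset.univ (fun a => f a ^ α a) (fun a => α a * pord P f)
    (fun a _ => (ge_pord P f a).pow (α a)))
  refine h1.mono (le_of_eq ?_)
  have h2 : ∑ a, α a = d := by
    have := hH (mem_support_iff.1 hα)
    rw [← this, Finsupp.weight_apply, Finsupp.sum_fintype _ _ (by simp)]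
    simp
  rw [zero_add, ← Finset.sum_mul]
  congr 1
  exact_mod_cast h2.symm

variable [CharZero k] [IsFF k L]

omit [CharZero k] [IsFF k L] in
/-- pole order of the value of a polynomial -/
theorem ge_mvpolyF {F : Type v} [Field F] [Algebra F L] {ρ : Type*} [Fintype ρ] (P : Place k L)
    (r : ρ → L) (m : ρ → ℕ) (hm : ∀ a, Ge P (-(m a : ℤ)) (r a)) (c : MvPolynomial ρ F) (M : ℕ)
    (hM : ∀ α ∈ c.support, Ge P (-(M : ℤ)) (algebraMap F L (c.coeff α))) :
    Ge P (-((c.totalDegree * ∑ a, m a + M : ℕ) : ℤ)) (aeval r c) := by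
  rw [aeval_def, eval₂_eq']
  refine Ge.sum _ _ fun α hα => ?_
  have h1 := (hM α hα).mul
    (Ge.prod Finset.univ (fun a => r a ^ α a) (fun a => α a * (-(m a : ℤ)))
      (fun a _ => (hm a).pow (α a)))
  refine h1.mono ?_
  have h2 : ∀ a, α a ≤ c.totalDegree := by
    intro a
    refine le_trans ?_ (le_totalDegree hα)
    rw [Finsupp.sum_fintype _ _ (by simp)]
    exact Finset.single_le_sum (f := fun a => α a) (fun _ _ => Nat.zero_le _) (Finset.mem_univ a)
  have h3 : ∑ a, α a * m a ≤ c.totalDegree * ∑ a, m a := by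
    rw [Finset.mul_sum]
    exact Finset.sum_le_sum fun a _ => Nat.mul_le_mul_right _ (h2 a)
  have h4 : (-(M : ℤ)) + ∑ a, (α a : ℤ) * (-(m a : ℤ)) = -((∑ a, α a * m a + M : ℕ) : ℤ) := by
    push_cast
    rw [neg_add, ← Finset.sum_neg_distrib, add_comm]
    congr 1
    exact Finset.sum_congr rfl fun a _ => by ring
  rw [h4]
  have h5 : ((∑ a, α a * m a + M : ℕ) : ℤ) ≤ ((c.totalDegree * ∑ a, m a + M : ℕ) : ℤ) := by
    exact_mod_cast Nat.add_le_add_right h3 M
  omega

/-- height of the value of a polynomial -/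
theorem hgt_mvpolyF {F : Type v} [Field F] [Algebra F L] {ρ : Type*} [Fintype ρ] (r : ρ → L)
    (c : MvPolynomial ρ F) :
    hgt k (aeval r c) ≤ c.totalDegree * ∑ a, hgt k (r a) +
      ∑ α ∈ c.support, hgt k (algebraMap F L (c.coeff α)) := by
  classical
  obtain ⟨T1, hT1⟩ := exists_supp (k := k) (Finset.univ : Finset (Option ρ))
    (fun a => Option.elim a (aeval r c) r)
  obtain ⟨T2, hT2⟩ := exists_supp (k := k) c.support (fun α => algebraMap F L (c.coeff α))
  set T := T1 ∪ T2 with hT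
  have h0 : ∀ P : Place k L, P.ord (aeval r c) ≠ 0 → P ∈ T := fun P hP =>
    Finset.mem_union_left _ (hT1 none (Finset.mem_univ _) P hP)
  have h1 : ∀ a, ∀ P : Place k L, P.ord (r a) ≠ 0 → P ∈ T := fun a P hP =>
    Finset.mem_union_left _ (hT1 (some a) (Finset.mem_univ _) P hP)
  have h1' : ∀ α ∈ c.support, ∀ P : Place k L, P.ord (algebraMap F L (c.coeff α)) ≠ 0 → P ∈ T :=
    fun α hα P hP => Finset.mem_union_right _ (hT2 α hα P hP)
  rw [hgt_finset _ T h0, Finset.sum_congr rfl fun a _ => hgt_finset (r a) T (h1 a),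
    Finset.sum_comm, Finset.mul_sum, Finset.sum_congr rfl fun α hα => hgt_finset _ T (h1' α hα),
    Finset.sum_comm (s := c.support), ← Finset.sum_add_distrib]
  refine Finset.sum_le_sum fun P _ => ?_
  have h2 := ge_mvpolyF P r (fun a => (-P.ord (r a)).toNat) (fun a => Or.inr (by omega)) c
    (∑ α ∈ c.support, (-P.ord (algebraMap F L (c.coeff α))).toNat) (by
      intro α hα
      right
      have h3 : (-P.ord (algebraMap F L (c.coeff α))).toNat ≤
          ∑ α ∈ c.support, (-P.ord (algebraMap F L (c.coeff α))).toNat :=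
        Finset.single_le_sum (f := fun α => (-P.ord (algebraMap F L (c.coeff α))).toNat)
          (fun _ _ => Nat.zero_le _) hα
      omega)
  have h3 : ∀ a, max (-P.ord (r a)) 0 = ((-P.ord (r a)).toNat : ℤ) := fun a => by omega
  have h3' : ∀ α, max (-P.ord (algebraMap F L (c.coeff α))) 0 =
    ((-P.ord (algebraMap F L (c.coeff α))).toNat : ℤ) := fun a => by omega
  rw [Finset.sum_congr rfl fun a _ => h3 a, Finset.sum_congr rfl fun a _ => h3' a]
  have h5 : ((c.totalDegree * ∑ a, (-P.ord (r a)).toNat +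
      ∑ α ∈ c.support, (-P.ord (algebraMap F L (c.coeff α))).toNat : ℕ) : ℤ) =
      c.totalDegree * ∑ a, ((-P.ord (r a)).toNat : ℤ) +
      ∑ α ∈ c.support, ((-P.ord (algebraMap F L (c.coeff α))).toNat : ℤ) := by push_cast; rfl
  have h4 : (0 : ℤ) ≤ ((c.totalDegree * ∑ a, (-P.ord (r a)).toNat +
      ∑ α ∈ c.support, (-P.ord (algebraMap F L (c.coeff α))).toNat : ℕ) : ℤ) := by positivity
  rw [← h5]
  rcases h2 with h2 | h2
  · rw [h2, P.ord_zero]; simpa using h4
  · apply max_le _ h4
    omega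

/-- the number of poles of finitely many functions -/
theorem card_poles {ι : Type*} (s : Finset ι) (c : ι → L) (T : Finset (Place k L))
    (hT : ∀ P ∈ T, ∃ i ∈ s, P.ord (c i) < 0) : (T.card : ℤ) ≤ ∑ i ∈ s, hgt k (c i) := by
  classical
  obtain ⟨T', hT'⟩ := exists_supp (k := k) s c
  have hsub : T ⊆ T' := by
    intro P hP
    obtain ⟨i, hi, h⟩ := hT P hP
    exact hT' i hi P h.ne
  rw [Finset.sum_congr rfl fun i hi => hgt_finset (c i) T' (hT' i hi), Finset.sum_comm]
  have h1 : ∀ P ∈ T, (1 : ℤ) ≤ ∑ i ∈ s, max (-P.ord (c i)) 0 := by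
    intro P hP
    obtain ⟨i, hi, h⟩ := hT P hP
    refine le_trans ?_ (Finset.single_le_sum (f := fun i => max (-P.ord (c i)) 0)
      (fun _ _ => le_max_right _ _) hi)
    have : 1 ≤ -P.ord (c i) := by omega
    exact this.trans (le_max_left _ _)
  calc (T.card : ℤ) = ∑ P ∈ T, 1 := by simp
    _ ≤ ∑ P ∈ T, ∑ i ∈ s, max (-P.ord (c i)) 0 := Finset.sum_le_sum h1
    _ ≤ ∑ P ∈ T', ∑ i ∈ s, max (-P.ord (c i)) 0 :=
      Finset.sum_le_sum_of_subset_of_nonneg hsub fun P _ _ =>
        Finset.sum_nonneg fun i _ => le_max_right _ _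

variable [IsAlgClosed k]

/-- the height is at most the sum of the heights of the affine coordinates -/
theorem pht_le (f : Fin (n + 1) → L) {l : Fin (n + 1)} (hl : f l ≠ 0) :
    pht k f ≤ ∑ j, hgt k (f j / f l) := by
  classical
  obtain ⟨T, hT⟩ := exists_supp (k := k) Finset.univ f
  have h1 : ∀ j, ∀ P : Place k L, P.ord (f j) ≠ 0 → P ∈ T := fun j => hT j (Finset.mem_univ j)
  have h1' : ∀ j, ∀ P : Place k L, P.ord (f j / f l) ≠ 0 → P ∈ T := by
    intro j P hP
    by_contra hcon
    apply hP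
    by_cases hj : f j = 0
    · rw [hj, zero_div, P.ord_zero]
    have h2 : P.ord (f j) = 0 := by by_contra h; exact hcon (h1 j P h)
    have h3 : P.ord (f l) = 0 := by by_contra h; exact hcon (h1 l P h)
    rw [P.ord_div hj hl, h2, h3]; rfl
  have h2 : pht k f = ∑ P ∈ T, (- pord P f) := by
    unfold pht
    rw [finsum_eq_sum_of_support_subset (s := T), Finset.sum_neg_distrib]
    intro P hP
    by_contra hcon
    apply hP
    obtain ⟨j, hj, h⟩ := exists_pord P ⟨l, hl⟩
    simp only
    rw [← h]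
    by_contra h'; exact hcon (h1 j P h')
  have h3 : ∑ P ∈ T, P.ord (f l) = 0 := sum_ord_finset _ T (h1 l)
  have h4 : ∑ P ∈ T, (- pord P f) = ∑ P ∈ T, (- pord P f + P.ord (f l)) := by
    rw [Finset.sum_add_distrib, h3, add_zero]
  rw [h2, h4, Finset.sum_congr rfl fun j _ => hgt_finset _ T (h1' j), Finset.sum_comm]
  refine Finset.sum_le_sum fun P _ => ?_
  obtain ⟨j, hj, h⟩ := exists_pord P ⟨l, hl⟩
  refine le_trans ?_ (Finset.single_le_sum (f := fun j => max (-P.ord (f j / f l)) 0)
    (fun _ _ => le_max_right _ _) (Finset.mem_univ j))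
  rw [P.ord_div hj hl, ← h]
  exact le_trans (by omega) (le_max_left _ _)

end Pool.Agent.W603.PV
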