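import Pool.Agent.W603.PV.Trunc

/-! Height inequalities with the truncated counting function away from `S` and the discriminant:
varieties given by few monomials or by sums of powers. -/

set_option autoImplicit false

open FF MvPolynomial Pool.Agent.W603.LV

namespace Pool.Agent.W603.PV

universe u v w z

variable {k : Type u} [Field k] {F : Type v} [Field F] [Algebra k F] {n : ℕ}
  {p : Ideal (MvPolynomial (Fin (n + 1)) F)}

theorem few_trunc [IsAlgClosed k] [CharZero k] [IsFF k F] {ι : Type z} [Finite ι]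
    (U : Finset (Fin (n + 1)))
    (Fs : ι → MvPolynomial (Fin (n + 1)) F) {e : ι → ℕ} (hF : ∀ i, (Fs i).IsHomogeneous (e i))
    (hC : ∀ i, HighPowers U (Fs i).support)
    (hmin : p ∈ (Ideal.span (Set.range Fs)).minimalPrimes) (hX : ∀ j, X j ∉ p)
    (hst : ∀ b : Fin (n + 1) → ℤ, Stable p b → ∀ j l, b j = b l) :
    ∃ (d : ℕ) (G : MvPolynomial (Fin (n + 1)) F), G.IsHomogeneous d ∧ G ∉ p ∧
      (∏ j ∈ U, X j) ∣ G ∧ ∃ B : ℕ, ∀ S : Finset (Place k F), ∃ C : ℕ,
      (∀ (L : Type v) [Field L] [Algebra k L] [Algebra F L] [IsScalarTower k F L]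
      [FiniteDimensional F L] (f : Fin (n + 1) → L),
      (∀ H ∈ p, aeval f H = 0) → aeval f G ≠ 0 →
        pht k f ≤ B * (disc k F L + (trunc S (∏ j ∈ U, X j) U.card f).ncard) +
          C * Module.finrank F L) ∧
      ∀ f : Fin (n + 1) → F, (∀ H ∈ p, aeval f H = 0) → aeval f G ≠ 0 →
        pht k f ≤ B * (trunc S (∏ j ∈ U, X j) U.card f).ncard + C := by
  have hpp : p.IsPrime := hmin.1.1
  have hp : ∀ i, Fs i ∈ p := fun i => hmin.1.2 (Ideal.subset_span ⟨i, rfl⟩)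
  choose N hN0 hN hdiv using hC
  have hQp : (∏ j ∈ U, X j : MvPolynomial (Fin (n + 1)) F) ∉ p := by
    intro h
    obtain ⟨j, _, hj⟩ := (Ideal.IsPrime.prod_mem_iff (hp := hpp)).1 h
    exact hX j hj
  have hQ : (∏ j ∈ U, X j : MvPolynomial (Fin (n + 1)) F).IsHomogeneous U.card := by
    have := IsHomogeneous.prod U (fun j => (X j : MvPolynomial (Fin (n + 1)) F)) (fun _ => 1)
      fun j _ => isHomogeneous_X _ _
    simpa using this
  exact to_trunc' ⟨0, hX 0⟩ (vojta.{u, v, v, z} (k := k) (isHomog_of_min Fs hF hmin)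
    hQ hQp (fewSystem U Fs hF N hN0 hN hdiv p hp)
    (few_rigid U Fs hF N hN0 hN hdiv hmin hp hX hst) ⟨0, hX 0⟩)

theorem war_trunc [IsAlgClosed k] [CharZero k] [IsFF k F] {I : Type z} [Finite I]
    (Fs : I → MvPolynomial (Fin (n + 1)) F)
    (hF : ∀ i, ∃ s N : ℕ, 0 < N ∧ (s - 1) ^ 2 ≤ N ∧ IsPowSum (Fs i) s N)
    [p.IsPrime] (hmin : p ∈ (Ideal.span (Set.range Fs)).minimalPrimes) (hx : ∃ j, X j ∉ p)
    {Q : MvPolynomial (Fin (n + 1)) F} {q : ℕ}
    (hQ : SmallBoundary Q q) (hQp : Q ∉ p) (hline : ¬ HasLine p Q q) :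
    ∃ (d : ℕ) (G : MvPolynomial (Fin (n + 1)) F), G.IsHomogeneous d ∧ G ∉ p ∧ Q ∣ G ∧
      ∃ B : ℕ, ∀ S : Finset (Place k F), ∃ C : ℕ,
      (∀ (L : Type v) [Field L] [Algebra k L] [Algebra F L] [IsScalarTower k F L]
      [FiniteDimensional F L] (f : Fin (n + 1) → L),
      (∀ H ∈ p, aeval f H = 0) → aeval f G ≠ 0 →
        pht k f ≤ B * (disc k F L + (trunc S Q q f).ncard) + C * Module.finrank F L) ∧
      ∀ f : Fin (n + 1) → F, (∀ H ∈ p, aeval f H = 0) → aeval f G ≠ 0 →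
        pht k f ≤ B * (trunc S Q q f).ncard + C :=
  to_trunc' hx (war_vojta.{u, v, v, z} (k := k) Fs hF hmin hx hQ hQp hline)

end Pool.Agent.W603.PV
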