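import Pool.Agent.W603.PV.Defs
import Pool.Agent.W603.LV.Crit

/-! Height bounds from rigid systems: the algebraic part. -/

set_option autoImplicit false

open FF MvPolynomial Pool.Agent.W603.LV

namespace Pool.Agent.W603.PV

universe u v w z a b

/-- A polynomial relation for an element that is algebraic over a finitely generated field. -/
theorem exists_rel' {k : Type u} [Field k] {L : Type v} [Field L] [Algebra k L] {ρ : Type*}
    (r : ρ → L) (z : L) (hz : IsAlgebraic (IntermediateField.adjoin k (Set.range r)) z) :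
    ∃ (D : ℕ) (c : ℕ → MvPolynomial ρ k), aeval r (c D) ≠ 0 ∧
      ∑ d ∈ Finset.range (D + 1), aeval r (c d) * z ^ d = 0 := by
  classical
  obtain ⟨p, hp0, hp⟩ := hz
  have hc : ∀ a : IntermediateField.adjoin k (Set.range r), ∃ x y : MvPolynomial ρ k,
      aeval r y ≠ 0 ∧ (a : L) * aeval r y = aeval r x := by
    rintro ⟨a, ha⟩
    rw [IntermediateField.mem_adjoin_range_iff] at ha
    obtain ⟨x, y, hxy⟩ := ha
    by_cases hy : aeval r y = 0
    · refine ⟨0, 1, by simp, ?_⟩
      simp only [map_zero, map_one, mul_one]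
      rw [hxy, hy, div_zero]
    · refine ⟨x, y, hy, ?_⟩
      simp only
      rw [hxy]; field_simp
  choose x y hy hxy using hc
  refine ⟨p.natDegree, fun d => if d ∈ p.support then x (p.coeff d) *
    ∏ j ∈ p.support.erase d, y (p.coeff j) else 0, ?_, ?_⟩
  · have h1 : p.natDegree ∈ p.support := Polynomial.natDegree_mem_support_of_nonzero hp0
    simp only [h1, if_true]
    rw [map_mul, map_prod]
    refine mul_ne_zero ?_ (Finset.prod_ne_zero_iff.2 fun j _ => hy _)
    rw [← hxy]
    refine mul_ne_zero ?_ (hy _)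
    intro h0
    exact Polynomial.mem_support_iff.1 h1 (Subtype.ext h0)
  · have h2 : ∑ d ∈ p.support, (p.coeff d : L) * z ^ d = 0 := by
      rw [← hp, Polynomial.aeval_def, Polynomial.eval₂_eq_sum, Polynomial.sum]
      rfl
    have h3 : ∑ d ∈ Finset.range (p.natDegree + 1), aeval r (if d ∈ p.support then x (p.coeff d) *
        ∏ j ∈ p.support.erase d, y (p.coeff j) else 0) * z ^ d =
        ∑ d ∈ p.support, aeval r (x (p.coeff d) * ∏ j ∈ p.support.erase d, y (p.coeff j)) *
          z ^ d := by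
      refine (Finset.sum_subset (s₁ := p.support) ?_ ?_).symm.trans ?_
      · intro d hd
        exact Finset.mem_range.2 (Nat.lt_succ_of_le (Polynomial.le_natDegree_of_mem_supp d hd))
      · intro d _ hd
        rw [if_neg hd, map_zero, zero_mul]
      · refine Finset.sum_congr rfl fun d hd => ?_
        rw [if_pos hd]
    rw [h3]
    have h4 : ∀ d ∈ p.support, aeval r (x (p.coeff d) * ∏ j ∈ p.support.erase d, y (p.coeff j)) *
        z ^ d = (∏ j ∈ p.support, aeval r (y (p.coeff j))) * ((p.coeff d : L) * z ^ d) := by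
      intro d hd
      rw [map_mul, map_prod, ← hxy, ← Finset.mul_prod_erase p.support _ hd]
      ring
    rw [Finset.sum_congr rfl h4, ← Finset.mul_sum, h2, mul_zero]

variable {k : Type u} [Field k] {F : Type b} [Field F] {A : Type v} [CommRing A] [IsDomain A]
  [Algebra F A] {I : Type z} {s : I → ℕ}

/-- The sum of the heights of the coefficients of a polynomial is at most the sum of the heights of
the elements of a finite set containing them. -/
theorem coef_le [CharZero k] {L : Type w} [Field L] [Algebra k L] [IsFF k L] [Algebra F L]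
    {ρ : Type*} (c : MvPolynomial ρ F) (E : Finset F) (hE : c.coeffs ⊆ E) :
    ∑ α ∈ c.support, hgt k (algebraMap F L (c.coeff α)) ≤
      c.support.card * ∑ e ∈ E, hgt k (algebraMap F L e) := by
  have h1 : ∀ α ∈ c.support, hgt k (algebraMap F L (c.coeff α)) ≤
      ∑ e ∈ E, hgt k (algebraMap F L e) := by
    intro α hα
    exact Finset.single_le_sum (f := fun e => hgt k (algebraMap F L e))
      (fun _ _ => hgt_nonneg _) (hE (coeff_mem_coeffs α (mem_support_iff.1 hα)))
  refine (Finset.sum_le_sum h1).trans ?_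
  rw [Finset.sum_const, nsmul_eq_mul]

theorem core_abs [IsAlgClosed k] [CharZero k] [Finite I]
    (t : (i : I) → Fin (s i) → A) {J : Type a} [Finite J] (num den : J → A)
    (hden : ∀ j, den j ≠ 0)
    (hrig : ∀ R : (i : I) → Fin (s i) → Fin (s i) → Prop, (∀ i, Equivalence (R i)) →
      (∀ i a, ∑ b ∈ (by classical exact Finset.univ.filter (R i a)), t i b = 0) → ∀ j,
        IsAlgebraic (IntermediateField.adjoin F (ratios t R))
          (algebraMap A (FractionRing A) (num j) / algebraMap A (FractionRing A) (den j))) :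
    ∃ g : A, g ≠ 0 ∧ ∃ (B : ℕ) (E : Finset F), ∀ (L : Type w) [Field L] [Algebra k L] [IsFF k L]
      [Algebra F L] (θ : A →ₐ[F] L), θ g ≠ 0 → ∀ X : ℤ, 0 ≤ X →
      (∀ i, ∃ R : {a : Fin (s i) // t i a ≠ 0} → {a : Fin (s i) // t i a ≠ 0} → Prop,
        Equivalence R ∧ (∀ a b, R a b → hgt k (θ (t i a) / θ (t i b)) ≤ X) ∧
        ∀ (a0 : {a : Fin (s i) // t i a ≠ 0}) (B : Finset {a : Fin (s i) // t i a ≠ 0}),
          (∀ a, a ∈ B ↔ R a0 a) → ∑ a ∈ B, θ (t i a) = 0) →
      ∀ j, θ (den j) ≠ 0 ∧ hgt k (θ (num j) / θ (den j)) ≤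
        B * X + B * ∑ c ∈ E, hgt k (algebraMap F L c) := by
  classical
  have := Fintype.ofFinite I
  have := Fintype.ofFinite J
  -- admissible partitions
  let adm : ((i : I) → Fin (s i) → Fin (s i) → Prop) → Prop := fun R =>
    (∀ i, Equivalence (R i)) ∧ ∀ i a, ∑ b ∈ Finset.univ.filter (R i a), t i b = 0
  have key : ∀ (R : (i : I) → Fin (s i) → Fin (s i) → Prop) (j : J),
      ∃ (D : ℕ) (c : ℕ → MvPolynomial (Idx s) F) (nm dn : A), nm ≠ 0 ∧ (adm R →
        aeval (rat t R) (c D) * algebraMap A (FractionRing A) dn =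
          algebraMap A (FractionRing A) nm ∧
        ∑ d ∈ Finset.range (D + 1), aeval (rat t R) (c d) *
          (algebraMap A (FractionRing A) (num j) / algebraMap A (FractionRing A) (den j)) ^ d
            = 0) := by
    intro R j
    by_cases hR : adm R
    · have h1 := hrig R hR.1 (by
        intro i a
        refine Eq.trans ?_ (hR.2 i a)
        congr!) j
      rw [← adjoin_rat] at h1
      obtain ⟨D, c, hc, hc'⟩ := exists_rel' (rat t R) _ h1
      obtain ⟨nm, dn, hdn, hnd⟩ := IsFractionRing.div_surjective (A := A)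
        (aeval (rat t R) (c D))
      have hdn0 : algebraMap A (FractionRing A) dn ≠ 0 := by
        intro h0
        have h2 : dn = 0 := IsFractionRing.injective A (FractionRing A) (by rw [h0, map_zero])
        rw [h2] at hdn
        exact zero_notMem_nonZeroDivisors hdn
      refine ⟨D, c, nm, dn, ?_, fun _ => ⟨?_, hc'⟩⟩
      · rintro rfl
        rw [map_zero, zero_div] at hnd
        exact hc hnd.symm
      · rw [← hnd]; field_simp
    · exact ⟨0, fun _ => 0, 1, 1, one_ne_zero, fun h => absurd h hR⟩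
  choose D c nm dn hnm hkey using key
  have hRfin : Finite ((i : I) → Fin (s i) → Fin (s i) → Prop) := inferInstance
  have := Fintype.ofFinite ((i : I) → Fin (s i) → Fin (s i) → Prop)
  -- the exceptional set
  set g1 : A := ∏ i, ∏ a, (if t i a = 0 then 1 else t i a) with hg1
  set g2 : A := ∏ i, ∏ B : Finset (Fin (s i)), (if ∑ b ∈ B, t i b = 0 then 1 else ∑ b ∈ B, t i b)
    with hg2
  set g3 : A := ∏ R, ∏ j, nm R j with hg3
  set g4 : A := ∏ j, den j with hg4
  obtain ⟨C1, hC1⟩ : ∃ C1 : ℕ, C1 = ∑ R, ∑ j, ∑ d ∈ Finset.range (D R j + 1),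
    ((c R j d).totalDegree + (c R j d).support.card) := ⟨_, rfl⟩
  obtain ⟨E, hE⟩ : ∃ E : Finset F, E = Finset.univ.biUnion fun R => Finset.univ.biUnion fun j =>
    (Finset.range (D R j + 1)).biUnion fun d => (c R j d).coeffs := ⟨_, rfl⟩
  refine ⟨g1 * g2 * g3 * g4, ?_, C1 * (Fintype.card (Idx s) + 1), E, ?_⟩
  · refine mul_ne_zero (mul_ne_zero (mul_ne_zero ?_ ?_) ?_) ?_
    · refine Finset.prod_ne_zero_iff.2 fun i _ => Finset.prod_ne_zero_iff.2 fun a _ => ?_
      split_ifs with h
      · exact one_ne_zero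
      · exact h
    · refine Finset.prod_ne_zero_iff.2 fun i _ => Finset.prod_ne_zero_iff.2 fun B _ => ?_
      split_ifs with h
      · exact one_ne_zero
      · exact h
    · exact Finset.prod_ne_zero_iff.2 fun R _ => Finset.prod_ne_zero_iff.2 fun j _ => hnm R j
    · exact Finset.prod_ne_zero_iff.2 fun j _ => hden j
  intro L _ _ _ _ θ hθg Xb hXb hblk
  rw [map_mul, map_mul, map_mul] at hθg
  have hθg4 : θ g4 ≠ 0 := right_ne_zero_of_mul hθg
  have hθg3 : θ g3 ≠ 0 := right_ne_zero_of_mul (left_ne_zero_of_mul hθg)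
  have hθg2 : θ g2 ≠ 0 := right_ne_zero_of_mul (left_ne_zero_of_mul (left_ne_zero_of_mul hθg))
  have hθg1 : θ g1 ≠ 0 := left_ne_zero_of_mul (left_ne_zero_of_mul (left_ne_zero_of_mul hθg))
  have hθt : ∀ i a, t i a ≠ 0 → θ (t i a) ≠ 0 := by
    intro i a ha h0
    apply hθg1
    rw [hg1, map_prod]
    apply Finset.prod_eq_zero (Finset.mem_univ i)
    rw [map_prod]
    apply Finset.prod_eq_zero (Finset.mem_univ a)
    rw [if_neg ha, h0]
  have hθsum : ∀ i (B : Finset (Fin (s i))), θ (∑ b ∈ B, t i b) = 0 → ∑ b ∈ B, t i b = 0 := by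
    intro i B h0
    by_contra hne
    apply hθg2
    rw [hg2, map_prod]
    apply Finset.prod_eq_zero (Finset.mem_univ i)
    rw [map_prod]
    apply Finset.prod_eq_zero (Finset.mem_univ B)
    rw [if_neg hne, h0]
  have hθnum : ∀ R j, θ (nm R j) ≠ 0 := by
    intro R j h0
    apply hθg3
    rw [hg3, map_prod]
    apply Finset.prod_eq_zero (Finset.mem_univ R)
    rw [map_prod]
    exact Finset.prod_eq_zero (Finset.mem_univ j) h0
  have hθden : ∀ j, θ (den j) ≠ 0 := by
    intro j h0
    apply hθg4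
    rw [hg4, map_prod]
    exact Finset.prod_eq_zero (Finset.mem_univ j) h0
  choose R0 hR0e hR0h hR0s using hblk
  obtain ⟨R, hRiff⟩ : ∃ R : (i : I) → Fin (s i) → Fin (s i) → Prop, ∀ i a b, R i a b ↔
      (a = b ∨ ∃ (ha : t i a ≠ 0) (hb : t i b ≠ 0), R0 i ⟨a, ha⟩ ⟨b, hb⟩) :=
    ⟨fun i a b => a = b ∨ ∃ (ha : t i a ≠ 0) (hb : t i b ≠ 0), R0 i ⟨a, ha⟩ ⟨b, hb⟩,
      fun _ _ _ => Iff.rfl⟩
  have hRadm : adm R := by
    refine ⟨fun i => ⟨fun a => (hRiff i a a).2 (Or.inl rfl), ?_, ?_⟩, fun i a => ?_⟩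
    · intro a b hab
      rw [hRiff] at hab ⊢
      rcases hab with rfl | ⟨ha, hb, h⟩
      · exact Or.inl rfl
      · exact Or.inr ⟨hb, ha, (hR0e i).symm h⟩
    · intro a b c hab hbc
      rw [hRiff] at hab hbc ⊢
      rcases hab with rfl | ⟨ha, hb, h⟩
      · exact hbc
      · rcases hbc with rfl | ⟨hb', hc, h'⟩
        · exact Or.inr ⟨ha, hb, h⟩
        · exact Or.inr ⟨ha, hc, (hR0e i).trans h h'⟩
    · apply hθsum
      by_cases ha : t i a = 0
      · have h1 : Finset.univ.filter (R i a) = {a} := by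
          ext b
          simp only [Finset.mem_filter, Finset.mem_univ, true_and, Finset.mem_singleton, hRiff]
          constructor
          · rintro (h | ⟨ha', -, -⟩)
            · exact h.symm
            · exact absurd ha ha'
          · intro h; exact Or.inl h.symm
        rw [h1, Finset.sum_singleton, ha, map_zero]
      · rw [map_sum]
        have h1 := hR0s i ⟨a, ha⟩ (Finset.univ.filter (R0 i ⟨a, ha⟩)) (by simp)
        rw [← h1]
        symm
        refine Finset.sum_bij (fun b _ => (b : Fin (s i))) ?_ ?_ ?_ ?_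
        · intro b hb
          simp only [Finset.mem_filter, Finset.mem_univ, true_and, hRiff] at hb ⊢
          exact Or.inr ⟨ha, b.2, hb⟩
        · intro b _ b' _ h
          exact Subtype.ext h
        · intro b hb
          simp only [Finset.mem_filter, Finset.mem_univ, true_and, hRiff] at hb
          rcases hb with rfl | ⟨ha', hb, h⟩
          · exact ⟨⟨a, ha⟩, by simp [(hR0e i).refl], rfl⟩
          · exact ⟨⟨b, hb⟩, by simpa using h, rfl⟩
        · intro b _; rfl
  -- heights of the ratios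
  set rθ : Idx s → L := fun p => θ (nums t R p) / θ (dens t R p) with hrθ
  have hdens : ∀ p, θ (dens t R p) ≠ 0 := by
    intro p
    unfold dens
    split_ifs with h
    · exact hθt _ _ h.2
    · rw [map_one]; exact one_ne_zero
  have hrθh : ∀ p, hgt k (rθ p) ≤ Xb := by
    intro p
    simp only [hrθ]
    unfold nums dens
    by_cases h : R p.1 p.2.1 p.2.2 ∧ t p.1 p.2.2 ≠ 0
    · rw [if_pos h, if_pos h]
      rcases (hRiff _ _ _).1 h.1 with h1 | ⟨ha, hb, h1⟩
      · rw [h1, div_self (hθt _ _ h.2), hgt_one]; exact hXb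
      · exact hR0h p.1 _ _ h1
    · rw [if_neg h, map_zero, zero_div, hgt_zero]; exact hXb
  have hrsum : ∑ p, hgt k (rθ p) ≤ Fintype.card (Idx s) * Xb := by
    refine (Finset.sum_le_sum fun p _ => hrθh p).trans ?_
    rw [Finset.sum_const, nsmul_eq_mul, Finset.card_univ]
  -- transfer of the relations
  have hall : ∀ i : Idx s ⊕ J, θ (Sum.elim (dens t R) den i) ≠ 0 := by
    intro i
    cases i with
    | inl p => exact hdens p
    | inr j => exact hθden j
  obtain ⟨Bt, _, _, q, xt, jt, Θ, hjinj, hjq, hΘq, hjx, hΘx⟩ :=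
    transfer (k := F) (ρ := Idx s ⊕ J) θ (Sum.elim (nums t R) num) (Sum.elim (dens t R) den) hall
  have hjq' : (fun p => jt (q (Sum.inl p))) = rat t R := funext fun p => hjq (Sum.inl p)
  have hΘq' : (fun p => Θ (q (Sum.inl p))) = rθ := funext fun p => hΘq (Sum.inl p)
  intro j
  refine ⟨hθden j, ?_⟩
  obtain ⟨h1, h2⟩ := hkey R j hRadm
  have hjy := hjq (Sum.inr j)
  have hΘy := hΘq (Sum.inr j)
  simp only [Sum.elim_inr] at hjy hΘy
  set y := q (Sum.inr j) with hy
  set q' : Idx s → Bt := fun p => q (Sum.inl p) with hq'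
  have hjc : ∀ P : MvPolynomial (Idx s) F, jt (aeval q' P) = aeval (rat t R) P := by
    intro P
    rw [← hjq', ← AlgHom.comp_apply, comp_aeval]
  have hΘc : ∀ P : MvPolynomial (Idx s) F, Θ (aeval q' P) = aeval rθ P := by
    intro P
    rw [← hΘq', ← AlgHom.comp_apply, comp_aeval]
  have h3 : aeval q' (c R j (D R j)) * xt (dn R j) = xt (nm R j) := by
    apply hjinj
    rw [map_mul, hjc, hjx, hjx, h1]
  have h4 : ∑ d ∈ Finset.range (D R j + 1), aeval q' (c R j d) * y ^ d = 0 := by
    apply hjinj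
    rw [map_sum, map_zero, ← h2]
    refine Finset.sum_congr rfl fun d _ => ?_
    rw [map_mul, map_pow, hjc, hjy]
  have h5 := congrArg Θ h3
  rw [map_mul, hΘc, hΘx, hΘx] at h5
  have h6 : aeval rθ (c R j (D R j)) ≠ 0 := by
    intro h0
    rw [h0, zero_mul] at h5
    exact hθnum R j h5.symm
  have h7 := congrArg Θ h4
  rw [map_sum, map_zero] at h7
  have h8 : ∑ d ∈ Finset.range (D R j + 1), aeval rθ (c R j d) *
      (θ (num j) / θ (den j)) ^ d = 0 := by
    rw [← h7]
    refine Finset.sum_congr rfl fun d _ => ?_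
    rw [map_mul, map_pow, hΘc, hΘy]
  have h9 := hgt_root (k := k) (fun d => aeval rθ (c R j d)) h6 _ h8
  have h10 : hgt k (aeval rθ (c R j (D R j))) + ∑ d ∈ Finset.range (D R j),
      hgt k (aeval rθ (c R j d)) = ∑ d ∈ Finset.range (D R j + 1),
      hgt k (aeval rθ (c R j d)) := by
    rw [Finset.sum_range_succ, add_comm]
  rw [h10] at h9
  set HE := ∑ e ∈ E, hgt k (algebraMap F L e) with hHE
  have hHE0 : 0 ≤ HE := Finset.sum_nonneg fun _ _ => hgt_nonneg _
  have hY0 : 0 ≤ Fintype.card (Idx s) * Xb + HE := add_nonneg (mul_nonneg (by positivity) hXb) hHE0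
  have h11 : ∑ d ∈ Finset.range (D R j + 1), hgt k (aeval rθ (c R j d)) ≤
      ∑ d ∈ Finset.range (D R j + 1), (((c R j d).totalDegree + (c R j d).support.card : ℕ) : ℤ) *
        (Fintype.card (Idx s) * Xb + HE) := by
    refine Finset.sum_le_sum fun d hd => (hgt_mvpolyF rθ _).trans ?_
    have h12 := coef_le (k := k) (L := L) (c R j d) E (by
      rw [hE]
      intro e he
      exact Finset.mem_biUnion.2 ⟨R, Finset.mem_univ _, Finset.mem_biUnion.2
        ⟨j, Finset.mem_univ _, Finset.mem_biUnion.2 ⟨d, hd, he⟩⟩⟩)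
    have h13 := mul_le_mul_of_nonneg_left hrsum
      (by positivity : (0 : ℤ) ≤ ((c R j d).totalDegree : ℤ))
    have h14 : (0 : ℤ) ≤ ((c R j d).totalDegree : ℤ) * HE := mul_nonneg (by positivity) hHE0
    have h15 : (0 : ℤ) ≤ ((c R j d).support.card : ℤ) * (Fintype.card (Idx s) * Xb) :=
      mul_nonneg (by positivity) (mul_nonneg (by positivity) hXb)
    rw [← hHE] at h12
    push_cast
    nlinarith
  rw [← Finset.sum_mul] at h11
  have h12 : ∑ d ∈ Finset.range (D R j + 1),
      ((c R j d).totalDegree + (c R j d).support.card) ≤ C1 := by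
    rw [hC1]
    refine le_trans ?_ (Finset.single_le_sum (f := fun R => ∑ j,
      ∑ d ∈ Finset.range (D R j + 1), ((c R j d).totalDegree + (c R j d).support.card))
      (fun _ _ => Nat.zero_le _) (Finset.mem_univ R))
    exact Finset.single_le_sum (f := fun j =>
      ∑ d ∈ Finset.range (D R j + 1), ((c R j d).totalDegree + (c R j d).support.card))
      (fun _ _ => Nat.zero_le _) (Finset.mem_univ j)
  have h13 : (∑ d ∈ Finset.range (D R j + 1),
      (((c R j d).totalDegree + (c R j d).support.card : ℕ) : ℤ)) ≤ C1 := by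
    exact_mod_cast h12
  refine (h9.trans h11).trans ((mul_le_mul_of_nonneg_right h13 hY0).trans ?_)
  have h16 : (0 : ℤ) ≤ C1 * Xb := mul_nonneg (by positivity) hXb
  have h17 : (0 : ℤ) ≤ C1 * (Fintype.card (Idx s) * HE) :=
    mul_nonneg (by positivity) (mul_nonneg (by positivity) hHE0)
  push_cast
  nlinarith

end Pool.Agent.W603.PV
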