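import Pool.Agent.W603.PV.Hgt
import Pool.Agent.W603.LV.CritDefs
import Pool.Agent.W603.LV.Ex

/-! Systems of generalised unit equations on projective varieties. -/

set_option autoImplicit false

open FF MvPolynomial Pool.Agent.W603.LV

namespace Pool.Agent.W603.PV

universe u v w z

variable {F : Type v} [Field F] {n : ℕ}

/-- The places where the point `f` meets the divisor given by the form `Q` of degree `q`. -/
def meets {k : Type u} [Field k] {L : Type w} [Field L] [Algebra k L] [Algebra F L]
    (Q : MvPolynomial (Fin (n + 1)) F) (q : ℕ) (f : Fin (n + 1) → L) : Set (Place k L) :=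
  {P | q * pord P f < P.ord (aeval f Q)}

/-- The projective variety with the homogeneous prime ideal `p` satisfies, for `i : I`, the equation
`∑_a ψ i a * φ i a ^ N i = 0` with `s i` terms, `N i ≥ (s i - 1) ^ 2`, where the `ψ i a` and the
`φ i a` are forms, all terms have the degree `d i`, and the zeros of `ψ i a` on the variety are
contained in the divisor `Q = 0`, in the sense that the form `ψ i a` divides a power of `Q` modulo
`p`. -/
structure EqSys (p : Ideal (MvPolynomial (Fin (n + 1)) F)) (Q : MvPolynomial (Fin (n + 1)) F)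
    (q : ℕ) {I : Type z} (s : I → ℕ) where
  N : I → ℕ
  ψ : (i : I) → Fin (s i) → MvPolynomial (Fin (n + 1)) F
  φ : (i : I) → Fin (s i) → MvPolynomial (Fin (n + 1)) F
  d : I → ℕ
  dψ : (i : I) → Fin (s i) → ℕ
  dφ : (i : I) → Fin (s i) → ℕ
  pos : ∀ i, 0 < N i
  large : ∀ i, (s i - 1) ^ 2 ≤ N i
  homψ : ∀ i a, (ψ i a).IsHomogeneous (dψ i a)
  homφ : ∀ i a, (φ i a).IsHomogeneous (dφ i a)
  deg : ∀ i a, dψ i a + N i * dφ i a = d i
  unit : ∀ i a, ∃ (χ : MvPolynomial (Fin (n + 1)) F) (e m : ℕ), χ.IsHomogeneous e ∧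
    dψ i a + e = m * q ∧ ψ i a * χ - Q ^ m ∈ p
  rel : ∀ i, ∑ a, ψ i a * φ i a ^ N i ∈ p

/-- The `a`-th term of the `i`-th equation, in the homogeneous coordinate ring. -/
noncomputable def EqSys.term {p : Ideal (MvPolynomial (Fin (n + 1)) F)} {Q : MvPolynomial (Fin (n + 1)) F}
    {q : ℕ} {I : Type z} {s : I → ℕ} (E : EqSys p Q q s) (i : I) (a : Fin (s i)) :
    MvPolynomial (Fin (n + 1)) F ⧸ p :=
  Ideal.Quotient.mk p (E.ψ i a * E.φ i a ^ E.N i)

open Classical in
/-- The system is rigid: whenever the terms of each equation are partitioned into blocks (the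
classes of the equivalence relation `R i`) with sum zero, the ratios `x_j / x_l` of the coordinates
are algebraic over the field generated over `F` by the ratios of the terms in the same block. -/
def EqSys.Rigid {p : Ideal (MvPolynomial (Fin (n + 1)) F)} [p.IsPrime]
    {Q : MvPolynomial (Fin (n + 1)) F} {q : ℕ} {I : Type z} {s : I → ℕ} (E : EqSys p Q q s) :
    Prop :=
  ∀ R : (i : I) → Fin (s i) → Fin (s i) → Prop, (∀ i, Equivalence (R i)) →
    (∀ i a, ∑ b ∈ Finset.univ.filter (R i a), E.term i b = 0) → ∀ j l : Fin (n + 1),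
      IsAlgebraic (IntermediateField.adjoin F (ratios E.term R))
        (algebraMap (MvPolynomial (Fin (n + 1)) F ⧸ p)
            (FractionRing (MvPolynomial (Fin (n + 1)) F ⧸ p)) (Ideal.Quotient.mk p (X j)) /
          algebraMap (MvPolynomial (Fin (n + 1)) F ⧸ p)
            (FractionRing (MvPolynomial (Fin (n + 1)) F ⧸ p)) (Ideal.Quotient.mk p (X l)))

end Pool.Agent.W603.PV
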