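import Mathlib

/-! Derivations of finitely generated field extensions, in characteristic zero. -/

set_option autoImplicit false

open Polynomial TensorProduct

namespace Pool.Agent.W603.PV

theorem exists_derivation {K E : Type*} [Field K] [Field E] [Algebra K E] [CharZero K]
    [Algebra.EssFiniteType K E] {z : E} (hz : Transcendental K z) :
    ∃ D : Derivation K E E, D z ≠ 0 := by
  have hinj : Function.Injective (aeval z : K[X] →ₐ[K] E) := transcendental_iff_injective.1 hz
  let _ : Algebra K[X] E := ((aeval z : K[X] →ₐ[K] E) : K[X] →+* E).toAlgebra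
  have hst : IsScalarTower K K[X] E := IsScalarTower.of_algebraMap_eq' (by
    ext c
    simp [RingHom.algebraMap_toAlgebra])
  have hfs : FaithfulSMul K[X] E := (faithfulSMul_iff_algebraMap_injective _ _).2 hinj
  let _ : Algebra (FractionRing K[X]) E := FractionRing.liftAlgebra K[X] E
  have hst2 : IsScalarTower K[X] (FractionRing K[X]) E := inferInstance
  have hst3 : IsScalarTower K (FractionRing K[X]) E := by
    apply IsScalarTower.of_algebraMap_eq'
    rw [IsScalarTower.algebraMap_eq K K[X] E, IsScalarTower.algebraMap_eq K[X] (FractionRing K[X]) E,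
      RingHom.comp_assoc, ← IsScalarTower.algebraMap_eq K K[X] (FractionRing K[X])]
  have hess : Algebra.EssFiniteType (FractionRing K[X]) E :=
    Algebra.EssFiniteType.of_comp K (FractionRing K[X]) E
  have hchar : CharZero (FractionRing K[X]) := inferInstance
  have h1 : Algebra.FormallySmooth (FractionRing K[X]) E := inferInstance
  have h2 : Algebra.FormallyEtale K[X] (FractionRing K[X]) :=
    Algebra.FormallyEtale.of_isLocalization (nonZeroDivisors K[X])
  have h2' : Algebra.FormallySmooth K[X] (FractionRing K[X]) := inferInstance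
  have h3 : Algebra.FormallySmooth K[X] E := Algebra.FormallySmooth.comp K[X] (FractionRing K[X]) E
  have h4 : Subsingleton (Algebra.H1Cotangent K[X] E) := h3.subsingleton_h1Cotangent
  -- the class of `dX` is not zero
  let l : Ω[K[X]⁄K] →ₗ[K[X]] E :=
    (Algebra.linearMap K[X] E).comp (KaehlerDifferential.polynomialEquiv K).toLinearMap
  let L : (E ⊗[K[X]] Ω[K[X]⁄K]) →ₗ[E] E := LinearMap.liftBaseChange E l
  set x : E ⊗[K[X]] Ω[K[X]⁄K] := 1 ⊗ₜ KaehlerDifferential.D K K[X] X with hx
  have hLx : L x = 1 := by
    rw [hx]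
    change LinearMap.liftBaseChange E l (1 ⊗ₜ KaehlerDifferential.D K K[X] X) = 1
    rw [LinearMap.liftBaseChange_tmul, one_smul]
    simp [l]
  have hx0 : x ≠ 0 := by
    intro h
    rw [h, map_zero] at hLx
    exact zero_ne_one hLx
  have h5 : KaehlerDifferential.mapBaseChange K K[X] E x ≠ 0 := by
    intro h
    obtain ⟨y, hy⟩ := (Algebra.H1Cotangent.exact_δ_mapBaseChange K K[X] E x).1 h
    rw [Subsingleton.elim y 0, map_zero] at hy
    exact hx0 hy.symm
  have h6 : KaehlerDifferential.mapBaseChange K K[X] E x = KaehlerDifferential.D K E z := by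
    rw [hx, KaehlerDifferential.mapBaseChange_tmul, one_smul, KaehlerDifferential.map_D]
    congr 1
    simp [RingHom.algebraMap_toAlgebra]
  rw [h6] at h5
  obtain ⟨φ, hφ⟩ : ∃ φ : Module.Dual E (Ω[E⁄K]), φ (KaehlerDifferential.D K E z) ≠ 0 := by
    by_contra hcon
    push Not at hcon
    exact h5 ((Module.forall_dual_apply_eq_zero_iff E _).1 hcon)
  exact ⟨φ.compDer (KaehlerDifferential.D K E), hφ⟩

end Pool.Agent.W603.PV
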