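import Pool.Agent.W603.PV.Ext

/-! Finite extensions of function fields: ramification, the discriminant, and the canonical degree. -/

set_option autoImplicit false

open FF Pool.Agent.W603.LV
open scoped IntermediateField TensorProduct

namespace Pool.Agent.W603.PV

universe u v w

variable {k : Type u} [Field k] {F : Type v} [Field F] [Algebra k F] {L : Type w} [Field L]
  [Algebra k L] [Algebra F L] [IsScalarTower k F L]

variable (F) in
/-- The ramification index over `F` of a place of the extension `L` of `F`: the least positive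
order of an element of `F`. -/
noncomputable def ram (P : Place k L) : ℕ :=
  sInf {m : ℕ | 0 < m ∧ ∃ x : F, P.ord (algebraMap F L x) = m}

section ram

variable [IsAlgClosed k] [CharZero k] [IsFF k F] [IsFF k L]

theorem exists_ord_pos (P : Place k L) : ∃ x : F, 0 < P.ord (algebraMap F L x) := by
  obtain ⟨t, ht⟩ := IsFF.exists_transcendental (k := k) (K := F)
  have ht' : Transcendental k (algebraMap F L t) :=
    (transcendental_algebraMap_iff (algebraMap F L).injective).2 ht
  by_cases h : P.ord (algebraMap F L t) < 0
  · refine ⟨t⁻¹, ?_⟩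
    rw [map_inv₀, P.ord_inv]
    omega
  · push Not at h
    obtain ⟨c, hc⟩ := exists_const P (Or.inr h : Ge P 0 (algebraMap F L t))
    have h6 : algebraMap F L t - algebraMap k L c ≠ 0 := by
      intro h
      rw [sub_eq_zero] at h
      exact ht' (h ▸ isAlgebraic_algebraMap c)
    have h7 := hc.resolve_left h6
    refine ⟨t - algebraMap k F c, ?_⟩
    rw [map_sub, ← IsScalarTower.algebraMap_apply k F L]
    omega

theorem ram_spec (P : Place k L) :
    0 < ram F P ∧ ∃ x : F, P.ord (algebraMap F L x) = ram F P := by
  have h : (ram F P) ∈ {m : ℕ | 0 < m ∧ ∃ x : F, P.ord (algebraMap F L x) = m} := by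
    refine Nat.sInf_mem ?_
    obtain ⟨x, hx⟩ := exists_ord_pos (F := F) P
    refine ⟨(P.ord (algebraMap F L x)).toNat, by omega, x, by omega⟩
  exact h

theorem ram_le (P : Place k L) {x : F} (hx : 0 < P.ord (algebraMap F L x)) :
    (ram F P : ℤ) ≤ P.ord (algebraMap F L x) := by
  have h : ram F P ≤ (P.ord (algebraMap F L x)).toNat :=
    Nat.sInf_le ⟨by omega, x, by omega⟩
  omega

theorem ram_dvd (P : Place k L) (x : F) : (ram F P : ℤ) ∣ P.ord (algebraMap F L x) := by
  by_cases hx : x = 0
  · rw [hx, map_zero, P.ord_zero]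
    exact dvd_zero _
  obtain ⟨h0, y, hy⟩ := ram_spec (F := F) P
  have hy0 : y ≠ 0 := by
    rintro rfl
    rw [map_zero, P.ord_zero] at hy
    omega
  have h0' : (0 : ℤ) < ram F P := by exact_mod_cast h0
  set m := P.ord (algebraMap F L x) with hm
  have h1 : P.ord (algebraMap F L (x * y ^ (-(m / ram F P)))) = m % ram F P := by
    rw [map_mul, map_zpow₀, P.ord_mul (by simpa using hx) (zpow_ne_zero _ (by simpa using hy0)),
      P.ord_zpow, hy, ← hm]
    have := Int.mul_ediv_add_emod m (ram F P)
    linarith
  have h2 := Int.emod_nonneg m h0'.ne'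
  have h3 := Int.emod_lt_of_pos m h0'
  by_contra hcon
  have h4 : 0 < m % ram F P := lt_of_le_of_ne h2 (fun h => hcon (Int.dvd_of_emod_eq_zero h.symm))
  have h5 := ram_le (F := F) P (x := x * y ^ (-(m / ram F P))) (by rw [h1]; exact h4)
  rw [h1] at h5
  omega

variable (F) in
/-- The place of `F` below a place of the extension `L`. -/
noncomputable def under (P : Place k L) : Place k F where
  ord x := P.ord (algebraMap F L x) / ram F P
  ord_zero := by rw [map_zero, P.ord_zero, Int.zero_ediv]
  ord_mul {f g} hf hg := by
    rw [map_mul, P.ord_mul (by simpa using hf) (by simpa using hg),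
      Int.add_ediv_of_dvd_left (ram_dvd P f)]
  ord_add {f g} hf hg hfg := by
    have h0 : (0 : ℤ) < ram F P := by exact_mod_cast (ram_spec (F := F) P).1
    have h1 := P.ord_add (f := algebraMap F L f) (g := algebraMap F L g) (by simpa using hf)
      (by simpa using hg) (by rw [← map_add, Ne, map_eq_zero]; exact hfg)
    rw [map_add]
    rcases min_le_iff.1 h1 with h | h
    · exact min_le_iff.2 (Or.inl (Int.ediv_le_ediv h0 h))
    · exact min_le_iff.2 (Or.inr (Int.ediv_le_ediv h0 h))
  ord_const {c} hc := by
    rw [← IsScalarTower.algebraMap_apply k F L, P.ord_const hc, Int.zero_ediv]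
  surj := by
    obtain ⟨h0, y, hy⟩ := ram_spec (F := F) P
    refine ⟨y, ?_, ?_⟩
    · rintro rfl
      rw [map_zero, P.ord_zero] at hy
      omega
    · rw [hy, Int.ediv_self (by omega)]

theorem ord_under (P : Place k L) (x : F) :
    P.ord (algebraMap F L x) = ram F P * (under F P).ord x :=
  (Int.mul_ediv_cancel' (ram_dvd P x)).symm

end ram

variable (k F L) in
/-- The degree of the discriminant (of the different) of the extension `L` of `F`: the sum of
`e - 1` over the places of `L`, where `e` is the ramification index over `F`. -/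
noncomputable def disc : ℤ := ∑ᶠ P : Place k L, ((ram F P : ℤ) - 1)

theorem exists_ext_der [CharZero F] [FiniteDimensional F L] (D : Derivation k F F) :
    ∃ D' : Derivation k L L, ∀ x, D' (algebraMap F L x) = algebraMap F L (D x) := by
  have hL : CharZero L := charZero_of_injective_algebraMap (algebraMap F L).injective
  have h1 : Algebra.FormallyEtale F L := Algebra.FormallyEtale.of_isSeparable F L
  let e := KaehlerDifferential.tensorKaehlerEquivOfFormallyEtale k F L
  let l : Ω[F⁄k] →ₗ[F] L := (Algebra.linearMap F L).comp D.liftKaehlerDifferential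
  let φ : Ω[L⁄k] →ₗ[L] L := (LinearMap.liftBaseChange L l).comp e.symm.toLinearMap
  refine ⟨φ.compDer (KaehlerDifferential.D k L), fun x => ?_⟩
  change (LinearMap.liftBaseChange L l) (e.symm (KaehlerDifferential.D k L (algebraMap F L x))) = _
  rw [KaehlerDifferential.tensorKaehlerEquivOfFormallyEtale_symm_D_algebraMap,
    LinearMap.liftBaseChange_tmul, one_smul]
  simp [l]

section canDeg

variable [IsAlgClosed k] [CharZero k] [IsFF k F] [IsFF k L]

theorem vo_under {D : Derivation k F F} (_hD : D ≠ 0) {D' : Derivation k L L} (hD' : D' ≠ 0)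
    (h : ∀ x, D' (algebraMap F L x) = algebraMap F L (D x)) (P : Place k L) :
    vo P D' = ram F P * vo (under F P) D - (ram F P - 1) := by
  set x := unif (under F P) with hx
  have h1 : P.ord (algebraMap F L x) = ram F P := by
    rw [ord_under, hx, ord_unif, mul_one]
  have h0 := (ram_spec (F := F) P).1
  have h2 := (ord_der P hD' (f := algebraMap F L x) (by rw [h1]; omega)).2
  rw [h, ord_under, h1] at h2
  unfold vo at h2 ⊢
  rw [← hx]
  linarith

/-- The ramification indices over a place have bounded sum. -/
theorem sum_ram_le [FiniteDimensional F L] (v : Place k F) {x : F} (hx : v.ord x = 1)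
    (T : Finset (Place k L)) (hT : ∀ P ∈ T, under F P = v) :
    ∑ P ∈ T, (ram F P : ℤ) ≤ Module.finrank F L * hgt k x := by
  classical
  have h1 : ∀ P ∈ T, P.ord (algebraMap F L x) = ram F P := by
    intro P hP
    rw [ord_under, hT P hP, hx, mul_one]
  obtain ⟨T0, hT0⟩ := exists_supp (k := k) (Finset.univ : Finset (Fin 1)) ![(algebraMap F L x)⁻¹]
  have h2 : ∀ P : Place k L, P.ord (algebraMap F L x)⁻¹ ≠ 0 → P ∈ T ∪ T0 := fun P hP =>
    Finset.mem_union_right _ (hT0 0 (Finset.mem_univ _) P hP)
  rw [← hgt_algebraMap (L := L) x, ← hgt_inv (algebraMap F L x), hgt_finset _ _ h2]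
  calc ∑ P ∈ T, (ram F P : ℤ) = ∑ P ∈ T, max (-P.ord (algebraMap F L x)⁻¹) 0 := by
        refine Finset.sum_congr rfl fun P hP => ?_
        rw [P.ord_inv, neg_neg, h1 P hP, max_eq_left (by positivity)]
    _ ≤ _ := Finset.sum_le_sum_of_subset_of_nonneg Finset.subset_union_left
        fun _ _ _ => le_max_right _ _

theorem finite_over (v : Place k F) : {P : Place k L | under F P = v}.Finite := by
  obtain ⟨x, hx0, hx⟩ := v.surj
  refine (finite_support (k := k) (algebraMap F L x)).subset ?_
  intro P hP
  have hP' : under F P = v := hP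
  rw [Set.mem_ofPred_eq, ord_under, hP', hx, mul_one]
  have := (ram_spec (F := F) P).1
  omega

theorem finite_over_set {V : Set (Place k F)} (hV : V.Finite) :
    {P : Place k L | under F P ∈ V}.Finite := by
  have h : {P : Place k L | under F P ∈ V} = ⋃ v ∈ V, {P : Place k L | under F P = v} := by
    ext P
    simp
  rw [h]
  exact hV.biUnion fun v _ => finite_over v

/-- The number of places over a finite set of places is bounded by a multiple of the degree. -/
theorem card_over_le [FiniteDimensional F L] (S : Finset (Place k F)) :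
    (({P : Place k L | under F P ∈ S}.ncard : ℕ) : ℤ) ≤
      Module.finrank F L * ∑ v ∈ S, hgt k (unif v) := by
  classical
  have hfin : {P : Place k L | under F P ∈ S}.Finite := finite_over_set (Finset.finite_toSet S)
  rw [Set.ncard_eq_toFinset_card _ hfin]
  set T := hfin.toFinset with hT
  have hmem : ∀ P ∈ T, under F P ∈ S := fun P hP => by simpa [hT] using hP
  rw [Finset.card_eq_sum_ones, ← Finset.sum_fiberwise_of_maps_to hmem, Finset.mul_sum]
  push_cast
  refine Finset.sum_le_sum fun v _ => ?_
  refine le_trans ?_ (sum_ram_le (L := L) v (ord_unif v) (T.filter fun P => under F P = v)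
    fun P hP => (Finset.mem_filter.1 hP).2)
  refine Finset.sum_le_sum fun P _ => ?_
  have := (ram_spec (F := F) P).1
  omega

theorem ram_finite [FiniteDimensional F L] : {P : Place k L | (ram F P : ℤ) - 1 ≠ 0}.Finite := by
  have hF : CharZero F := charZero_of_injective_algebraMap (algebraMap k F).injective
  obtain ⟨D, hD⟩ := exists_der (k := k) (K := F)
  obtain ⟨D', hDD'⟩ := exists_ext_der (L := L) D
  have hD' : D' ≠ 0 := by
    rintro rfl
    apply hD
    ext x
    have := hDD' x
    rw [Derivation.coe_zero, Pi.zero_apply, eq_comm, map_eq_zero] at this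
    rw [this]; rfl
  refine ((vo_finite hD').union (finite_over_set (vo_finite hD))).subset ?_
  intro P hP
  by_contra hcon
  rw [Set.mem_union, not_or, Set.mem_ofPred_eq, Set.mem_ofPred_eq, Set.mem_ofPred_eq, not_not,
    not_not] at hcon
  have h1 := vo_under hD hD' hDD' P
  rw [hcon.1, hcon.2] at h1
  exact hP (by linarith)

/-- The canonical degree of a finite extension is at most the degree of the discriminant plus a
constant multiple of the degree of the extension. -/
theorem canDeg_le_disc : ∃ C : ℕ, ∀ (L : Type w) [Field L] [Algebra k L] [Algebra F L]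
    [IsScalarTower k F L] [FiniteDimensional F L], canDeg k L ≤ disc k F L +
      C * Module.finrank F L := by
  classical
  have hF : CharZero F := charZero_of_injective_algebraMap (algebraMap k F).injective
  obtain ⟨D, hD⟩ := exists_der (k := k) (K := F)
  set V : Finset (Place k F) := (vo_finite hD).toFinset with hV
  have hVmem : ∀ v, vo v D ≠ 0 → v ∈ V := fun v hv => by simp [hV, hv]
  refine ⟨(∑ v ∈ V, |vo v D| * hgt k (unif v)).toNat, ?_⟩
  intro L _ _ _ _ _
  have hL : IsFF k L := isFF_of_finite (F := F)
  obtain ⟨D', hDD'⟩ := exists_ext_der (L := L) D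
  have hD' : D' ≠ 0 := by
    rintro rfl
    apply hD
    ext x
    have := hDD' x
    rw [Derivation.coe_zero, Pi.zero_apply, eq_comm, map_eq_zero] at this
    rw [this]; rfl
  set T : Finset (Place k L) := (vo_finite hD').toFinset ∪ (ram_finite (F := F)).toFinset ∪
    (finite_over_set (L := L) (vo_finite hD)).toFinset with hT
  have h1 := canDeg_finset hD' T fun P hP => by simp [hT, hP]
  have h2 : disc k F L = ∑ P ∈ T, ((ram F P : ℤ) - 1) := by
    unfold disc
    rw [finsum_eq_sum_of_support_subset (s := T)]
    intro P hP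
    have hP' : (ram F P : ℤ) - 1 ≠ 0 := hP
    simp only [hT, Finset.coe_union, Set.Finite.coe_toFinset, Set.mem_union, Set.mem_ofPred_eq]
    exact Or.inl (Or.inr hP')
  have h3 : canDeg k L = ∑ P ∈ T, ((ram F P : ℤ) - 1) -
      ∑ P ∈ T, (ram F P : ℤ) * vo (under F P) D := by
    rw [← Finset.sum_sub_distrib]
    have h4 : canDeg k L = - ∑ P ∈ T, vo P D' := by rw [h1, neg_neg]
    rw [h4, ← Finset.sum_neg_distrib]
    refine Finset.sum_congr rfl fun P _ => ?_
    rw [vo_under hD hD' hDD' P]
    ring
  have h5 : - ∑ P ∈ T, (ram F P : ℤ) * vo (under F P) D ≤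
      Module.finrank F L * ∑ v ∈ V, |vo v D| * hgt k (unif v) := by
    rw [← Finset.sum_neg_distrib]
    have h6 : ∑ P ∈ T, -((ram F P : ℤ) * vo (under F P) D) ≤
        ∑ P ∈ T.filter (fun P => under F P ∈ V), (ram F P : ℤ) * |vo (under F P) D| := by
      rw [Finset.sum_filter]
      refine Finset.sum_le_sum fun P _ => ?_
      split_ifs with h
      · have h7 := neg_abs_le (vo (under F P) D)
        have h8 : (0 : ℤ) ≤ ram F P := by positivity
        nlinarith
      · have h7 : vo (under F P) D = 0 := by
          by_contra hcon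
          exact h (hVmem _ hcon)
        rw [h7]; simp
    refine h6.trans ?_
    rw [← Finset.sum_fiberwise_of_maps_to (t := V) (g := fun P => under F P)
      (fun P hP => (Finset.mem_filter.1 hP).2), Finset.mul_sum]
    refine Finset.sum_le_sum fun v _ => ?_
    have h9 : ∑ P ∈ (T.filter (fun P => under F P ∈ V)).filter (fun P => under F P = v),
        (ram F P : ℤ) * |vo (under F P) D| = (∑ P ∈ (T.filter (fun P => under F P ∈ V)).filter
          (fun P => under F P = v), (ram F P : ℤ)) * |vo v D| := by
      rw [Finset.sum_mul]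
      refine Finset.sum_congr rfl fun P hP => ?_
      rw [(Finset.mem_filter.1 hP).2]
    rw [h9]
    have h10 := sum_ram_le (L := L) v (ord_unif v) ((T.filter (fun P => under F P ∈ V)).filter
      (fun P => under F P = v)) fun P hP => (Finset.mem_filter.1 hP).2
    have h11 := mul_le_mul_of_nonneg_right h10 (abs_nonneg (vo v D))
    linarith
  have h12 : (0 : ℤ) ≤ ∑ v ∈ V, |vo v D| * hgt k (unif v) :=
    Finset.sum_nonneg fun v _ => mul_nonneg (abs_nonneg _) (hgt_nonneg _)
  rw [Int.toNat_of_nonneg h12, h2, h3]
  linarith

end canDeg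

end Pool.Agent.W603.PV
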