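import Pool.Agent.W603.PV.Main
import Pool.Agent.W603.LV.Lin

/-! Varieties given by forms with few monomials that are high powers, over function fields. -/

set_option autoImplicit false

open FF MvPolynomial Pool.Agent.W603.LV

namespace Pool.Agent.W603.PV

universe u v w z

variable {F : Type v} [Field F] {n : ℕ}

/-- The diagonal one-parameter group `t ↦ diag (t ^ b 0, …, t ^ b n)` preserves the variety with the
ideal `p`: the ideal is homogeneous for the weights `b`. -/
def Stable (p : Ideal (MvPolynomial (Fin (n + 1)) F)) (b : Fin (n + 1) → ℤ) : Prop :=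
  ∀ H ∈ p, ∀ c : ℤ, weightedHomogeneousComponent b c H ∈ p

section stable

attribute [local instance] MvPolynomial.weightedGradedAlgebra

/-- A minimal prime ideal over an ideal generated by polynomials whose weighted components lie in
the prime ideal is homogeneous. -/
theorem stable_of_min {M : Type*} [AddCommMonoid M] [LinearOrder M] [IsOrderedCancelAddMonoid M]
    {ι : Type z} (Fs : ι → MvPolynomial (Fin (n + 1)) F)
    {p : Ideal (MvPolynomial (Fin (n + 1)) F)} (hp : p ∈ (Ideal.span (Set.range Fs)).minimalPrimes)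
    (b : Fin (n + 1) → M) (h : ∀ i c, weightedHomogeneousComponent b c (Fs i) ∈ p) :
    ∀ H ∈ p, ∀ c, weightedHomogeneousComponent b c H ∈ p := by
  have hpp : p.IsPrime := hp.1.1
  set q : Ideal (MvPolynomial (Fin (n + 1)) F) :=
    (p.homogeneousCore (weightedHomogeneousSubmodule F b)).toIdeal with hq
  have hqp : q ≤ p := Ideal.toIdeal_homogeneousCore_le _ _
  have hqprime : q.IsPrime := Ideal.IsPrime.homogeneousCore hpp
  have hle : Ideal.span (Set.range Fs) ≤ q := by
    rw [Ideal.span_le]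
    rintro _ ⟨i, rfl⟩
    rw [SetLike.mem_coe, ← sum_weightedHomogeneousComponent b (Fs i),
      finsum_eq_sum _ (weightedHomogeneousComponent_finsupp (Fs i))]
    refine Ideal.sum_mem _ fun c _ => ?_
    exact Ideal.mem_homogeneousCore_of_homogeneous_of_mem
      ⟨c, weightedHomogeneousComponent_mem b (Fs i) c⟩ (h i c)
  have hpq : p ≤ q := hp.2 ⟨hqprime, hle⟩ hqp
  have heq : p = q := le_antisymm hpq hqp
  intro H hH c
  rw [heq] at hH ⊢
  exact weightedHomogeneousComponent_mem_of_mem F b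
    (HomogeneousIdeal.isHomogeneous _) hH c

end stable

theorem isHomog_of_min {ι : Type z} (Fs : ι → MvPolynomial (Fin (n + 1)) F) {e : ι → ℕ}
    (hF : ∀ i, (Fs i).IsHomogeneous (e i))
    {p : Ideal (MvPolynomial (Fin (n + 1)) F)}
    (hp : p ∈ (Ideal.span (Set.range Fs)).minimalPrimes) : IsHomog p := by
  have h1 := stable_of_min Fs hp (1 : Fin (n + 1) → ℕ) (by
    intro i c
    have h2 : Fs i ∈ p := hp.1.2 (Ideal.subset_span ⟨i, rfl⟩)
    by_cases hc : c = e i
    · rw [hc, IsWeightedHomogeneous.weightedHomogeneousComponent_same (hF i)]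
      exact h2
    · rw [IsWeightedHomogeneous.weightedHomogeneousComponent_ne c (hF i) hc]
      exact zero_mem _)
  intro H hH d
  exact h1 H hH d

variable {ι : Type z}

/-- the exponents of the monomials -/
noncomputable def al (Fs : ι → MvPolynomial (Fin (n + 1)) F) (i : ι)
    (a : Fin (Fs i).support.card) : Fin (n + 1) →₀ ℕ := ((Fs i).support.equivFin.symm a : _)

theorem al_mem (Fs : ι → MvPolynomial (Fin (n + 1)) F) (i : ι) (a : Fin (Fs i).support.card) :
    al Fs i a ∈ (Fs i).support := ((Fs i).support.equivFin.symm a).2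

theorem sum_al {A : Type*} [AddCommMonoid A] (Fs : ι → MvPolynomial (Fin (n + 1)) F) (i : ι)
    (g : (Fin (n + 1) →₀ ℕ) → A) : ∑ a, g (al Fs i a) = ∑ α ∈ (Fs i).support, g α := by
  rw [← Finset.sum_coe_sort (Fs i).support g]
  exact Equiv.sum_comp (Fs i).support.equivFin.symm (fun x : (Fs i).support => g x)

theorem al_sum {Fs : ι → MvPolynomial (Fin (n + 1)) F} {e : ι → ℕ}
    (hF : ∀ i, (Fs i).IsHomogeneous (e i)) (i : ι) (a : Fin (Fs i).support.card) :
    ∑ j, al Fs i a j = e i := by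
  have := hF i (mem_support_iff.1 (al_mem Fs i a))
  rw [← this, Finsupp.weight_apply, Finsupp.sum_fintype _ _ (by simp)]
  simp

/-- the system of the monomials of the given forms -/
noncomputable def fewSystem (U : Finset (Fin (n + 1))) (Fs : ι → MvPolynomial (Fin (n + 1)) F)
    {e : ι → ℕ} (hF : ∀ i, (Fs i).IsHomogeneous (e i)) (N : ι → ℕ) (hN0 : ∀ i, 0 < N i)
    (hN : ∀ i, ((Fs i).support.card - 1) ^ 2 ≤ N i)
    (hdiv : ∀ i, ∀ α ∈ (Fs i).support, ∀ j, j ∉ U → N i ∣ α j)
    (p : Ideal (MvPolynomial (Fin (n + 1)) F)) (hp : ∀ i, Fs i ∈ p) :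
    EqSys p (∏ j ∈ U, X j) U.card (fun i => (Fs i).support.card) where
  N := N
  ψ i a := C ((Fs i).coeff (al Fs i a)) * ∏ j ∈ U, X j ^ al Fs i a j
  φ i a := ∏ j ∈ Uᶜ, X j ^ (al Fs i a j / N i)
  d := e
  dψ i a := ∑ j ∈ U, al Fs i a j
  dφ i a := ∑ j ∈ Uᶜ, al Fs i a j / N i
  pos := hN0
  large := hN
  homψ i a := by
    rw [← zero_add (∑ j ∈ U, al Fs i a j)]
    exact (isHomogeneous_C _ _).mul (IsHomogeneous.prod _ _ _ fun j _ => isHomogeneous_X_pow _ _)
  homφ i a := IsHomogeneous.prod _ _ _ fun j _ => isHomogeneous_X_pow _ _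
  deg i a := by
    rw [Finset.mul_sum, ← al_sum hF i a, ← Finset.sum_add_sum_compl U]
    congr 1
    refine Finset.sum_congr rfl fun j hj => ?_
    exact Nat.mul_div_cancel' (hdiv i _ (al_mem Fs i a) j (Finset.mem_compl.1 hj))
  unit i a := by
    have h0 : (Fs i).coeff (al Fs i a) ≠ 0 := mem_support_iff.1 (al_mem Fs i a)
    have hle : ∀ j, al Fs i a j ≤ e i := by
      intro j
      rw [← al_sum hF i a]
      exact Finset.single_le_sum (f := fun j => al Fs i a j) (fun _ _ => Nat.zero_le _)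
        (Finset.mem_univ j)
    refine ⟨C ((Fs i).coeff (al Fs i a))⁻¹ * ∏ j ∈ U, X j ^ (e i - al Fs i a j),
      ∑ j ∈ U, (e i - al Fs i a j), e i, ?_, ?_, ?_⟩
    · rw [← zero_add (∑ j ∈ U, (e i - al Fs i a j))]
      exact (isHomogeneous_C _ _).mul (IsHomogeneous.prod _ _ _ fun j _ => isHomogeneous_X_pow _ _)
    · rw [← Finset.sum_add_distrib, Finset.sum_congr rfl fun j _ => Nat.add_sub_cancel' (hle j),
        Finset.sum_const, smul_eq_mul, mul_comm]
    · have h1 : C ((Fs i).coeff (al Fs i a)) * (∏ j ∈ U, X j ^ al Fs i a j) *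
          (C ((Fs i).coeff (al Fs i a))⁻¹ * ∏ j ∈ U, X j ^ (e i - al Fs i a j)) =
          ((∏ j ∈ U, X j) ^ e i : MvPolynomial (Fin (n + 1)) F) := by
        have h2 : C ((Fs i).coeff (al Fs i a)) * (∏ j ∈ U, X j ^ al Fs i a j) *
          (C ((Fs i).coeff (al Fs i a))⁻¹ * ∏ j ∈ U, X j ^ (e i - al Fs i a j)) =
          (C ((Fs i).coeff (al Fs i a)) * C ((Fs i).coeff (al Fs i a))⁻¹) *
          ((∏ j ∈ U, X j ^ al Fs i a j) * ∏ j ∈ U, X j ^ (e i - al Fs i a j) :
            MvPolynomial (Fin (n + 1)) F) := by ring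
        rw [h2, ← C_mul, mul_inv_cancel₀ h0, C_1, one_mul, ← Finset.prod_mul_distrib,
          ← Finset.prod_pow]
        refine Finset.prod_congr rfl fun j _ => ?_
        rw [← pow_add, Nat.add_sub_cancel' (hle j)]
      rw [h1, sub_self]
      exact zero_mem _
  rel i := by
    have h1 : ∀ a, C ((Fs i).coeff (al Fs i a)) * (∏ j ∈ U, X j ^ al Fs i a j) *
        (∏ j ∈ Uᶜ, X j ^ (al Fs i a j / N i)) ^ N i =
        monomial (al Fs i a) ((Fs i).coeff (al Fs i a)) := by
      intro a
      rw [← Finset.prod_pow, mul_assoc, monomial_eq]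
      congr 1
      rw [Finsupp.prod_fintype _ _ (by simp), ← Finset.prod_mul_prod_compl U]
      congr 1
      refine Finset.prod_congr rfl fun j hj => ?_
      rw [← pow_mul, Nat.div_mul_cancel (hdiv i _ (al_mem Fs i a) j (Finset.mem_compl.1 hj))]
    rw [Finset.sum_congr rfl fun a _ => h1 a,
      sum_al Fs i (fun α => monomial α ((Fs i).coeff α)), ← as_sum]
    exact hp i

theorem fewSystem_term (U : Finset (Fin (n + 1))) (Fs : ι → MvPolynomial (Fin (n + 1)) F)
    {e : ι → ℕ} (hF : ∀ i, (Fs i).IsHomogeneous (e i)) (N : ι → ℕ) (hN0 : ∀ i, 0 < N i)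
    (hN : ∀ i, ((Fs i).support.card - 1) ^ 2 ≤ N i)
    (hdiv : ∀ i, ∀ α ∈ (Fs i).support, ∀ j, j ∉ U → N i ∣ α j)
    (p : Ideal (MvPolynomial (Fin (n + 1)) F)) (hp : ∀ i, Fs i ∈ p) (i : ι)
    (a : Fin (Fs i).support.card) :
    (fewSystem U Fs hF N hN0 hN hdiv p hp).term i a =
      Ideal.Quotient.mk p (monomial (al Fs i a) ((Fs i).coeff (al Fs i a))) := by
  unfold EqSys.term fewSystem
  simp only
  congr 1
  rw [← Finset.prod_pow, mul_assoc, monomial_eq]
  congr 1
  rw [Finsupp.prod_fintype _ _ (by simp), ← Finset.prod_mul_prod_compl U]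
  congr 1
  refine Finset.prod_congr rfl fun j hj => ?_
  rw [← pow_mul, Nat.div_mul_cancel (hdiv i _ (al_mem Fs i a) j (Finset.mem_compl.1 hj))]

section rigid

variable {p : Ideal (MvPolynomial (Fin (n + 1)) F)} [p.IsPrime]

/-- the coordinates, in the fraction field -/
noncomputable def xi (p : Ideal (MvPolynomial (Fin (n + 1)) F)) [p.IsPrime] (j : Fin (n + 1)) :
    FractionRing (MvPolynomial (Fin (n + 1)) F ⧸ p) :=
  algebraMap (MvPolynomial (Fin (n + 1)) F ⧸ p)
    (FractionRing (MvPolynomial (Fin (n + 1)) F ⧸ p)) (Ideal.Quotient.mk p (X j))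

theorem xi_ne (hX : ∀ j, X j ∉ p) (j : Fin (n + 1)) : xi p j ≠ 0 := by
  intro h
  apply hX j
  rw [← Ideal.Quotient.eq_zero_iff_mem]
  exact IsFractionRing.injective _ (FractionRing (MvPolynomial (Fin (n + 1)) F ⧸ p))
    (by rw [map_zero]; exact h)

theorem map_monomial (α : Fin (n + 1) →₀ ℕ) (c : F) :
    algebraMap (MvPolynomial (Fin (n + 1)) F ⧸ p)
      (FractionRing (MvPolynomial (Fin (n + 1)) F ⧸ p)) (Ideal.Quotient.mk p (monomial α c)) =
    algebraMap F (FractionRing (MvPolynomial (Fin (n + 1)) F ⧸ p)) c *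
      ∏ j, xi p j ^ (α j : ℤ) := by
  rw [monomial_eq, map_mul, map_mul, Finsupp.prod_fintype _ _ (by simp), map_prod, map_prod]
  congr 1
  refine Finset.prod_congr rfl fun j _ => ?_
  rw [map_pow, map_pow, zpow_natCast]
  rfl

open Classical in
theorem few_rigid [Finite ι] (U : Finset (Fin (n + 1))) (Fs : ι → MvPolynomial (Fin (n + 1)) F)
    {e : ι → ℕ} (hF : ∀ i, (Fs i).IsHomogeneous (e i)) (N : ι → ℕ) (hN0 : ∀ i, 0 < N i)
    (hN : ∀ i, ((Fs i).support.card - 1) ^ 2 ≤ N i)
    (hdiv : ∀ i, ∀ α ∈ (Fs i).support, ∀ j, j ∉ U → N i ∣ α j)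
    (hmin : p ∈ (Ideal.span (Set.range Fs)).minimalPrimes) (hp : ∀ i, Fs i ∈ p)
    (hX : ∀ j, X j ∉ p) (hst : ∀ b : Fin (n + 1) → ℤ, Stable p b → ∀ j l, b j = b l) :
    (fewSystem U Fs hF N hN0 hN hdiv p hp).Rigid := by
  have := Fintype.ofFinite ι
  intro R hR hR2
  set E := fewSystem U Fs hF N hN0 hN hdiv p hp with hE
  set K0 := IntermediateField.adjoin F (ratios E.term R) with hK0
  -- it is enough to treat the quotients by the first coordinate
  suffices hmain : ∀ j, IsAlgebraic K0 (xi p j / xi p 0) by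
    intro j l
    change IsAlgebraic K0 (xi p j / xi p l)
    have h1 : xi p j / xi p l = (xi p j / xi p 0) * (xi p l / xi p 0)⁻¹ := by
      have h2 := xi_ne hX 0
      have h3 := xi_ne hX l
      field_simp
    rw [h1]
    exact (hmain j).mul (hmain l).inv
  intro j
  by_cases hj0 : j = 0
  · rw [hj0, div_self (xi_ne hX 0)]
    exact isAlgebraic_one
  obtain ⟨Qs, hQs⟩ : ∃ Qs : Finset (Fin (n + 1) → ℤ), Qs = Finset.univ.biUnion fun i =>
      ((Finset.univ : Finset (Fin (Fs i).support.card × Fin (Fs i).support.card)).filter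
        fun ab => R i ab.1 ab.2).image fun ab l => (al Fs i ab.1 l : ℤ) - al Fs i ab.2 l := ⟨_, rfl⟩
  have hQmem : ∀ q, q ∈ Qs ↔ ∃ i a b, R i a b ∧ (fun l => (al Fs i a l : ℤ) - al Fs i b l) = q := by
    intro q
    rw [hQs, Finset.mem_biUnion]
    constructor
    · rintro ⟨i, -, h⟩
      obtain ⟨ab, hab, h⟩ := Finset.mem_image.1 h
      exact ⟨i, ab.1, ab.2, (Finset.mem_filter.1 hab).2, h⟩
    · rintro ⟨i, a, b, hab, h⟩
      exact ⟨i, Finset.mem_univ _, Finset.mem_image.2 ⟨(a, b), by simp [hab], h⟩⟩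
  have hterm : ∀ i a, algebraMap _ (FractionRing (MvPolynomial (Fin (n + 1)) F ⧸ p)) (E.term i a) =
      algebraMap F _ ((Fs i).coeff (al Fs i a)) * ∏ j, xi p j ^ (al Fs i a j : ℤ) := by
    intro i a
    rw [hE, fewSystem_term, map_monomial]
  have hcne : ∀ i a, algebraMap F (FractionRing (MvPolynomial (Fin (n + 1)) F ⧸ p))
      ((Fs i).coeff (al Fs i a)) ≠ 0 := by
    intro i a
    rw [Ne, map_eq_zero]
    exact mem_support_iff.1 (al_mem Fs i a)
  -- the monomials with exponents in `Qs`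
  have hmon : ∀ q ∈ Qs, ∏ l, xi p l ^ q l ∈ K0 := by
    intro q hq
    obtain ⟨i, a, b, hab, rfl⟩ := (hQmem q).1 hq
    have h1 : algebraMap _ (FractionRing (MvPolynomial (Fin (n + 1)) F ⧸ p)) (E.term i a) /
        algebraMap _ (FractionRing (MvPolynomial (Fin (n + 1)) F ⧸ p)) (E.term i b) ∈ K0 :=
      IntermediateField.subset_adjoin _ _ ⟨i, a, b, hab, rfl⟩
    have h2 : ∏ l, xi p l ^ ((al Fs i a l : ℤ) - al Fs i b l) =
        algebraMap F _ ((Fs i).coeff (al Fs i b)) * (algebraMap F _ ((Fs i).coeff (al Fs i a)))⁻¹ *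
        (algebraMap _ (FractionRing (MvPolynomial (Fin (n + 1)) F ⧸ p)) (E.term i a) /
        algebraMap _ (FractionRing (MvPolynomial (Fin (n + 1)) F ⧸ p)) (E.term i b)) := by
      rw [hterm, hterm]
      have h3 := hcne i a
      have h4 := hcne i b
      have h5 : ∏ l, xi p l ^ ((al Fs i a l : ℤ) - al Fs i b l) =
          (∏ l, xi p l ^ (al Fs i a l : ℤ)) / ∏ l, xi p l ^ (al Fs i b l : ℤ) := by
        rw [← Finset.prod_div_distrib]
        exact Finset.prod_congr rfl fun l _ => zpow_sub₀ (xi_ne hX l) _ _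
      have h6 : ∏ l, xi p l ^ (al Fs i b l : ℤ) ≠ 0 :=
        Finset.prod_ne_zero_iff.2 fun l _ => zpow_ne_zero _ (xi_ne hX l)
      rw [h5]
      field_simp
    rw [h2]
    exact mul_mem (mul_mem (IntermediateField.algebraMap_mem _ _)
      (inv_mem (IntermediateField.algebraMap_mem _ _))) h1
  rcases dich {0} Qs j with ⟨d, c, hd, hc⟩ | ⟨b, hbj, hb0, hbQ⟩
  · -- a power of the quotient is in the field
    have hsum0 : ∀ q ∈ Qs, ∑ l, q l = 0 := by
      intro q hq
      obtain ⟨i, a, b, hab, rfl⟩ := (hQmem q).1 hq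
      have h1 := al_sum hF i a
      have h2 := al_sum hF i b
      rw [Finset.sum_sub_distrib]
      have h3 : (∑ l, (al Fs i a l : ℤ)) = e i := by exact_mod_cast h1
      have h4 : (∑ l, (al Fs i b l : ℤ)) = e i := by exact_mod_cast h2
      rw [h3, h4, sub_self]
    have hc0 : ∑ q ∈ Qs, c q * q 0 = -(d : ℤ) := by
      have h1 : ∑ l, ∑ q ∈ Qs, c q * q l = 0 := by
        rw [Finset.sum_comm]
        refine Finset.sum_eq_zero fun q hq => ?_
        rw [← Finset.mul_sum, hsum0 q hq, mul_zero]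
      rw [← Finset.add_sum_erase _ _ (Finset.mem_univ (0 : Fin (n + 1)))] at h1
      have h2 : ∑ l ∈ Finset.univ.erase (0 : Fin (n + 1)), ∑ q ∈ Qs, c q * q l = d := by
        rw [Finset.sum_congr rfl fun l hl => hc l (by
          rw [Finset.mem_singleton]; exact (Finset.mem_erase.1 hl).1), Finset.sum_ite_eq', if_pos]
        exact Finset.mem_erase.2 ⟨hj0, Finset.mem_univ _⟩
      linarith
    have hpow : (xi p j / xi p 0) ^ d = ∏ q ∈ Qs, (∏ l, xi p l ^ q l) ^ c q := by
      have h2 : ∀ q ∈ Qs, (∏ l, xi p l ^ q l) ^ c q = ∏ l, xi p l ^ (c q * q l) := by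
        intro q _
        rw [← Finset.prod_zpow]
        refine Finset.prod_congr rfl fun l _ => ?_
        rw [← zpow_mul, mul_comm]
      rw [Finset.prod_congr rfl h2, Finset.prod_comm]
      have h3 : ∀ l, ∏ q ∈ Qs, xi p l ^ (c q * q l) = xi p l ^ (∑ q ∈ Qs, c q * q l) := by
        intro l
        have h4 : ∀ s : Finset (Fin (n + 1) → ℤ), ∏ q ∈ s, xi p l ^ (c q * q l) =
            xi p l ^ (∑ q ∈ s, c q * q l) := by
          intro s
          induction s using Finset.induction_on with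
          | empty => simp
          | insert a s ha ih =>
            rw [Finset.prod_insert ha, Finset.sum_insert ha, zpow_add₀ (xi_ne hX l), ih]
        exact h4 Qs
      rw [Finset.prod_congr rfl fun l _ => h3 l,
        ← Finset.mul_prod_erase _ _ (Finset.mem_univ (0 : Fin (n + 1))), hc0,
        ← Finset.mul_prod_erase _ _ (Finset.mem_erase.2 ⟨hj0, Finset.mem_univ j⟩),
        hc j (by rw [Finset.mem_singleton]; exact hj0), if_pos rfl, Finset.prod_eq_one, div_pow]
      · rw [zpow_neg, zpow_natCast, mul_one, div_eq_inv_mul]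
        simp
      · intro l hl
        have h5 := Finset.mem_erase.1 hl
        have h6 := Finset.mem_erase.1 h5.2
        rw [hc l (by rw [Finset.mem_singleton]; exact h6.1), if_neg h5.1, zpow_zero]
    have hmem : (xi p j / xi p 0) ^ d ∈ K0 := by
      rw [hpow]
      exact prod_mem fun q hq => zpow_mem (hmon q hq) _
    have h7 : IsAlgebraic K0 ((xi p j / xi p 0) ^ d) := by
      have := isAlgebraic_algebraMap (R := K0)
        (A := FractionRing (MvPolynomial (Fin (n + 1)) F ⧸ p)) ⟨_, hmem⟩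
      exact this
    exact h7.of_pow hd
  · -- the ideal is homogeneous for the weights `b`
    exfalso
    apply hbj
    rw [← hb0 0 (Finset.mem_singleton_self 0)]
    refine hst b ?_ j 0
    refine stable_of_min Fs hmin b fun i v => ?_
    rw [← Ideal.Quotient.eq_zero_iff_mem]
    have h1 : weightedHomogeneousComponent b v (Fs i) =
        ∑ a, if Finsupp.weight b (al Fs i a) = v then
          monomial (al Fs i a) ((Fs i).coeff (al Fs i a)) else 0 := by
      rw [sum_al Fs i (fun α => if Finsupp.weight b α = v then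
        monomial α ((Fs i).coeff α) else 0), ← Finset.sum_filter,
        weightedHomogeneousComponent_apply]
    rw [h1, map_sum]
    have h2 : ∀ a, (Ideal.Quotient.mk p) (if Finsupp.weight b (al Fs i a) = v then
          monomial (al Fs i a) ((Fs i).coeff (al Fs i a)) else 0) =
        if Finsupp.weight b (al Fs i a) = v then E.term i a else 0 := by
      intro a
      split_ifs
      · rw [hE, fewSystem_term]
      · rw [map_zero]
    rw [Finset.sum_congr rfl fun a _ => h2 a, ← Finset.sum_filter]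
    have hw : ∀ a a', R i a a' → Finsupp.weight b (al Fs i a) = Finsupp.weight b (al Fs i a') := by
      intro a a' h
      have h3 := hbQ _ ((hQmem _).2 ⟨i, a, a', h, rfl⟩)
      rw [Finsupp.weight_apply, Finsupp.weight_apply, Finsupp.sum_fintype _ _ (by simp),
        Finsupp.sum_fintype _ _ (by simp), ← sub_eq_zero, ← h3, ← Finset.sum_sub_distrib]
      refine Finset.sum_congr rfl fun l _ => ?_
      rw [nsmul_eq_mul, nsmul_eq_mul]
      ring
    set A : Finset (Fin (Fs i).support.card) :=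
      Finset.univ.filter fun a => Finsupp.weight b (al Fs i a) = v with hA
    let σ : Setoid (Fin (Fs i).support.card) := ⟨R i, hR i⟩
    rw [← Finset.sum_fiberwise_of_maps_to (s := A) (t := A.image (Quotient.mk σ))
      (g := Quotient.mk σ) (fun α hα => Finset.mem_image_of_mem _ hα)]
    refine Finset.sum_eq_zero fun c hc => ?_
    rw [Finset.mem_image] at hc
    obtain ⟨a0, ha0, rfl⟩ := hc
    rw [← hR2 i a0]
    refine Finset.sum_congr ?_ fun _ _ => rfl
    ext a
    simp only [Finset.mem_filter, Finset.mem_univ, true_and]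
    constructor
    · rintro ⟨-, h⟩
      exact (hR i).symm (Quotient.exact h)
    · intro h
      refine ⟨?_, Quotient.sound ((hR i).symm h)⟩
      rw [hA, Finset.mem_filter] at ha0 ⊢
      exact ⟨Finset.mem_univ _, by rw [← hw a0 a h]; exact ha0.2⟩

end rigid

end Pool.Agent.W603.PV
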