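import Pool.Agent.W603.PV.FewMain

/-! Varieties given by forms with few monomials that are high powers, possibly contained in some
coordinate hyperplanes. -/

set_option autoImplicit false

open FF MvPolynomial Pool.Agent.W603.LV

namespace Pool.Agent.W603.PV

universe u v w z

variable {F : Type v} [Field F] {n : ℕ}

section rigid

variable {ι : Type z} {p : Ideal (MvPolynomial (Fin (n + 1)) F)} [p.IsPrime]

theorem xi_ne' {j : Fin (n + 1)} (hX : X j ∉ p) : xi p j ≠ 0 := by
  intro h
  apply hX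
  rw [← Ideal.Quotient.eq_zero_iff_mem]
  exact IsFractionRing.injective _ (FractionRing (MvPolynomial (Fin (n + 1)) F ⧸ p))
    (by rw [map_zero]; exact h)

theorem not_mem_of_xi {j : Fin (n + 1)} (h : xi p j ≠ 0) : X j ∉ p := by
  intro hX
  apply h
  unfold xi
  rw [Ideal.Quotient.eq_zero_iff_mem.2 hX, map_zero]

open Classical in
theorem few_rigid_gen [Finite ι] (U : Finset (Fin (n + 1)))
    (Fs : ι → MvPolynomial (Fin (n + 1)) F)
    {e : ι → ℕ} (hF : ∀ i, (Fs i).IsHomogeneous (e i)) (N : ι → ℕ) (hN0 : ∀ i, 0 < N i)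
    (hN : ∀ i, ((Fs i).support.card - 1) ^ 2 ≤ N i)
    (hdiv : ∀ i, ∀ α ∈ (Fs i).support, ∀ j, j ∉ U → N i ∣ α j)
    (hmin : p ∈ (Ideal.span (Set.range Fs)).minimalPrimes) (hp : ∀ i, Fs i ∈ p)
    {l0 : Fin (n + 1)} (hl0 : X l0 ∉ p)
    (hst : ∀ b : Fin (n + 1) → ℤ, Stable p b → ∀ j l, X j ∉ p → X l ∉ p → b j = b l) :
    (fewSystem U Fs hF N hN0 hN hdiv p hp).Rigid := by
  have := Fintype.ofFinite ι
  intro R hR hR2
  set E := fewSystem U Fs hF N hN0 hN hdiv p hp with hE
  set K0 := IntermediateField.adjoin F (ratios E.term R) with hK0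
  have hl0' := xi_ne' hl0
  -- it is enough to treat the quotients by the coordinate `l0`
  suffices hmain : ∀ j, IsAlgebraic K0 (xi p j / xi p l0) by
    intro j l
    change IsAlgebraic K0 (xi p j / xi p l)
    have h1 : xi p j / xi p l = (xi p j / xi p l0) * (xi p l / xi p l0)⁻¹ := by
      by_cases hl : xi p l = 0
      · rw [hl]; simp
      · field_simp
    rw [h1]
    exact (hmain j).mul (hmain l).inv
  intro j
  by_cases hj0 : j = l0
  · rw [hj0, div_self hl0']
    exact isAlgebraic_one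
  by_cases hxj : xi p j = 0
  · rw [hxj, zero_div]
    exact isAlgebraic_zero
  obtain ⟨y, hy⟩ : ∃ y : Fin (n + 1) → FractionRing (MvPolynomial (Fin (n + 1)) F ⧸ p),
      y = fun l => if xi p l = 0 then 1 else xi p l := ⟨_, rfl⟩
  have hy0 : ∀ l, y l ≠ 0 := by
    intro l
    rw [hy]
    dsimp only
    split_ifs with h
    · exact one_ne_zero
    · exact h
  have hyj : y j = xi p j := by rw [hy]; exact if_neg hxj
  have hyl0 : y l0 = xi p l0 := by rw [hy]; exact if_neg hl0'
  obtain ⟨Qs, hQs⟩ : ∃ Qs : Finset (Fin (n + 1) → ℤ), Qs = Finset.univ.biUnion fun i =>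
      ((Finset.univ : Finset (Fin (Fs i).support.card × Fin (Fs i).support.card)).filter
        fun ab => R i ab.1 ab.2 ∧ E.term i ab.1 ≠ 0 ∧ E.term i ab.2 ≠ 0).image
        fun ab l => (al Fs i ab.1 l : ℤ) - al Fs i ab.2 l := ⟨_, rfl⟩
  have hQmem : ∀ q, q ∈ Qs ↔ ∃ i a b, (R i a b ∧ E.term i a ≠ 0 ∧ E.term i b ≠ 0) ∧
      (fun l => (al Fs i a l : ℤ) - al Fs i b l) = q := by
    intro q
    rw [hQs, Finset.mem_biUnion]
    constructor
    · rintro ⟨i, -, h⟩
      obtain ⟨ab, hab, h⟩ := Finset.mem_image.1 h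
      exact ⟨i, ab.1, ab.2, (Finset.mem_filter.1 hab).2, h⟩
    · rintro ⟨i, a, b, hab, h⟩
      exact ⟨i, Finset.mem_univ _, Finset.mem_image.2
        ⟨(a, b), Finset.mem_filter.2 ⟨Finset.mem_univ _, hab⟩, h⟩⟩
  have hinj : Function.Injective (algebraMap (MvPolynomial (Fin (n + 1)) F ⧸ p)
      (FractionRing (MvPolynomial (Fin (n + 1)) F ⧸ p))) := IsFractionRing.injective _ _
  have hterm : ∀ i a, E.term i a ≠ 0 →
      algebraMap _ (FractionRing (MvPolynomial (Fin (n + 1)) F ⧸ p)) (E.term i a) =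
      algebraMap F _ ((Fs i).coeff (al Fs i a)) * ∏ j, y j ^ (al Fs i a j : ℤ) := by
    intro i a ha
    have h1 : algebraMap _ (FractionRing (MvPolynomial (Fin (n + 1)) F ⧸ p)) (E.term i a) =
      algebraMap F _ ((Fs i).coeff (al Fs i a)) * ∏ j, xi p j ^ (al Fs i a j : ℤ) := by
      rw [hE, fewSystem_term, map_monomial]
    have h2 : algebraMap _ (FractionRing (MvPolynomial (Fin (n + 1)) F ⧸ p)) (E.term i a) ≠ 0 := by
      rw [Ne, ← map_zero (algebraMap (MvPolynomial (Fin (n + 1)) F ⧸ p)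
        (FractionRing (MvPolynomial (Fin (n + 1)) F ⧸ p)))]
      exact fun h => ha (hinj h)
    rw [h1] at h2 ⊢
    congr 1
    refine Finset.prod_congr rfl fun l _ => ?_
    by_cases hl : xi p l = 0
    · have h3 := Finset.prod_ne_zero_iff.1 (right_ne_zero_of_mul h2) l (Finset.mem_univ l)
      have h4 : (al Fs i a l : ℤ) = 0 := by
        by_contra hcon
        apply h3
        rw [hl]
        exact zero_zpow _ hcon
      rw [h4, zpow_zero, zpow_zero]
    · rw [hy]
      dsimp only
      rw [if_neg hl]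
  have hcne : ∀ i a, algebraMap F (FractionRing (MvPolynomial (Fin (n + 1)) F ⧸ p))
      ((Fs i).coeff (al Fs i a)) ≠ 0 := by
    intro i a
    rw [Ne, map_eq_zero]
    exact mem_support_iff.1 (al_mem Fs i a)
  -- the monomials with exponents in `Qs`
  have hmon : ∀ q ∈ Qs, ∏ l, y l ^ q l ∈ K0 := by
    intro q hq
    obtain ⟨i, a, b, ⟨hab, ha, hb⟩, rfl⟩ := (hQmem q).1 hq
    have h1 : algebraMap _ (FractionRing (MvPolynomial (Fin (n + 1)) F ⧸ p)) (E.term i a) /
        algebraMap _ (FractionRing (MvPolynomial (Fin (n + 1)) F ⧸ p)) (E.term i b) ∈ K0 :=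
      IntermediateField.subset_adjoin _ _ ⟨i, a, b, hab, rfl⟩
    have h2 : ∏ l, y l ^ ((al Fs i a l : ℤ) - al Fs i b l) =
        algebraMap F _ ((Fs i).coeff (al Fs i b)) * (algebraMap F _ ((Fs i).coeff (al Fs i a)))⁻¹ *
        (algebraMap _ (FractionRing (MvPolynomial (Fin (n + 1)) F ⧸ p)) (E.term i a) /
        algebraMap _ (FractionRing (MvPolynomial (Fin (n + 1)) F ⧸ p)) (E.term i b)) := by
      rw [hterm i a ha, hterm i b hb]
      have h3 := hcne i a
      have h4 := hcne i b
      have h5 : ∏ l, y l ^ ((al Fs i a l : ℤ) - al Fs i b l) =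
          (∏ l, y l ^ (al Fs i a l : ℤ)) / ∏ l, y l ^ (al Fs i b l : ℤ) := by
        rw [← Finset.prod_div_distrib]
        exact Finset.prod_congr rfl fun l _ => zpow_sub₀ (hy0 l) _ _
      have h6 : ∏ l, y l ^ (al Fs i b l : ℤ) ≠ 0 :=
        Finset.prod_ne_zero_iff.2 fun l _ => zpow_ne_zero _ (hy0 l)
      rw [h5]
      field_simp
    rw [h2]
    exact mul_mem (mul_mem (IntermediateField.algebraMap_mem _ _)
      (inv_mem (IntermediateField.algebraMap_mem _ _))) h1
  rcases dich {l0} Qs j with ⟨d, c, hd, hc⟩ | ⟨b, hbj, hb0, hbQ⟩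
  · -- a power of the quotient is in the field
    have hsum0 : ∀ q ∈ Qs, ∑ l, q l = 0 := by
      intro q hq
      obtain ⟨i, a, b, hab, rfl⟩ := (hQmem q).1 hq
      have h1 := al_sum hF i a
      have h2 := al_sum hF i b
      rw [Finset.sum_sub_distrib]
      have h3 : (∑ l, (al Fs i a l : ℤ)) = e i := by exact_mod_cast h1
      have h4 : (∑ l, (al Fs i b l : ℤ)) = e i := by exact_mod_cast h2
      rw [h3, h4, sub_self]
    have hc0 : ∑ q ∈ Qs, c q * q l0 = -(d : ℤ) := by
      have h1 : ∑ l, ∑ q ∈ Qs, c q * q l = 0 := by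
        rw [Finset.sum_comm]
        refine Finset.sum_eq_zero fun q hq => ?_
        rw [← Finset.mul_sum, hsum0 q hq, mul_zero]
      rw [← Finset.add_sum_erase _ _ (Finset.mem_univ l0)] at h1
      have h2 : ∑ l ∈ Finset.univ.erase l0, ∑ q ∈ Qs, c q * q l = d := by
        rw [Finset.sum_congr rfl fun l hl => hc l (by
          rw [Finset.mem_singleton]; exact (Finset.mem_erase.1 hl).1), Finset.sum_ite_eq', if_pos]
        exact Finset.mem_erase.2 ⟨hj0, Finset.mem_univ _⟩
      linarith
    have hpow : (y j / y l0) ^ d = ∏ q ∈ Qs, (∏ l, y l ^ q l) ^ c q := by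
      have h2 : ∀ q ∈ Qs, (∏ l, y l ^ q l) ^ c q = ∏ l, y l ^ (c q * q l) := by
        intro q _
        rw [← Finset.prod_zpow]
        refine Finset.prod_congr rfl fun l _ => ?_
        rw [← zpow_mul, mul_comm]
      rw [Finset.prod_congr rfl h2, Finset.prod_comm]
      have h3 : ∀ l, ∏ q ∈ Qs, y l ^ (c q * q l) = y l ^ (∑ q ∈ Qs, c q * q l) := by
        intro l
        have h4 : ∀ s : Finset (Fin (n + 1) → ℤ), ∏ q ∈ s, y l ^ (c q * q l) =
            y l ^ (∑ q ∈ s, c q * q l) := by
          intro s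
          induction s using Finset.induction_on with
          | empty => simp
          | insert a s ha ih =>
            rw [Finset.prod_insert ha, Finset.sum_insert ha, zpow_add₀ (hy0 l), ih]
        exact h4 Qs
      rw [Finset.prod_congr rfl fun l _ => h3 l,
        ← Finset.mul_prod_erase _ _ (Finset.mem_univ l0), hc0,
        ← Finset.mul_prod_erase _ _ (Finset.mem_erase.2 ⟨hj0, Finset.mem_univ j⟩),
        hc j (by rw [Finset.mem_singleton]; exact hj0), if_pos rfl, Finset.prod_eq_one, div_pow]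
      · rw [zpow_neg, zpow_natCast, mul_one, div_eq_inv_mul]
        simp
      · intro l hl
        have h5 := Finset.mem_erase.1 hl
        have h6 := Finset.mem_erase.1 h5.2
        rw [hc l (by rw [Finset.mem_singleton]; exact h6.1), if_neg h5.1, zpow_zero]
    have hmem : (y j / y l0) ^ d ∈ K0 := by
      rw [hpow]
      exact prod_mem fun q hq => zpow_mem (hmon q hq) _
    have h7 : IsAlgebraic K0 ((y j / y l0) ^ d) := by
      have := isAlgebraic_algebraMap (R := K0)
        (A := FractionRing (MvPolynomial (Fin (n + 1)) F ⧸ p)) ⟨_, hmem⟩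
      exact this
    rw [hyj, hyl0] at h7
    exact h7.of_pow hd
  · -- the ideal is homogeneous for the weights `b`
    exfalso
    apply hbj
    rw [← hb0 l0 (Finset.mem_singleton_self l0)]
    refine hst b ?_ j l0 (not_mem_of_xi hxj) hl0
    refine stable_of_min Fs hmin b fun i v => ?_
    rw [← Ideal.Quotient.eq_zero_iff_mem]
    have h1 : weightedHomogeneousComponent b v (Fs i) =
        ∑ a, if Finsupp.weight b (al Fs i a) = v then
          monomial (al Fs i a) ((Fs i).coeff (al Fs i a)) else 0 := by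
      rw [sum_al Fs i (fun α => if Finsupp.weight b α = v then
        monomial α ((Fs i).coeff α) else 0), ← Finset.sum_filter,
        weightedHomogeneousComponent_apply]
    rw [h1, map_sum]
    have h2 : ∀ a, (Ideal.Quotient.mk p) (if Finsupp.weight b (al Fs i a) = v then
          monomial (al Fs i a) ((Fs i).coeff (al Fs i a)) else 0) =
        if Finsupp.weight b (al Fs i a) = v ∧ E.term i a ≠ 0 then E.term i a else 0 := by
      intro a
      by_cases hw : Finsupp.weight b (al Fs i a) = v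
      · rw [if_pos hw]
        by_cases ht : E.term i a = 0
        · rw [if_neg (by tauto), ← ht, hE, fewSystem_term]
        · rw [if_pos ⟨hw, ht⟩, hE, fewSystem_term]
      · rw [if_neg hw, if_neg (by tauto), map_zero]
    rw [Finset.sum_congr rfl fun a _ => h2 a, ← Finset.sum_filter]
    have hw : ∀ a a', R i a a' → E.term i a ≠ 0 → E.term i a' ≠ 0 →
        Finsupp.weight b (al Fs i a) = Finsupp.weight b (al Fs i a') := by
      intro a a' h ha ha'
      have h3 := hbQ _ ((hQmem _).2 ⟨i, a, a', ⟨h, ha, ha'⟩, rfl⟩)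
      rw [Finsupp.weight_apply, Finsupp.weight_apply, Finsupp.sum_fintype _ _ (by simp),
        Finsupp.sum_fintype _ _ (by simp), ← sub_eq_zero, ← h3, ← Finset.sum_sub_distrib]
      refine Finset.sum_congr rfl fun l _ => ?_
      rw [nsmul_eq_mul, nsmul_eq_mul]
      ring
    set A : Finset (Fin (Fs i).support.card) :=
      Finset.univ.filter fun a => Finsupp.weight b (al Fs i a) = v ∧ E.term i a ≠ 0 with hA
    let σ : Setoid (Fin (Fs i).support.card) := ⟨R i, hR i⟩
    rw [← Finset.sum_fiberwise_of_maps_to (s := A) (t := A.image (Quotient.mk σ))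
      (g := Quotient.mk σ) (fun α hα => Finset.mem_image_of_mem _ hα)]
    refine Finset.sum_eq_zero fun c hc => ?_
    rw [Finset.mem_image] at hc
    obtain ⟨a0, ha0, rfl⟩ := hc
    rw [← hR2 i a0]
    refine Finset.sum_subset ?_ ?_
    · intro a ha
      rw [Finset.mem_filter] at ha ⊢
      exact ⟨Finset.mem_univ _, (hR i).symm (Quotient.exact ha.2)⟩
    · intro a ha hna
      by_contra hcon
      apply hna
      rw [Finset.mem_filter] at ha ⊢
      refine ⟨?_, Quotient.sound ((hR i).symm ha.2)⟩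
      rw [hA, Finset.mem_filter] at ha0 ⊢
      exact ⟨Finset.mem_univ _, by rw [← hw a0 a ha.2 ha0.2.2 hcon]; exact ha0.2.1, hcon⟩

end rigid

variable {k : Type u} [Field k] {ι : Type z} {p : Ideal (MvPolynomial (Fin (n + 1)) F)}

theorem meets_subset_gen [CharZero k] {L : Type w} [Field L] [Algebra k L] [IsFF k L] [Algebra F L]
    (U : Finset (Fin (n + 1))) {f : Fin (n + 1) → L} (hf : ∀ j ∈ U, f j ≠ 0) :
    meets (k := k) (∏ j ∈ U, X j : MvPolynomial (Fin (n + 1)) F) U.card f ⊆
      boundary (k := k) U f := by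
  intro P hP
  by_contra hcon
  unfold boundary at hcon
  rw [Set.mem_ofPred_eq] at hcon
  push Not at hcon
  have h1 : (U.card : ℤ) * pord P f < P.ord (aeval f (∏ j ∈ U, X j : MvPolynomial _ F)) := hP
  have h2 : P.ord (aeval f (∏ j ∈ U, X j : MvPolynomial _ F)) = ∑ j ∈ U, P.ord (f j) := by
    rw [map_prod]
    simp only [aeval_X]
    have h3 : ∀ s : Finset (Fin (n + 1)), s ⊆ U → P.ord (∏ l ∈ s, f l) = ∑ l ∈ s, P.ord (f l) := by
      intro s
      classical
      induction s using Finset.induction_on with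
      | empty => intro _; simpa using P.ord_one
      | insert a s ha ih =>
        intro hs
        rw [Finset.prod_insert ha, Finset.sum_insert ha, P.ord_mul
          (hf a (hs (Finset.mem_insert_self a s)))
          (Finset.prod_ne_zero_iff.2 fun l hl => hf l (hs (Finset.mem_insert_of_mem hl))),
          ih fun l hl => hs (Finset.mem_insert_of_mem hl)]
    exact h3 U le_rfl
  have h3 : ∑ j ∈ U, P.ord (f j) ≤ U.card * pord P f := by
    rw [← nsmul_eq_mul, ← Finset.sum_const]
    exact Finset.sum_le_sum fun j hj => hcon j hj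
  rw [h2] at h1
  exact absurd h1 (not_lt.2 h3)

/-- The height bound, for varieties possibly contained in some coordinate hyperplanes. -/
theorem few_homog_gen [IsAlgClosed k] [CharZero k] [Finite ι] (U : Finset (Fin (n + 1)))
    (Fs : ι → MvPolynomial (Fin (n + 1)) F) {e : ι → ℕ} (hF : ∀ i, (Fs i).IsHomogeneous (e i))
    (hC : ∀ i, HighPowers U (Fs i).support)
    (hmin : p ∈ (Ideal.span (Set.range Fs)).minimalPrimes) (hU : ∀ j ∈ U, X j ∉ p)
    (hx : ∃ j, X j ∉ p)
    (hst : ∀ b : Fin (n + 1) → ℤ, Stable p b → ∀ j l, X j ∉ p → X l ∉ p → b j = b l) :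
    ∃ (d : ℕ) (G : MvPolynomial (Fin (n + 1)) F), G.IsHomogeneous d ∧ G ∉ p ∧
      ∃ (B : ℕ) (C : Finset F), ∀ (L : Type w) [Field L]
      [Algebra k L] [IsFF k L] [Algebra F L] (f : Fin (n + 1) → L),
      (∀ H ∈ p, aeval f H = 0) → aeval f G ≠ 0 → (∀ j ∈ U, f j ≠ 0) →
        pht k f ≤ B * max (canDeg k L + (boundary (k := k) U f).ncard +
            ∑ c ∈ C, hgt k (algebraMap F L c)) 0 +
          B * ∑ c ∈ C, hgt k (algebraMap F L c) := by
  classical
  have hpp : p.IsPrime := hmin.1.1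
  have hp : ∀ i, Fs i ∈ p := fun i => hmin.1.2 (Ideal.subset_span ⟨i, rfl⟩)
  choose N hN0 hN hdiv using hC
  have hQp : (∏ j ∈ U, X j : MvPolynomial (Fin (n + 1)) F) ∉ p := by
    intro h
    obtain ⟨j, hjU, hj⟩ := (Ideal.IsPrime.prod_mem_iff (hp := hpp)).1 h
    exact hU j hjU hj
  have hQ : (∏ j ∈ U, X j : MvPolynomial (Fin (n + 1)) F).IsHomogeneous U.card := by
    have := IsHomogeneous.prod U (fun j => (X j : MvPolynomial (Fin (n + 1)) F)) (fun _ => 1)
      fun j _ => isHomogeneous_X _ _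
    simpa using this
  obtain ⟨l0, hl0⟩ := hx
  obtain ⟨d, G, hGd, hG, -, B, C, h⟩ := proj_homog.{u, v, w, z} (k := k) (isHomog_of_min Fs hF hmin)
    hQ hQp (fewSystem U Fs hF N hN0 hN hdiv p hp)
    (few_rigid_gen U Fs hF N hN0 hN hdiv hmin hp hl0 hst) ⟨l0, hl0⟩
  refine ⟨d + 1, G * X l0, hGd.mul (isHomogeneous_X _ _), ?_, B, C, ?_⟩
  · intro h
    rcases Ideal.IsPrime.mem_or_mem hpp h with h | h
    · exact hG h
    · exact hl0 h
  · intro L _ _ _ _ f hf hfG hfU
    rw [map_mul, aeval_X] at hfG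
    have hfl : f l0 ≠ 0 := right_ne_zero_of_mul hfG
    refine (h L f hf (left_ne_zero_of_mul hfG)).trans ?_
    have h1 : ((meets (k := k) (∏ j ∈ U, X j : MvPolynomial (Fin (n + 1)) F) U.card f).ncard : ℤ) ≤
        (boundary (k := k) U f).ncard := by
      exact_mod_cast Set.ncard_le_ncard (meets_subset_gen U hfU) (boundary_finite U ⟨l0, hfl⟩)
    have h2 := max_le_max_right 0 (add_le_add_left (add_le_add_right h1 (canDeg k L))
      (∑ c ∈ C, hgt k (algebraMap F L c)))
    have h3 := mul_le_mul_of_nonneg_left h2 (by positivity : (0 : ℤ) ≤ B)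
    linarith

end Pool.Agent.W603.PV
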