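import Pool.Agent.W603.PV.Few
import Pool.Agent.W603.PV.Deriv

/-! Systems of sums of powers of linear forms, and lines through the generic point. -/

set_option autoImplicit false

open FF MvPolynomial Pool.Agent.W603.LV

namespace Pool.Agent.W603.PV

universe u v w z

section blockidentity

variable {E : Type v} [Field E]

open Classical in
/-- If the blocks have sum zero and the ratios in the blocks are constants of the derivation, the
sum of the terms along the flow is zero. -/
theorem flow_sum {K : Type*} [Field K] [Algebra K E] (D : Derivation K E E) {s : ℕ} (τ : Fin s → E)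
    (R : Fin s → Fin s → Prop) (hR : Equivalence R)
    (hsum : ∀ a, ∑ b ∈ Finset.univ.filter (R a), τ b = 0)
    (hD : ∀ a b, R a b → D (τ a / τ b) = 0) (N : ℕ) :
    ∑ a, Polynomial.C (τ a) * (1 + Polynomial.C (D (τ a) / (N * τ a)) * Polynomial.X) ^ N = 0 := by
  let σ : Setoid (Fin s) := ⟨R, hR⟩
  rw [← Finset.sum_fiberwise_of_maps_to (s := Finset.univ)
    (t := Finset.univ.image (Quotient.mk σ))
    (g := Quotient.mk σ) (fun α hα => Finset.mem_image_of_mem _ hα)]
  refine Finset.sum_eq_zero fun c hc => ?_
  rw [Finset.mem_image] at hc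
  obtain ⟨a0, -, rfl⟩ := hc
  have hfil : Finset.univ.filter (fun a => Quotient.mk σ a = Quotient.mk σ a0) =
      Finset.univ.filter (R a0) := by
    ext a
    simp only [Finset.mem_filter, Finset.mem_univ, true_and]
    constructor
    · intro h; exact hR.symm (Quotient.exact h)
    · intro h; exact Quotient.sound (hR.symm h)
  rw [hfil]
  by_cases hall : ∀ b, R a0 b → τ b = 0
  · refine Finset.sum_eq_zero fun b hb => ?_
    rw [hall b (Finset.mem_filter.1 hb).2, map_zero, zero_mul]
  · push Not at hall
    obtain ⟨b0, hb0, hτ0⟩ := hall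
    have key : ∀ b ∈ Finset.univ.filter (R a0), Polynomial.C (τ b) *
        (1 + Polynomial.C (D (τ b) / (N * τ b)) * Polynomial.X) ^ N =
        Polynomial.C (τ b) * (1 + Polynomial.C (D (τ b0) / (N * τ b0)) * Polynomial.X) ^ N := by
      intro b hb
      by_cases hτ : τ b = 0
      · rw [hτ, map_zero, zero_mul, zero_mul]
      · have h1 := hD b b0 (hR.trans (hR.symm (Finset.mem_filter.1 hb).2) hb0)
        have h2 : D (τ b) = τ b / τ b0 * D (τ b0) := by
          have h3 : τ b = τ b / τ b0 * τ b0 := by field_simp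
          conv_lhs => rw [h3]
          rw [Derivation.leibniz, h1, smul_zero, add_zero, smul_eq_mul]
        have h4 : D (τ b) / (N * τ b) = D (τ b0) / (N * τ b0) := by
          rw [h2]
          by_cases hN : (N : E) = 0
          · simp [hN]
          · field_simp
        rw [h4]
    rw [Finset.sum_congr rfl key, ← Finset.sum_mul, ← map_sum, hsum a0, map_zero, zero_mul]

end blockidentity

variable {F : Type v} [Field F] {n : ℕ}

/-- The linear form with given coefficients. -/
noncomputable def lin (c : Fin (n + 1) → F) : MvPolynomial (Fin (n + 1)) F := ∑ j, C (c j) * X j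

theorem lin_homogeneous (c : Fin (n + 1) → F) : (lin c).IsHomogeneous 1 := by
  unfold lin
  refine IsHomogeneous.sum _ _ _ fun j _ => ?_
  have := (isHomogeneous_C (Fin (n + 1)) (c j)).mul (isHomogeneous_X F j)
  simpa using this

variable (p : Ideal (MvPolynomial (Fin (n + 1)) F)) [p.IsPrime]

/-- Evaluation along the line through the generic point with direction `v`. -/
noncomputable def along (v : Fin (n + 1) → FractionRing (MvPolynomial (Fin (n + 1)) F ⧸ p)) :
    MvPolynomial (Fin (n + 1)) F →ₐ[F]
      Polynomial (FractionRing (MvPolynomial (Fin (n + 1)) F ⧸ p)) :=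
  aeval fun j => Polynomial.C (xi p j) + Polynomial.C (v j) * Polynomial.X

/-- The generic point `ξ` of the variety with the ideal `p` lies on a line `ξ + t v` contained in
the variety, on which the form `Q` of degree `q` is `Q(ξ) (1 + μ t) ^ q`. -/
def HasLine (Q : MvPolynomial (Fin (n + 1)) F) (q : ℕ) : Prop :=
  ∃ v : Fin (n + 1) → FractionRing (MvPolynomial (Fin (n + 1)) F ⧸ p),
    (∃ j l, v j * xi p l ≠ v l * xi p j) ∧ (∀ H ∈ p, along p v H = 0) ∧
    ∃ μ : FractionRing (MvPolynomial (Fin (n + 1)) F ⧸ p),
      along p v Q = Polynomial.C (aeval (xi p) Q) * (1 + Polynomial.C μ * Polynomial.X) ^ q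

variable {p}

theorem aeval_xi (H : MvPolynomial (Fin (n + 1)) F) : aeval (xi p) H =
    algebraMap _ (FractionRing (MvPolynomial (Fin (n + 1)) F ⧸ p)) (Ideal.Quotient.mk p H) := by
  have h1 : (aeval (xi p) : MvPolynomial (Fin (n + 1)) F →ₐ[F] _) =
      ((IsScalarTower.toAlgHom F (MvPolynomial (Fin (n + 1)) F ⧸ p)
        (FractionRing (MvPolynomial (Fin (n + 1)) F ⧸ p))).comp (Ideal.Quotient.mkₐ F p)) := by
    apply MvPolynomial.algHom_ext
    intro j
    rw [aeval_X]
    rfl
  rw [h1]
  rfl

theorem aeval_xi_eq_zero {H : MvPolynomial (Fin (n + 1)) F} : aeval (xi p) H = 0 ↔ H ∈ p := by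
  rw [aeval_xi, ← Ideal.Quotient.eq_zero_iff_mem]
  constructor
  · intro h
    exact IsFractionRing.injective _ (FractionRing (MvPolynomial (Fin (n + 1)) F ⧸ p))
      (by rw [map_zero]; exact h)
  · intro h; rw [h, map_zero]

theorem along_lin (v : Fin (n + 1) → FractionRing (MvPolynomial (Fin (n + 1)) F ⧸ p))
    (c : Fin (n + 1) → F) : along p v (lin c) =
      Polynomial.C (aeval (xi p) (lin c)) + Polynomial.C (aeval v (lin c)) * Polynomial.X := by
  unfold lin along
  simp only [map_sum, map_mul, aeval_X, aeval_C, Finset.sum_mul,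
    ← Finset.sum_add_distrib]
  refine Finset.sum_congr rfl fun j _ => ?_
  rw [IsScalarTower.algebraMap_apply F (FractionRing (MvPolynomial (Fin (n + 1)) F ⧸ p))
    (Polynomial _)]
  change Polynomial.C _ * _ = _
  ring

open Classical in
/-- If the system is not rigid, some derivation moves the generic point, and the ratios of the terms
in the blocks are constants of it. -/
theorem exists_flow [CharZero F] {Q : MvPolynomial (Fin (n + 1)) F} {q : ℕ} {I : Type z}
    {s : I → ℕ} (E : EqSys p Q q s) (hE : ¬ E.Rigid) :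
    ∃ (D : Derivation F (FractionRing (MvPolynomial (Fin (n + 1)) F ⧸ p))
        (FractionRing (MvPolynomial (Fin (n + 1)) F ⧸ p)))
      (R : (i : I) → Fin (s i) → Fin (s i) → Prop), (∀ i, Equivalence (R i)) ∧
      (∀ i a, ∑ b ∈ Finset.univ.filter (R i a), algebraMap _
        (FractionRing (MvPolynomial (Fin (n + 1)) F ⧸ p)) (E.term i b) = 0) ∧
      (∀ i a b, R i a b → D (algebraMap _
        (FractionRing (MvPolynomial (Fin (n + 1)) F ⧸ p)) (E.term i a) / algebraMap _
        (FractionRing (MvPolynomial (Fin (n + 1)) F ⧸ p)) (E.term i b)) = 0) ∧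
      ∃ j l, D (xi p j) * xi p l ≠ D (xi p l) * xi p j := by
  unfold EqSys.Rigid at hE
  push Not at hE
  obtain ⟨R, hR, hR2, j, l, hjl⟩ := hE
  set K0 := IntermediateField.adjoin F (ratios E.term R) with hK0
  have h1 : Algebra.EssFiniteType F (FractionRing (MvPolynomial (Fin (n + 1)) F ⧸ p)) := by
    have h2 : Algebra.EssFiniteType (MvPolynomial (Fin (n + 1)) F ⧸ p)
        (FractionRing (MvPolynomial (Fin (n + 1)) F ⧸ p)) :=
      Algebra.EssFiniteType.of_isLocalization _
        (nonZeroDivisors (MvPolynomial (Fin (n + 1)) F ⧸ p))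
    exact Algebra.EssFiniteType.comp F (MvPolynomial (Fin (n + 1)) F ⧸ p) _
  have h2 : Algebra.EssFiniteType K0 (FractionRing (MvPolynomial (Fin (n + 1)) F ⧸ p)) :=
    Algebra.EssFiniteType.of_comp F K0 _
  have h3 : CharZero K0 := charZero_of_injective_algebraMap (algebraMap F K0).injective
  change ¬ IsAlgebraic K0 (xi p j / xi p l) at hjl
  obtain ⟨D, hD⟩ := exists_derivation (K := K0) hjl
  refine ⟨D.restrictScalars F, R, hR, ?_, ?_, j, l, ?_⟩
  · intro i a
    have h4 := hR2 i a
    have h5 := congrArg (algebraMap _ (FractionRing (MvPolynomial (Fin (n + 1)) F ⧸ p))) h4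
    rw [map_sum, map_zero] at h5
    exact h5
  · intro i a b hab
    have h4 : algebraMap _
        (FractionRing (MvPolynomial (Fin (n + 1)) F ⧸ p)) (E.term i a) / algebraMap _
        (FractionRing (MvPolynomial (Fin (n + 1)) F ⧸ p)) (E.term i b) ∈ K0 :=
      IntermediateField.subset_adjoin _ _ ⟨i, a, b, hab, rfl⟩
    exact D.map_algebraMap (⟨_, h4⟩ : K0)
  · intro h
    apply hD
    change D (xi p j) * xi p l = D (xi p l) * xi p j at h
    by_cases hl : xi p l = 0
    · rw [hl, div_zero, map_zero]
    · have h5 : xi p j / xi p l * xi p l = xi p j := by field_simp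
      have h6 := congrArg D h5
      rw [Derivation.leibniz, smul_eq_mul, smul_eq_mul] at h6
      have h7 : xi p l * D (xi p j / xi p l) * xi p l = 0 := by
        have h8 : xi p l * D (xi p j / xi p l) = D (xi p j) - xi p j / xi p l * D (xi p l) := by
          linear_combination h6
        rw [h8]
        field_simp
        linear_combination h
      rcases mul_eq_zero.1 h7 with h8 | h8
      · exact (mul_eq_zero.1 h8).resolve_left hl
      · exact absurd h8 hl

/-- the value along the flow of a power of a linear form -/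
theorem along_pow (D : Derivation F (FractionRing (MvPolynomial (Fin (n + 1)) F ⧸ p))
    (FractionRing (MvPolynomial (Fin (n + 1)) F ⧸ p))) [CharZero F] (c : F)
    (l : Fin (n + 1) → F) {N : ℕ} (hN : 0 < N) :
    along p (fun j => D (xi p j)) (C c * lin l ^ N) =
      Polynomial.C (aeval (xi p) (C c * lin l ^ N)) * (1 + Polynomial.C
        (D (aeval (xi p) (C c * lin l ^ N)) / (N * aeval (xi p) (C c * lin l ^ N))) *
          Polynomial.X) ^ N := by
  have hchar : CharZero (FractionRing (MvPolynomial (Fin (n + 1)) F ⧸ p)) :=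
    charZero_of_injective_algebraMap
      (algebraMap F (FractionRing (MvPolynomial (Fin (n + 1)) F ⧸ p))).injective
  have hN' : (N : FractionRing (MvPolynomial (Fin (n + 1)) F ⧸ p)) ≠ 0 := by
    exact_mod_cast hN.ne'
  set y := aeval (xi p) (lin l) with hy
  have hDy : aeval (fun j => D (xi p j)) (lin l) = D y := by
    rw [hy]
    unfold lin
    simp only [map_sum, map_mul, aeval_X, aeval_C]
    refine Finset.sum_congr rfl fun j _ => ?_
    rw [Derivation.leibniz, Derivation.map_algebraMap, smul_zero, add_zero, smul_eq_mul]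
  have h1 : along p (fun j => D (xi p j)) (C c) = Polynomial.C (algebraMap F _ c) := by
    unfold along
    rw [aeval_C]
    rfl
  have h2 : aeval (xi p) (C c * lin l ^ N) =
      algebraMap F (FractionRing (MvPolynomial (Fin (n + 1)) F ⧸ p)) c * y ^ N := by
    rw [map_mul, map_pow, aeval_C]
  rw [h2, map_mul, map_pow, along_lin, h1, hDy, ← hy]
  by_cases hy0 : y = 0
  · rw [hy0]
    simp [hN.ne']
  by_cases hc0 : algebraMap F (FractionRing (MvPolynomial (Fin (n + 1)) F ⧸ p)) c = 0
  · rw [hc0, map_zero, zero_mul, zero_mul, map_zero, zero_mul]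
  have h3 : D (algebraMap F (FractionRing (MvPolynomial (Fin (n + 1)) F ⧸ p)) c * y ^ N) /
      (N * (algebraMap F (FractionRing (MvPolynomial (Fin (n + 1)) F ⧸ p)) c * y ^ N)) =
      D y / y := by
    rw [Derivation.leibniz, Derivation.map_algebraMap, smul_zero, add_zero, smul_eq_mul,
      Derivation.leibniz_pow, nsmul_eq_mul, smul_eq_mul]
    obtain ⟨M, rfl⟩ : ∃ M, N = M + 1 := ⟨N - 1, by omega⟩
    simp only [Nat.add_sub_cancel]
    field_simp
    ring
  rw [h3, map_mul, map_pow, mul_assoc, ← mul_pow]
  congr 2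
  rw [mul_add, mul_one, ← mul_assoc, ← map_mul]
  congr 4
  field_simp

/-- The equations vanish along a flow if they are generators of the ideal. -/
theorem along_ker {ι : Type*} (Fs : ι → MvPolynomial (Fin (n + 1)) F)
    (hmin : p ∈ (Ideal.span (Set.range Fs)).minimalPrimes)
    (v : Fin (n + 1) → FractionRing (MvPolynomial (Fin (n + 1)) F ⧸ p))
    (h : ∀ i, along p v (Fs i) = 0) : ∀ H ∈ p, along p v H = 0 := by
  set q : Ideal (MvPolynomial (Fin (n + 1)) F) := RingHom.ker (along p v) with hq
  have hqp : q ≤ p := by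
    intro H hH
    rw [hq, RingHom.mem_ker] at hH
    have h1 : Polynomial.eval 0 (along p v H) = aeval (xi p) H := by
      have h2 : ((Polynomial.aeval (0 : FractionRing (MvPolynomial (Fin (n + 1)) F ⧸ p))).restrictScalars
          F).comp (along p v) = aeval (xi p) := by
        apply MvPolynomial.algHom_ext
        intro j
        simp [along]
      have h3 := congrArg (fun φ : MvPolynomial (Fin (n + 1)) F →ₐ[F] _ => φ H) h2
      rw [← h3]
      change _ = Polynomial.aeval 0 (along p v H)
      rw [Polynomial.coe_aeval_eq_eval]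
    rw [hH, Polynomial.eval_zero] at h1
    exact aeval_xi_eq_zero.1 h1.symm
  have hprime : q.IsPrime := RingHom.ker_isPrime _
  have hle : Ideal.span (Set.range Fs) ≤ q := by
    rw [Ideal.span_le]
    rintro _ ⟨i, rfl⟩
    exact h i
  intro H hH
  exact hmin.2 ⟨hprime, hle⟩ hqp hH

end Pool.Agent.W603.PV
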