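import Pool.Agent.W603.PV.Abs

/-! Height bounds on projective varieties with a rigid system of generalised unit equations. -/

set_option autoImplicit false

open FF MvPolynomial Pool.Agent.W603.LV

namespace Pool.Agent.W603.PV

universe u v w z

variable {k : Type u} [Field k] {F : Type v} [Field F] {n : ℕ}
  {p : Ideal (MvPolynomial (Fin (n + 1)) F)} {Q : MvPolynomial (Fin (n + 1)) F}
  {q : ℕ} {I : Type z} {s : I → ℕ}

theorem meets_finite [CharZero k] {L : Type w} [Field L] [Algebra k L] [IsFF k L] [Algebra F L]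
    (Q : MvPolynomial (Fin (n + 1)) F) (q : ℕ) {f : Fin (n + 1) → L} (hf : ∃ j, f j ≠ 0) :
    (meets (k := k) Q q f).Finite := by
  classical
  obtain ⟨T, hT⟩ := exists_supp (k := k) (Finset.univ : Finset (Option (Fin (n + 1))))
    (fun a => Option.elim a (aeval f Q) f)
  refine (Finset.finite_toSet T).subset ?_
  intro P hP
  by_contra hcon
  have h0 : P.ord (aeval f Q) = 0 := by
    by_contra h
    exact hcon (hT none (Finset.mem_univ _) P h)
  have h1 : ∀ j, P.ord (f j) = 0 := by
    intro j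
    by_contra h
    exact hcon (hT (some j) (Finset.mem_univ _) P h)
  obtain ⟨j, _, hj⟩ := exists_pord P hf
  have h2 : (q : ℤ) * pord P f < P.ord (aeval f Q) := hP
  rw [← hj, h1 j, h0, mul_zero] at h2
  exact lt_irrefl _ h2

theorem proj_core [IsAlgClosed k] [CharZero k] [Finite I] [p.IsPrime]
    (hQp : Q ∉ p) (E : EqSys p Q q s) (hE : E.Rigid) (hx : ∃ j, X j ∉ p) :
    ∃ G : MvPolynomial (Fin (n + 1)) F, G ∉ p ∧ ∃ (B : ℕ) (C : Finset F), ∀ (L : Type w) [Field L]
      [Algebra k L] [IsFF k L] [Algebra F L] (f : Fin (n + 1) → L),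
      (∀ H ∈ p, aeval f H = 0) → aeval f G ≠ 0 →
        pht k f ≤ B * max (canDeg k L + (meets (k := k) Q q f).ncard +
            ∑ c ∈ C, hgt k (algebraMap F L c)) 0 +
          B * ∑ c ∈ C, hgt k (algebraMap F L c) := by
  classical
  have := Fintype.ofFinite I
  obtain ⟨l, hl⟩ := hx
  have hmk : ∀ H : MvPolynomial (Fin (n + 1)) F, H ∉ p → Ideal.Quotient.mk p H ≠ 0 := by
    intro H hH h
    exact hH (Ideal.Quotient.eq_zero_iff_mem.1 h)
  choose χ e m hχ hde hunit using E.unit
  obtain ⟨g, hg, B1, E1, hcore⟩ := core_abs.{u, v, w, z, 0, v} (k := k) (F := F)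
    (A := MvPolynomial (Fin (n + 1)) F ⧸ p) E.term
    (J := Fin (n + 1)) (fun j => Ideal.Quotient.mk p (X j)) (fun _ => Ideal.Quotient.mk p (X l))
    (fun _ => hmk _ hl) (by
      intro R hR hR2 j
      refine hE R hR (fun i a => ?_) j l
      refine Eq.trans ?_ (hR2 i a)
      congr!)
  obtain ⟨G0, hG0⟩ := Ideal.Quotient.mk_surjective g
  set G1 : MvPolynomial (Fin (n + 1)) F := ∏ i, ∏ a,
    (if E.term i a = 0 then 1 else E.ψ i a * E.φ i a ^ E.N i) with hG1
  obtain ⟨Cψ, hCψ⟩ : ∃ Cψ : Finset F, Cψ = Finset.univ.biUnion fun i => Finset.univ.biUnion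
    fun a => (E.ψ i a).coeffs ∪ (χ i a).coeffs := ⟨_, rfl⟩
  obtain ⟨B0, hB0⟩ : ∃ B0 : ℕ, B0 = ∑ i, s i * (E.N i * (tri (s i)).toNat) := ⟨_, rfl⟩
  have hG0p : G0 ∉ p := by
    intro h
    apply hg
    rw [← hG0]
    exact Ideal.Quotient.eq_zero_iff_mem.2 h
  have hG1p : G1 ∉ p := by
    intro h
    rw [hG1] at h
    obtain ⟨i, -, h⟩ := (Ideal.IsPrime.prod_mem_iff (hp := inferInstance)).1 h
    obtain ⟨a, -, h⟩ := (Ideal.IsPrime.prod_mem_iff (hp := inferInstance)).1 h
    split_ifs at h with h0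
    · exact (Ideal.ne_top_iff_one p).1 (Ideal.IsPrime.ne_top inferInstance) h
    · exact h0 (Ideal.Quotient.eq_zero_iff_mem.2 h)
  refine ⟨G0 * G1 * Q * X l, ?_, (n + 1) * (B1 * B0 + B1), E1 ∪ Cψ, ?_⟩
  · intro h
    rcases Ideal.IsPrime.mem_or_mem inferInstance h with h | h
    · rcases Ideal.IsPrime.mem_or_mem inferInstance h with h | h
      · rcases Ideal.IsPrime.mem_or_mem inferInstance h with h | h
        · exact hG0p h
        · exact hG1p h
      · exact hQp h
    · exact hl h
  intro L _ _ _ _ f hf hfG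
  rw [map_mul, map_mul, map_mul, aeval_X] at hfG
  have hfl : f l ≠ 0 := right_ne_zero_of_mul hfG
  have hfQ : aeval f Q ≠ 0 := right_ne_zero_of_mul (left_ne_zero_of_mul hfG)
  have hfG1 : aeval f G1 ≠ 0 := right_ne_zero_of_mul (left_ne_zero_of_mul (left_ne_zero_of_mul hfG))
  have hfG0 : aeval f G0 ≠ 0 := left_ne_zero_of_mul (left_ne_zero_of_mul (left_ne_zero_of_mul hfG))
  let θ : (MvPolynomial (Fin (n + 1)) F ⧸ p) →ₐ[F] L := Ideal.Quotient.liftₐ p (aeval f) hf
  have hθ : ∀ H, θ (Ideal.Quotient.mk p H) = aeval f H := fun H => Ideal.Quotient.liftₐ_apply p _ hf _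
  set HC : ℤ := ∑ c ∈ E1 ∪ Cψ, hgt k (algebraMap F L c) with hHC
  have hHC0 : 0 ≤ HC := Finset.sum_nonneg fun _ _ => hgt_nonneg _
  set Mx : ℤ := max (canDeg k L + (meets (k := k) Q q f).ncard + HC) 0 with hMx
  have hMx0 : 0 ≤ Mx := le_max_right _ _
  -- the bad places
  obtain ⟨T, hT⟩ := exists_supp (k := k) Cψ (fun c => algebraMap F L c)
  set T' : Finset (Place k L) := T.filter fun P => ∃ c ∈ Cψ, P.ord (algebraMap F L c) < 0 with hT'
  have hT'card : (T'.card : ℤ) ≤ HC := by
    refine (card_poles Cψ (fun c => algebraMap F L c) T' ?_).trans ?_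
    · intro P hP
      exact (Finset.mem_filter.1 hP).2
    · exact Finset.sum_le_sum_of_subset_of_nonneg Finset.subset_union_right
        fun _ _ _ => hgt_nonneg _
  have hfin := meets_finite (k := k) Q q ⟨l, hfl⟩
  set S : Finset (Place k L) := hfin.toFinset ∪ T' with hS
  have hScard : (S.card : ℤ) ≤ (meets (k := k) Q q f).ncard + HC := by
    have h1 := Finset.card_union_le hfin.toFinset T'
    rw [← hS, ← Set.ncard_eq_toFinset_card _ hfin] at h1
    have h2 : (S.card : ℤ) ≤ ((meets (k := k) Q q f).ncard : ℤ) + T'.card := by exact_mod_cast h1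
    linarith
  have hreg : ∀ P ∉ S, ∀ c ∈ Cψ, Ge P 0 (algebraMap F L c) := by
    intro P hP c hc
    right
    by_contra hcon
    push Not at hcon
    apply hP
    rw [hS, Finset.mem_union]
    right
    rw [hT', Finset.mem_filter]
    exact ⟨hT c hc P hcon.ne, c, hc, hcon⟩
  have hcψ : ∀ i a, ∀ α ∈ (E.ψ i a).support, (E.ψ i a).coeff α ∈ Cψ := by
    intro i a α hα
    rw [hCψ]
    exact Finset.mem_biUnion.2 ⟨i, Finset.mem_univ _, Finset.mem_biUnion.2
      ⟨a, Finset.mem_univ _, Finset.mem_union_left _ (coeff_mem_coeffs α (mem_support_iff.1 hα))⟩⟩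
  have hcχ : ∀ i a, ∀ α ∈ (χ i a).support, (χ i a).coeff α ∈ Cψ := by
    intro i a α hα
    rw [hCψ]
    exact Finset.mem_biUnion.2 ⟨i, Finset.mem_univ _, Finset.mem_biUnion.2
      ⟨a, Finset.mem_univ _, Finset.mem_union_right _ (coeff_mem_coeffs α (mem_support_iff.1 hα))⟩⟩
  -- orders of the units
  have hordψ : ∀ P ∉ S, ∀ i a, P.ord (aeval f (E.ψ i a)) = E.dψ i a * pord P f := by
    intro P hP i a
    have h1 := ge_form P f (E.homψ i a) fun α hα => hreg P hP _ (hcψ i a α hα)
    have h2 := ge_form P f (hχ i a) fun α hα => hreg P hP _ (hcχ i a α hα)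
    have h3 : aeval f (E.ψ i a) * aeval f (χ i a) = aeval f Q ^ m i a := by
      have := hf _ (hunit i a)
      rw [map_sub, map_mul, map_pow, sub_eq_zero] at this
      exact this
    have h4 : aeval f (E.ψ i a) * aeval f (χ i a) ≠ 0 := by
      rw [h3]; exact pow_ne_zero _ hfQ
    have h5 := left_ne_zero_of_mul h4
    have h6 := right_ne_zero_of_mul h4
    have h7 := congrArg P.ord h3
    rw [P.ord_mul h5 h6, P.ord_pow] at h7
    have h8 : P.ord (aeval f Q) ≤ q * pord P f := by
      by_contra hcon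
      push Not at hcon
      apply hP
      rw [hS, Finset.mem_union]
      left
      rw [Set.Finite.mem_toFinset]
      exact hcon
    have h9 : (m i a : ℤ) * P.ord (aeval f Q) ≤ m i a * (q * pord P f) :=
      mul_le_mul_of_nonneg_left h8 (by positivity)
    have h10 : ((E.dψ i a : ℤ) + e i a) = m i a * q := by exact_mod_cast hde i a
    have h11 := h1.resolve_left h5
    have h12 := h2.resolve_left h6
    have h13 : (E.dψ i a : ℤ) * pord P f + e i a * pord P f = m i a * (q * pord P f) := by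
      rw [← add_mul, h10, mul_assoc]
    linarith
  have hterm : ∀ i a, E.term i a ≠ 0 → aeval f (E.ψ i a * E.φ i a ^ E.N i) ≠ 0 := by
    intro i a ha h0
    apply hfG1
    rw [hG1, map_prod]
    apply Finset.prod_eq_zero (Finset.mem_univ i)
    rw [map_prod]
    apply Finset.prod_eq_zero (Finset.mem_univ a)
    rw [if_neg ha, h0]
  have hblk : ∀ i, ∃ R : {a : Fin (s i) // E.term i a ≠ 0} → {a : Fin (s i) // E.term i a ≠ 0} →
      Prop, Equivalence R ∧
      (∀ a b, R a b → hgt k (θ (E.term i a) / θ (E.term i b)) ≤ B0 * Mx) ∧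
      ∀ (a0 : {a : Fin (s i) // E.term i a ≠ 0}) (B : Finset {a : Fin (s i) // E.term i a ≠ 0}),
        (∀ a, a ∈ B ↔ R a0 a) → ∑ a ∈ B, θ (E.term i a) = 0 := by
    intro i
    obtain ⟨R, hR1, hR2, hR3⟩ := blocks S (s := s i) (by
        have := Fintype.card_subtype_le (fun a : Fin (s i) => E.term i a ≠ 0)
        rwa [Fintype.card_fin] at this) (E.pos i) (E.large i)
      (fun a : {a : Fin (s i) // E.term i a ≠ 0} => θ (E.term i a))
      (fun a => by
        simp only [EqSys.term, hθ]
        exact hterm i a a.2)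
      (by
        have h1 : ∑ a : Fin (s i), θ (E.term i a) = 0 := by
          simp only [EqSys.term, hθ]
          rw [← map_sum]
          exact hf _ (E.rel i)
        rw [← h1, ← Finset.sum_filter_add_sum_filter_not Finset.univ (fun a => E.term i a ≠ 0),
          Finset.sum_eq_zero (s := Finset.univ.filter fun a => ¬ E.term i a ≠ 0), add_zero]
        · exact (Finset.sum_subtype _ (by simp) (fun a => θ (E.term i a))).symm
        · intro a ha
          rw [Finset.mem_filter, not_not] at ha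
          rw [ha.2, map_zero])
      (by
        intro P hP a b
        have h1 : ∀ a : {a : Fin (s i) // E.term i a ≠ 0}, P.ord (θ (E.term i a)) =
            E.dψ i a * pord P f + E.N i * P.ord (aeval f (E.φ i a)) := by
          intro a
          have h2 := hterm i a a.2
          simp only [EqSys.term, hθ]
          rw [map_mul, map_pow] at h2 ⊢
          rw [P.ord_mul (left_ne_zero_of_mul h2) (right_ne_zero_of_mul h2), hordψ P hP,
            P.ord_pow]
        have h2 : ∀ a : Fin (s i), (E.dψ i a : ℤ) + E.N i * E.dφ i a = E.d i := by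
          intro a
          exact_mod_cast E.deg i a
        rw [h1 a, h1 b]
        refine ⟨(E.dφ i b - E.dφ i a) * pord P f + (P.ord (aeval f (E.φ i a)) -
          P.ord (aeval f (E.φ i b))), ?_⟩
        have h3 := h2 a
        have h4 := h2 b
        have h5 : (E.dψ i a : ℤ) = E.d i - E.N i * E.dφ i a := by linarith
        have h6 : (E.dψ i b : ℤ) = E.d i - E.N i * E.dφ i b := by linarith
        rw [h5, h6]
        ring)
    refine ⟨R, hR1, fun a b hab => (hR2 a b hab).trans ?_, hR3⟩
    have h2 : ((s i * (E.N i * (tri (s i)).toNat) : ℕ) : ℤ) ≤ B0 := by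
      rw [hB0]
      exact_mod_cast Finset.single_le_sum
        (f := fun i => s i * (E.N i * (tri (s i)).toNat))
        (fun _ _ => Nat.zero_le _) (Finset.mem_univ i)
    have h3 : max (canDeg k L + S.card) 0 ≤ Mx := by
      apply max_le _ hMx0
      refine le_trans ?_ (le_max_left _ _)
      linarith
    have h4 : (0 : ℤ) ≤ s i * (E.N i * tri (s i)) :=
      mul_nonneg (by positivity) (mul_nonneg (by positivity) (tri_nonneg _))
    have h5 : (s i : ℤ) * (E.N i * tri (s i) * max (canDeg k L + S.card) 0) =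
        (s i * (E.N i * tri (s i))) * max (canDeg k L + S.card) 0 := by ring
    rw [h5]
    refine (mul_le_mul_of_nonneg_left h3 h4).trans ?_
    refine (le_of_eq ?_).trans (mul_le_mul_of_nonneg_right h2 hMx0)
    rw [Nat.cast_mul, Nat.cast_mul, Int.toNat_of_nonneg (tri_nonneg _)]
  have hB0Mx : 0 ≤ (B0 : ℤ) * Mx := mul_nonneg (by positivity) hMx0
  have hfin2 := hcore L θ (by rw [← hG0, hθ]; exact hfG0) _ hB0Mx hblk
  refine (pht_le f hfl).trans ?_
  have h1 : ∀ j, hgt k (f j / f l) ≤ B1 * (B0 * Mx) + B1 * HC := by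
    intro j
    have h2 := (hfin2 j).2
    rw [hθ, hθ, aeval_X, aeval_X] at h2
    have h3 : ∑ c ∈ E1, hgt k (algebraMap F L c) ≤ HC :=
      Finset.sum_le_sum_of_subset_of_nonneg Finset.subset_union_left fun _ _ _ => hgt_nonneg _
    have h4 : (B1 : ℤ) * ∑ c ∈ E1, hgt k (algebraMap F L c) ≤ B1 * HC :=
      mul_le_mul_of_nonneg_left h3 (by positivity)
    linarith
  refine (Finset.sum_le_sum fun j _ => h1 j).trans ?_
  rw [Finset.sum_const, nsmul_eq_mul, Finset.card_univ, Fintype.card_fin]
  push_cast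
  have h2 : (0 : ℤ) ≤ (n + 1) * B1 * Mx := by positivity
  have h3 : (0 : ℤ) ≤ (n + 1) * (B1 * B0) * HC := by positivity
  nlinarith

end Pool.Agent.W603.PV
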